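import Pool.Agent.SimpleSpectrum.Rigidity

/-!
A biholomorphic map between the double covers covers an affine map of the tori.
-/

set_option autoImplicit false

open Filter Topology Asymptotics

namespace Pool.Agent.SimpleSpectrum

/-- The square lattice. -/
noncomputable def stdPair : PeriodPair where
  ω₁ := 1
  ω₂ := Complex.I
  indep := by
    rw [LinearIndependent.pair_iff]
    intro s t h
    have h1 := congrArg Complex.re h
    have h2 := congrArg Complex.im h
    simp at h1 h2
    exact ⟨h1, h2⟩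

lemma isPreconnected_tor_compl {E : Set Tor} (hE : E.Countable) : IsPreconnected Eᶜ := by
  have h : Eᶜ = cproj stdPair '' (cproj stdPair ⁻¹' E)ᶜ := by
    ext θ
    constructor
    · intro hθ
      obtain ⟨z, rfl⟩ := cproj_surjective stdPair θ
      exact ⟨z, hθ, rfl⟩
    · rintro ⟨z, hz, rfl⟩
      exact hz
  rw [h]
  exact (isPreconnected_compl_of_countable (countable_cproj_preimage stdPair hE)).image _
    (continuous_cproj _).continuousOn

lemma exists_lift_circle {A : Type*} [TopologicalSpace A] [SimplyConnectedSpace A]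
    [LocallyPathConnectedSpace A] (f : A → UnitAddCircle) (hf : Continuous f) :
    ∃ F : A → ℝ, Continuous F ∧ ∀ a, (F a : UnitAddCircle) = f a := by
  obtain ⟨a₀⟩ : Nonempty A := inferInstance
  obtain ⟨e₀, he₀⟩ := QuotientAddGroup.mk_surjective (f a₀)
  obtain ⟨F, ⟨-, hF⟩, -⟩ := (AddCircle.isCoveringMap_coe (1 : ℝ)).existsUnique_continuousMap_lifts
    ⟨f, hf⟩ a₀ e₀ he₀
  exact ⟨F, F.continuous, fun a => congrFun hF a⟩

lemma exists_lift_tor (L : PeriodPair) {A : Type*} [TopologicalSpace A] [SimplyConnectedSpace A]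
    [LocallyPathConnectedSpace A] (f : A → Tor) (hf : Continuous f) :
    ∃ F : A → ℂ, Continuous F ∧ ∀ a, cproj L (F a) = f a := by
  obtain ⟨F₁, h₁, g₁⟩ := exists_lift_circle (fun a => (f a).1) (continuous_fst.comp hf)
  obtain ⟨F₂, h₂, g₂⟩ := exists_lift_circle (fun a => (f a).2) (continuous_snd.comp hf)
  refine ⟨fun a => per L (F₁ a, F₂ a), (per L).continuous.comp (h₁.prodMk h₂), fun a => ?_⟩
  rw [cproj_per]
  exact Prod.ext (g₁ a) (g₂ a)

namespace TorusCover

variable {S : Type} [TopologicalSpace S] (C : TorusCover S)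

/-- The complement of countably many fibres is preconnected, if a branch point remains. -/
lemma isPreconnected_preimage [CompactSpace S] [T2Space S] {E : Set Tor} (hE : E.Countable)
    {p : Tor} (hp : p ∈ C.P) (hpE : p ∉ E) : IsPreconnected (C.φ ⁻¹' Eᶜ) := by
  rw [isPreconnected_iff_subset_of_disjoint_closed]
  -- an auxiliary statement which is not symmetric
  have key : ∀ u v : Set S, IsClosed u → IsClosed v → C.φ ⁻¹' Eᶜ ⊆ u ∪ v →
      C.φ ⁻¹' Eᶜ ∩ (u ∩ v) = ∅ → C.pt p ∈ u → C.φ ⁻¹' Eᶜ ⊆ u := by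
    intro u v hu hv hsub hdisj hpu y hy
    by_contra hyu
    have hyv : y ∈ v := (hsub hy).resolve_left hyu
    have hps : C.pt p ∈ C.φ ⁻¹' Eᶜ := by
      rw [Set.mem_preimage, C.φ_pt]
      exact hpE
    have hpv : C.pt p ∉ v := by
      intro h
      have : C.pt p ∈ C.φ ⁻¹' Eᶜ ∩ (u ∩ v) := ⟨hps, hpu, h⟩
      rw [hdisj] at this
      exact this
    have hA : IsOpen (C.φ '' uᶜ) := C.φ_open _ hu.isOpen_compl
    have hB : IsOpen (C.φ '' v)ᶜ := (hv.isCompact.image C.φ_cont).isClosed.isOpen_compl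
    obtain ⟨θ, hθE, hθA, hθB⟩ := isPreconnected_tor_compl hE _ _ hA hB (by
      intro θ hθ
      by_cases h : θ ∈ C.φ '' v
      · left
        obtain ⟨x, hx, rfl⟩ := h
        refine ⟨x, ?_, rfl⟩
        intro hxu
        have : x ∈ C.φ ⁻¹' Eᶜ ∩ (u ∩ v) := ⟨hθ, hxu, hx⟩
        rw [hdisj] at this
        exact this
      · right
        exact h) ⟨C.φ y, hy, y, hyu, rfl⟩ ⟨p, hpE, by
        rintro ⟨x, hx, hxp⟩
        rcases C.eq_pt_or x with h | h
        · rw [hxp] at h
          rw [h] at hx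
          exact hpv hx
        · have hfix : C.τ (C.pt p) = C.pt p := (C.fixed _).mpr (by rwa [C.φ_pt])
          rw [hxp, hfix] at h
          rw [h] at hx
          exact hpv hx⟩
    obtain ⟨x, hxu, rfl⟩ := hθA
    have hxv : x ∈ v := (hsub hθE).resolve_left hxu
    exact hθB ⟨x, hxv, rfl⟩
  intro u v hu hv hsub hdisj
  have hps : C.pt p ∈ C.φ ⁻¹' Eᶜ := by
    rw [Set.mem_preimage, C.φ_pt]
    exact hpE
  rcases hsub hps with h | h
  · left
    exact key u v hu hv hsub hdisj h
  · right
    exact key v u hv hu (by rwa [Set.union_comm]) (by rwa [Set.inter_comm u v] at hdisj) h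

lemma connectedSpace [CompactSpace S] [T2Space S] {p : Tor} (hp : p ∈ C.P) :
    ConnectedSpace S := by
  have h := C.isPreconnected_preimage (E := ∅) Set.countable_empty hp (by simp)
  rw [Set.compl_empty, Set.preimage_univ] at h
  have : Nonempty S := ⟨C.pt p⟩
  exact { isPreconnected_univ := h, toNonempty := this }

/-- The two-torsion points. -/
noncomputable def two : Finset Tor :=
  open Classical in
  ({0, ((1 / 2 : ℝ) : UnitAddCircle)} : Finset UnitAddCircle) ×ˢ {0, ((1 / 2 : ℝ) : UnitAddCircle)}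

lemma card_two_le : two.card ≤ 4 := by
  classical
  rw [two, Finset.card_product]
  have h : ({0, ((1 / 2 : ℝ) : UnitAddCircle)} : Finset UnitAddCircle).card ≤ 2 :=
    Finset.card_le_two
  calc _ ≤ 2 * 2 := Nat.mul_le_mul h h
    _ = 4 := by norm_num

lemma mem_two_circle {u : UnitAddCircle} (h : u + u = 0) :
    u ∈ ({0, ((1 / 2 : ℝ) : UnitAddCircle)} : Set UnitAddCircle) := by
  have h2 : 2 • u = 0 := by rw [two_nsmul, h]
  rw [AddCircle.nsmul_eq_zero_iff (by norm_num)] at h2
  obtain ⟨m, hm, rfl⟩ := h2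
  interval_cases m
  · left; simp
  · right; simp

lemma mem_two {θ : Tor} (h : θ + θ = 0) : θ ∈ two := by
  classical
  have h1 : θ.1 + θ.1 = 0 := congrArg Prod.fst h
  have h2 : θ.2 + θ.2 = 0 := congrArg Prod.snd h
  rw [two, Finset.mem_product]
  have e1 := mem_two_circle h1
  have e2 := mem_two_circle h2
  constructor
  · simpa using e1
  · simpa using e2

/-- From the dichotomy to fibre preservation. -/
lemma φ_comp_τ [CompactSpace S] [T2Space S] (hcard : 8 < C.P.card) (Φ : S ≃ₜ S)
    (hdich : ∀ x, C.φ (Φ (C.τ x)) = C.φ (Φ x) ∨ C.φ (Φ (C.τ x)) = -C.φ (Φ x)) (x : S) :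
    C.φ (Φ (C.τ x)) = C.φ (Φ x) := by
  classical
  set E : Finset Tor := two.image (fun θ => C.φ (Φ.symm (C.pt θ))) ∪
    two.image (fun θ => C.φ (Φ.symm (C.τ (C.pt θ)))) with hE
  have hEcard : E.card ≤ 8 := by
    calc E.card ≤ _ + _ := Finset.card_union_le _ _
      _ ≤ two.card + two.card := Nat.add_le_add Finset.card_image_le Finset.card_image_le
      _ ≤ 4 + 4 := Nat.add_le_add card_two_le card_two_le
      _ = 8 := by norm_num
  obtain ⟨p, hp, hpE⟩ : ∃ p ∈ C.P, p ∉ E := Finset.exists_mem_notMem_of_card_lt_card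
    (lt_of_le_of_lt hEcard hcard)
  have htor : ∀ y, C.φ y ∉ E → C.φ (Φ y) + C.φ (Φ y) ≠ 0 := by
    intro y hy h
    apply hy
    have h1 := mem_two h
    rw [hE]
    rcases C.eq_pt_or (Φ y) with h2 | h2
    · apply Finset.mem_union_left
      rw [Finset.mem_image]
      exact ⟨_, h1, by rw [← h2, Homeomorph.symm_apply_apply]⟩
    · apply Finset.mem_union_right
      rw [Finset.mem_image]
      exact ⟨_, h1, by rw [← h2, Homeomorph.symm_apply_apply]⟩
  have hΦ := Φ.continuous
  have c1 : Continuous fun y => C.φ (Φ (C.τ y)) := C.φ_cont.comp (hΦ.comp C.τ_cont)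
  have c2 : Continuous fun y => C.φ (Φ y) := C.φ_cont.comp hΦ
  have hu : IsClosed {y | C.φ (Φ (C.τ y)) = C.φ (Φ y)} := isClosed_eq c1 c2
  have hv : IsClosed {y | C.φ (Φ (C.τ y)) = -C.φ (Φ y)} := isClosed_eq c1 c2.neg
  have hpre := C.isPreconnected_preimage (E := (E : Set Tor)) E.countable_toSet hp
    (by simpa using hpE)
  rw [isPreconnected_iff_subset_of_disjoint_closed] at hpre
  have hdisj : C.φ ⁻¹' (E : Set Tor)ᶜ ∩ ({y | C.φ (Φ (C.τ y)) = C.φ (Φ y)} ∩
      {y | C.φ (Φ (C.τ y)) = -C.φ (Φ y)}) = ∅ := by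
    rw [Set.eq_empty_iff_forall_notMem]
    rintro y ⟨hy, h1, h2⟩
    apply htor y (by simpa using hy)
    have h1' : C.φ (Φ (C.τ y)) = C.φ (Φ y) := h1
    have h2' : C.φ (Φ (C.τ y)) = -C.φ (Φ y) := h2
    rw [h1'] at h2'
    nth_rewrite 2 [h2']
    exact add_neg_cancel _
  have hsub := hpre _ _ hu hv (fun y _ => hdich y) hdisj
  have hdense := C.dense_preimage_compl E
  have hgood : C.φ ⁻¹' (E : Set Tor)ᶜ ⊆ {y | C.φ (Φ (C.τ y)) = C.φ (Φ y)} := by
    rcases hsub with h | h
    · exact h
    · exfalso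
      have hps : C.pt p ∈ C.φ ⁻¹' (E : Set Tor)ᶜ := by
        rw [Set.mem_preimage, C.φ_pt]
        simpa using hpE
      have hfix : C.τ (C.pt p) = C.pt p := (C.fixed _).mpr (by rwa [C.φ_pt])
      have : C.pt p ∈ C.φ ⁻¹' (E : Set Tor)ᶜ ∩ ({y | C.φ (Φ (C.τ y)) = C.φ (Φ y)} ∩
        {y | C.φ (Φ (C.τ y)) = -C.φ (Φ y)}) := ⟨hps, by
          show C.φ (Φ (C.τ (C.pt p))) = C.φ (Φ (C.pt p))
          rw [hfix], h hps⟩
      rw [hdisj] at this
      exact this
  exact closure_minimal hgood hu (hdense x)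

lemma isQuotientMap_φ : IsQuotientMap C.φ :=
  C.φ_open.isQuotientMap C.φ_cont C.φ_surj

/-- **Rigidity, second step**: the covered map is affine. -/
theorem exists_affine [T2Space S] (L L' : PeriodPair) (Φ : S ≃ₜ S)
    (hG : C.GermProp L L' Φ) (hτ : ∀ x, C.φ (Φ (C.τ x)) = C.φ (Φ x)) :
    ∃ α β : ℂ, ∀ x z, C.φ x = cproj L z → C.φ (Φ x) = cproj L' (α * z + β) := by
  classical
  set a : Tor → Tor := fun θ => C.φ (Φ (C.pt θ)) with ha
  have haφ : ∀ x, a (C.φ x) = C.φ (Φ x) := by
    intro x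
    simp only [ha]
    rcases C.eq_pt_or x with h | h
    · rw [← h]
    · nth_rewrite 2 [h]
      rw [hτ]
  have hacont : Continuous a := by
    rw [C.isQuotientMap_φ.continuous_iff]
    have : a ∘ C.φ = fun x => C.φ (Φ x) := funext haφ
    rw [this]
    exact C.φ_cont.comp Φ.continuous
  obtain ⟨U, hU, hUa⟩ := exists_lift_tor L' (fun z => a (cproj L z))
    (hacont.comp (continuous_cproj L))
  -- differentiability off a countable set
  set R : Set Tor := (C.P : Set Tor) ∪ (fun p => C.φ (Φ.symm (C.pt p))) '' (C.P : Set Tor) ∪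
    (fun p => C.φ (Φ.symm (C.τ (C.pt p)))) '' (C.P : Set Tor) with hR
  have hRc : R.Countable := (C.P.countable_toSet.union (C.P.countable_toSet.image _)).union
    (C.P.countable_toSet.image _)
  have hdiff : ∀ z, z ∉ cproj L ⁻¹' R → DifferentiableAt ℂ U z := by
    intro z hz
    have hz' : cproj L z ∉ R := hz
    set x := C.pt (cproj L z) with hx
    have hφx : C.φ x = cproj L z := C.φ_pt _
    have h1 : C.φ x ∉ C.P := by
      intro h
      apply hz'
      rw [← hφx]
      left; left
      exact h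
    have h2 : C.φ (Φ x) ∉ C.P := by
      intro h
      apply hz'
      rcases C.eq_pt_or (Φ x) with h3 | h3
      · left; right
        exact ⟨_, h, by
          show C.φ (Φ.symm (C.pt (C.φ (Φ x)))) = cproj L z
          rw [← h3, Homeomorph.symm_apply_apply, hφx]⟩
      · right
        exact ⟨_, h, by
          show C.φ (Φ.symm (C.τ (C.pt (C.φ (Φ x))))) = cproj L z
          rw [← h3, Homeomorph.symm_apply_apply, hφx]⟩
    obtain ⟨σ, u, e, cσ, sσ, du, -, gu⟩ := hG x z h1 h2 hφx
    have h3 : ∀ᶠ w in 𝓝 z, cproj L' (U w) = cproj L' (u w) := by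
      filter_upwards [sσ, gu] with w hw1 hw2
      rw [hUa, ← hw1, haφ, hw2]
    have h4 := eventually_sub_const L' hU.continuousAt du.continuousAt h3
    exact (du.add_const _).congr_of_eventuallyEq h4
  have hcount : (cproj L ⁻¹' R).Countable := countable_cproj_preimage L hRc
  have hUd : Differentiable ℂ U := by
    intro z
    have := Complex.hasFPowerSeriesOnBall_of_differentiable_off_countable (R := 1) (c := z)
      (f := U) hcount hU.continuousOn (fun w hw => hdiff w hw.2) one_pos
    exact this.hasFPowerSeriesAt.differentiableAt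
  -- the derivative is periodic and bounded
  have hper : ∀ z w, w ∈ L.lattice → deriv U (z + w) = deriv U z := by
    intro z w hw
    have hc1 : Continuous fun z => U (z + w) := hU.comp (by fun_prop)
    have h1 : ∀ᶠ y in 𝓝 z, cproj L' (U (y + w)) = cproj L' (U y) := by
      apply Eventually.of_forall
      intro y
      rw [hUa, hUa, cproj_add_lattice L y w hw]
    have h2 := eventually_sub_const L' (hc1.continuousAt (x := z)) hU.continuousAt h1
    have h3 : deriv (fun y => U (y + w)) z = deriv (fun y => U y + (U (z + w) - U z)) z :=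
      Filter.EventuallyEq.deriv_eq h2
    rw [deriv_comp_add_const, deriv_add_const] at h3
    exact h3
  have hbd : Bornology.IsBounded (Set.range (deriv U)) :=
    (IsZLattice.isCompact_range_of_periodic L.lattice (deriv U) hUd.deriv.continuous hper).isBounded
  have hconst : ∀ z, deriv U z = deriv U 0 := fun z => hUd.deriv.apply_eq_apply_of_bounded hbd z 0
  have haff : ∀ z, U z = deriv U 0 * z + U 0 := by
    intro z
    have h1 : Differentiable ℂ fun z => U z - deriv U 0 * z :=
      hUd.sub (by fun_prop)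
    have h2 : ∀ z, deriv (fun z => U z - deriv U 0 * z) z = 0 := by
      intro z
      have h3 : HasDerivAt (fun z => U z - deriv U 0 * z) (deriv U z - deriv U 0 * 1) z :=
        (hUd z).hasDerivAt.sub ((hasDerivAt_id z).const_mul _)
      rw [h3.deriv, hconst z]
      ring
    have h4 := is_const_of_deriv_eq_zero h1 h2 z 0
    simp only [mul_zero, sub_zero] at h4
    linear_combination h4
  refine ⟨deriv U 0, U 0, fun x z hx => ?_⟩
  rw [← haφ, hx, ← hUa, haff]

/-- A homeomorphism preserving fibres commutes with the deck transformation. -/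
lemma comm_τ [T2Space S] (Φ : S ≃ₜ S) (hτ : ∀ x, C.φ (Φ (C.τ x)) = C.φ (Φ x)) (x : S) :
    Φ (C.τ x) = C.τ (Φ x) := by
  have hclosed : IsClosed {y | Φ (C.τ y) = C.τ (Φ y)} :=
    isClosed_eq (Φ.continuous.comp C.τ_cont) (C.τ_cont.comp Φ.continuous)
  have hdense := C.dense_preimage_compl C.P
  have hsub : C.φ ⁻¹' (C.P : Set Tor)ᶜ ⊆ {y | Φ (C.τ y) = C.τ (Φ y)} := by
    intro y hy
    have hy' : C.φ y ∉ C.P := by simpa using hy
    rcases (C.fiber (Φ y) (Φ (C.τ y))).mp (hτ y).symm with h | h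
    · exfalso
      exact hy' ((C.fixed y).mp (Φ.injective h))
    · exact h
  exact closure_minimal hsub hclosed (hdense x)

/-- It permutes the branch points. -/
lemma mem_P_iff [T2Space S] (Φ : S ≃ₜ S) (hτ : ∀ x, C.φ (Φ (C.τ x)) = C.φ (Φ x)) (x : S) :
    C.φ (Φ x) ∈ C.P ↔ C.φ x ∈ C.P := by
  rw [← C.fixed, ← C.fixed, ← C.comm_τ Φ hτ, Φ.injective.eq_iff]

end TorusCover

end Pool.Agent.SimpleSpectrum
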