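import Pool.Agent.SimpleSpectrum.Affine

/-!
The arithmetic part: parameters, eigen-coordinates, and the trace argument.
-/

set_option autoImplicit false

open Filter Topology

namespace Pool.Agent.SimpleSpectrum

/-- The parameters of the examples: `b` and `c = b * m`. -/
structure Par where
  b : ℕ
  m : ℕ
  hb : 43 ≤ b
  hm : 43 ≤ m
  cop : Nat.Coprime (b * (b * m)) 40

namespace Par

variable (p : Par)

def c : ℕ := p.b * p.m

lemma c_ge : 43 ≤ p.c := by
  have h1 := p.hb
  have h2 := p.hm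
  unfold c
  nlinarith

/-- The number `b c`. -/
def n : ℝ := (p.b : ℝ) * (p.c : ℝ)

lemma n_ge : 1849 ≤ p.n := by
  have h1 : (43 : ℝ) ≤ p.b := by exact_mod_cast p.hb
  have h2 : (43 : ℝ) ≤ p.c := by exact_mod_cast p.c_ge
  unfold n
  nlinarith

/-- The stretch factor. -/
noncomputable def lam : ℝ := ((p.n - 2) + √((p.n - 2) ^ 2 - 4)) / 2

lemma lam_sq : p.lam ^ 2 = (p.n - 2) * p.lam - 1 := by
  have h := p.n_ge
  have h1 : √((p.n - 2) ^ 2 - 4) ^ 2 = (p.n - 2) ^ 2 - 4 := by
    apply Real.sq_sqrt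
    nlinarith
  unfold lam
  linear_combination h1 / 4

lemma one_lt_lam : 1 < p.lam := by
  have h := p.n_ge
  have h1 := Real.sqrt_nonneg ((p.n - 2) ^ 2 - 4)
  unfold lam
  linarith

lemma lam_pos : 0 < p.lam := lt_trans one_pos p.one_lt_lam

lemma lam_add_inv : p.lam + p.lam⁻¹ = p.n - 2 := by
  have h1 := p.lam_pos.ne'
  have h2 := p.lam_sq
  field_simp
  linarith

lemma inv_lt_lam : p.lam⁻¹ < p.lam := by
  have h1 := p.one_lt_lam
  have h2 : p.lam⁻¹ < 1 := inv_lt_one_of_one_lt₀ h1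
  linarith

/-- The translation length. -/
noncomputable def r : ℝ := Real.log p.lam

lemma r_pos : 0 < p.r := Real.log_pos p.one_lt_lam

lemma exp_r : Real.exp p.r = p.lam := Real.exp_log p.lam_pos

lemma exp_neg_r : Real.exp (-p.r) = p.lam⁻¹ := by rw [Real.exp_neg, p.exp_r]

lemma c_pos : (0 : ℝ) < p.c := by
  have h2 : (43 : ℝ) ≤ p.c := by exact_mod_cast p.c_ge
  linarith

lemma b_pos : (0 : ℝ) < p.b := by
  have h2 : (43 : ℝ) ≤ p.b := by exact_mod_cast p.hb
  linarith

/-- The period pair in eigen-coordinates. -/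
noncomputable def L : PeriodPair where
  ω₁ := ⟨p.c, -p.c⟩
  ω₂ := ⟨1 + p.lam, -(1 + p.lam⁻¹)⟩
  indep := by
    rw [LinearIndependent.pair_iff]
    intro s t h
    have h1 := congrArg Complex.re h
    have h2 := congrArg Complex.im h
    simp at h1 h2
    have hc := p.c_pos
    have hl := p.inv_lt_lam
    have h3 : t * (p.lam - p.lam⁻¹) = 0 := by linarith
    have h4 : t = 0 := by
      rcases mul_eq_zero.mp h3 with h | h
      · exact h
      · linarith
    refine ⟨?_, h4⟩
    rw [h4] at h1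
    simp at h1
    rcases h1 with h | h
    · exact h
    · rw [h] at hc
      simp at hc

lemma per_L (v : ℝ × ℝ) :
    per p.L v = ⟨p.c * v.1 + (1 + p.lam) * v.2, -(p.c * v.1 + (1 + p.lam⁻¹) * v.2)⟩ := by
  rw [per_apply]
  apply Complex.ext
  · simp [L]; ring
  · simp [L]; ring

end Par

/-- Linear maps with integer coefficients. -/
def lin (a b c d : ℤ) (v : ℝ × ℝ) : ℝ × ℝ := (a * v.1 + b * v.2, c * v.1 + d * v.2)

/-- The corresponding endomorphism of the torus. -/
def act (a b c d : ℤ) (θ : Tor) : Tor := (a • θ.1 + b • θ.2, c • θ.1 + d • θ.2)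

lemma proj_lin (a b c d : ℤ) (v : ℝ × ℝ) : proj (lin a b c d v) = act a b c d (proj v) := by
  simp only [proj, lin, act, AddCircle.coe_add]
  congr 2 <;>
  · rw [← AddCircle.coe_zsmul, zsmul_eq_mul]

lemma act_add (a b c d : ℤ) (θ θ' : Tor) :
    act a b c d (θ + θ') = act a b c d θ + act a b c d θ' := by
  apply Prod.ext
  · simp [act, smul_add]; abel
  · simp [act, smul_add]; abel

lemma act_zero (a b c d : ℤ) : act a b c d 0 = 0 := by
  apply Prod.ext <;> simp [act]

lemma act_zsmul (a b c d n : ℤ) (θ : Tor) : act a b c d (n • θ) = n • act a b c d θ := by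
  apply Prod.ext
  · simp only [act, Prod.smul_fst, Prod.smul_snd, smul_add, smul_smul, mul_comm]
  · simp only [act, Prod.smul_fst, Prod.smul_snd, smul_add, smul_smul, mul_comm]

lemma act_nsmul (a b c d : ℤ) (n : ℕ) (θ : Tor) : act a b c d (n • θ) = n • act a b c d θ := by
  have := act_zsmul a b c d n θ
  simpa using this

lemma act_neg (a b c d : ℤ) (θ : Tor) : act a b c d (-θ) = -act a b c d θ := by
  have := act_zsmul a b c d (-1) θ
  simpa using this

lemma continuous_act (a b c d : ℤ) : Continuous (act a b c d) := by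
  unfold act
  fun_prop

namespace Par

variable (p : Par)

/-- The hyperbolic matrix acts by stretching. -/
lemma per_A (v : ℝ × ℝ) :
    per p.L (lin (-1) (-p.b) p.c (p.b * p.c - 1) v) = stretch p.r (per p.L v) := by
  have h1 := p.lam_sq
  have h2 := p.lam_pos.ne'
  have h3 : p.lam⁻¹ ^ 2 = (p.n - 2) * p.lam⁻¹ - 1 := by
    field_simp
    linarith
  rw [per_L, per_L, stretch, p.exp_r, p.exp_neg_r]
  simp only [lin]
  push_cast
  unfold n at h1 h3
  apply Complex.ext
  · simp only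
    linear_combination (-v.2) * h1
  · simp only
    linear_combination (v.2) * h3

lemma per_A' (v : ℝ × ℝ) :
    per p.L (lin (p.b * p.c - 1) p.b (-p.c) (-1) v) = stretch (-p.r) (per p.L v) := by
  have h := p.per_A (lin (p.b * p.c - 1) p.b (-p.c) (-1) v)
  have h2 : lin (-1) (-p.b) p.c (p.b * p.c - 1) (lin (p.b * p.c - 1) p.b (-p.c) (-1) v) = v := by
    apply Prod.ext
    · simp only [lin]; push_cast; ring
    · simp only [lin]; push_cast; ring
  rw [h2] at h
  rw [h, stretch_neg_stretch]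

/-- The relation expressing that an integer matrix represents multiplication by `α`. -/
def Rel (s t : ℝ) (α : ℂ) (x y z w : ℤ) : Prop :=
  ∀ v : ℝ × ℝ, stretch t (per p.L (lin x y z w v)) = α * stretch s (per p.L v)

/-- The congruence conditions. -/
def Cong (ε : ℤ) (x y z w : ℤ) : Prop :=
  x * w - y * z = 1 ∧ (p.c : ℤ) ∣ x - ε ∧ (p.c : ℤ) ∣ z ∧ (p.b : ℤ) ∣ y ∧ (p.b : ℤ) ∣ w - ε

lemma b_dvd_c : (p.b : ℤ) ∣ (p.c : ℤ) := by
  unfold c
  push_cast
  exact dvd_mul_right _ _

lemma lin_lin (a b c d x y z w : ℤ) (v : ℝ × ℝ) :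
    lin a b c d (lin x y z w v) = lin (a * x + b * z) (a * y + b * w) (c * x + d * z)
      (c * y + d * w) v := by
  apply Prod.ext
  · simp only [lin]; push_cast; ring
  · simp only [lin]; push_cast; ring

lemma step_up {s t : ℝ} {α : ℂ} {x y z w ε : ℤ} (h : p.Rel s t α x y z w)
    (hc : p.Cong ε x y z w) : ∃ x' y' z' w' ε', (ε' = ε ∨ ε' = -ε) ∧
      p.Rel s (t - p.r) α x' y' z' w' ∧ p.Cong ε' x' y' z' w' := by
  refine ⟨-1 * x + -p.b * z, -1 * y + -p.b * w, p.c * x + (p.b * p.c - 1) * z,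
    p.c * y + (p.b * p.c - 1) * w, -ε, Or.inr rfl, ?_, ?_⟩
  · intro v
    rw [← lin_lin, p.per_A, stretch_stretch, sub_add_cancel]
    exact h v
  · obtain ⟨h1, ⟨k1, h2⟩, ⟨k2, h3⟩, ⟨k3, h4⟩, ⟨k4, h5⟩⟩ := hc
    have hx : x = ε + p.c * k1 := by linarith
    have hw : w = ε + p.b * k4 := by linarith
    refine ⟨?_, ?_, ?_, ?_, ?_⟩
    · linear_combination h1
    · exact ⟨-k1 - p.b * k2, by rw [hx, h3]; ring⟩
    · exact ⟨x + (p.b * p.c - 1) * k2, by rw [h3]; ring⟩
    · exact ⟨-k3 - w, by rw [h4]; ring⟩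
    · exact ⟨p.c * k3 + p.c * w - k4, by rw [h4, hw]; ring⟩

lemma step_down {s t : ℝ} {α : ℂ} {x y z w ε : ℤ} (h : p.Rel s t α x y z w)
    (hc : p.Cong ε x y z w) : ∃ x' y' z' w' ε', (ε' = ε ∨ ε' = -ε) ∧
      p.Rel s (t + p.r) α x' y' z' w' ∧ p.Cong ε' x' y' z' w' := by
  refine ⟨(p.b * p.c - 1) * x + p.b * z, (p.b * p.c - 1) * y + p.b * w, -p.c * x + -1 * z,
    -p.c * y + -1 * w, -ε, Or.inr rfl, ?_, ?_⟩
  · intro v
    rw [← lin_lin, p.per_A', stretch_stretch, add_neg_cancel_right]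
    exact h v
  · obtain ⟨h1, ⟨k1, h2⟩, ⟨k2, h3⟩, ⟨k3, h4⟩, ⟨k4, h5⟩⟩ := hc
    have hx : x = ε + p.c * k1 := by linarith
    have hw : w = ε + p.b * k4 := by linarith
    refine ⟨?_, ?_, ?_, ?_, ?_⟩
    · linear_combination h1
    · exact ⟨p.b * x - k1 + p.b * k2, by rw [h3]; linear_combination (-1) * hx⟩
    · exact ⟨-x - k2, by rw [h3]; ring⟩
    · exact ⟨(p.b * p.c - 1) * k3 + w, by rw [h4]; ring⟩
    · exact ⟨-p.c * k3 - k4, by rw [h4, hw]; ring⟩

lemma steps {s t : ℝ} {α : ℂ} {x y z w ε : ℤ} (hε : ε = 1 ∨ ε = -1) (h : p.Rel s t α x y z w)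
    (hc : p.Cong ε x y z w) (k : ℤ) : ∃ x' y' z' w' ε', (ε' = 1 ∨ ε' = -1) ∧
      p.Rel s (t - k * p.r) α x' y' z' w' ∧ p.Cong ε' x' y' z' w' := by
  have hsign : ∀ e e' : ℤ, (e = 1 ∨ e = -1) → (e' = e ∨ e' = -e) → (e' = 1 ∨ e' = -1) := by
    intro e e' h1 h2
    omega
  induction k using Int.induction_on with
  | zero =>
    refine ⟨x, y, z, w, ε, hε, ?_, hc⟩
    simpa using h
  | succ i ih =>
    obtain ⟨x', y', z', w', ε', h1, h2, h3⟩ := ih
    obtain ⟨x'', y'', z'', w'', ε'', h4, h5, h6⟩ := p.step_up h2 h3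
    refine ⟨x'', y'', z'', w'', ε'', hsign _ _ h1 h4, ?_, h6⟩
    have : t - ((i : ℤ) + 1 : ℤ) * p.r = t - (i : ℤ) * p.r - p.r := by push_cast; ring
    rw [this]
    exact h5
  | pred i ih =>
    obtain ⟨x', y', z', w', ε', h1, h2, h3⟩ := ih
    obtain ⟨x'', y'', z'', w'', ε'', h4, h5, h6⟩ := p.step_down h2 h3
    refine ⟨x'', y'', z'', w'', ε'', hsign _ _ h1 h4, ?_, h6⟩
    have : t - (-(i : ℤ) - 1 : ℤ) * p.r = t - (-(i : ℤ) : ℤ) * p.r + p.r := by push_cast; ring
    rw [this]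
    exact h5

lemma aux1 {n M : ℝ} (hn : 1849 ≤ n) (hM : M ≤ -1) (h : (2 + n * M) ^ 2 ≤ n) : False := by
  have h1 : n * M ≤ -n := by nlinarith
  have h2 : (n - 2) ^ 2 ≤ (2 + n * M) ^ 2 := by
    rw [sq_le_sq, abs_of_nonneg (by linarith : (0 : ℝ) ≤ n - 2), abs_of_nonpos (by linarith)]
    linarith
  have h3 : n < (n - 2) ^ 2 := by nlinarith
  linarith

lemma aux2 {n M : ℝ} (hn : 1849 ≤ n) (hM : 1 ≤ M) (h : (2 + n * M) ^ 2 ≤ n) : False := by
  have h1 : n ≤ n * M := by nlinarith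
  have h2 : (2 + n) ^ 2 ≤ (2 + n * M) ^ 2 := by
    apply pow_le_pow_left₀ (by linarith)
    linarith
  have h3 : n < (2 + n) ^ 2 := by nlinarith
  linarith

lemma aux3 {n M : ℝ} (hn : 1849 ≤ n) (hM : 1 ≤ M ^ 2) (h : n ^ 2 * M ^ 2 ≤ (n - 2) ^ 2 - 4) :
    False := by
  have h1 : n ^ 2 * 1 ≤ n ^ 2 * M ^ 2 := mul_le_mul_of_nonneg_left hM (sq_nonneg n)
  nlinarith

/-- The key trace computation: a matrix in the congruence class which represents an isometry
between nearby points of the geodesic represents the identity up to sign. -/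
lemma trace_arg {s t : ℝ} {α : ℂ} {x y z w ε : ℤ} (hε : ε = 1 ∨ ε = -1)
    (h : p.Rel s t α x y z w) (hc : p.Cong ε x y z w) (hα : α.re ^ 2 + α.im ^ 2 = 1)
    (hst : |s - t| ≤ p.r / 2) : s = t := by
  obtain ⟨hdet, ⟨k1, h2⟩, ⟨k2, h3⟩, ⟨k3, h4⟩, ⟨k4, h5⟩⟩ := hc
  have hcpos := p.c_pos
  have hbpos := p.b_pos
  have hn := p.n_ge
  have hll := p.inv_lt_lam
  have hadd := p.lam_add_inv
  have hlam := p.lam_pos
  have hmul : p.lam * p.lam⁻¹ = 1 := mul_inv_cancel₀ hlam.ne'
  set l := p.lam with hl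
  set u := p.lam⁻¹ with hu
  have hupos : 0 < u := inv_pos.mpr hlam
  -- the equations in coordinates
  have e1 := h (1, 0)
  have e2 := h (0, 1)
  simp only [Par.per_L, lin, stretch, mul_one, mul_zero, add_zero, zero_add] at e1 e2
  have e1r := congrArg Complex.re e1
  have e1i := congrArg Complex.im e1
  have e2r := congrArg Complex.re e2
  have e2i := congrArg Complex.im e2
  simp only [Complex.mul_re, Complex.mul_im] at e1r e1i e2r e2i
  set a₁ := α.re
  set a₂ := α.im
  have hEs : Real.exp s * Real.exp (-s) = 1 := by rw [← Real.exp_add]; simp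
  have hEt : Real.exp t * Real.exp (-t) = 1 := by rw [← Real.exp_add]; simp
  set Es := Real.exp s
  set Es' := Real.exp (-s)
  set Et := Real.exp t
  set Et' := Real.exp (-t)
  -- normalised coefficients
  set P := a₁ * (Es * Et') with hP
  set Q := a₁ * (Es' * Et) with hQ
  set U := a₂ * (Es' * Et') with hU
  set W := a₂ * (Es * Et) with hW
  have E1 : (p.c : ℝ) * x + (1 + l) * z = p.c * P + p.c * U := by
    linear_combination Et' * e1r - ((p.c : ℝ) * x + (1 + l) * z) * hEt
  have E2 : (p.c : ℝ) * x + (1 + u) * z = p.c * Q - p.c * W := by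
    linear_combination (-Et) * e1i - ((p.c : ℝ) * x + (1 + u) * z) * hEt
  have E3 : (p.c : ℝ) * y + (1 + l) * w = (1 + l) * P + (1 + u) * U := by
    linear_combination Et' * e2r - ((p.c : ℝ) * y + (1 + l) * w) * hEt
  have E4 : (p.c : ℝ) * y + (1 + u) * w = (1 + u) * Q - (1 + l) * W := by
    linear_combination (-Et) * e2i - ((p.c : ℝ) * y + (1 + u) * w) * hEt
  have hlu : l - u ≠ 0 := by
    have : 0 < l - u := by linarith
    exact this.ne'
  -- traces
  have T1 : (x : ℝ) + w = P + Q := by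
    have h1 : (l - u) * (p.c * ((x : ℝ) + w)) = (l - u) * (p.c * (P + Q)) := by
      linear_combination (1 + l) * E2 - (1 + u) * E1 + p.c * (E3 - E4)
    have h2 := mul_left_cancel₀ hlu h1
    exact mul_left_cancel₀ hcpos.ne' h2
  have hbc : (p.b : ℝ) * p.c = l + u + 2 := by
    have : p.n = l + u + 2 := by linarith
    exact this
  have T2 : -(x : ℝ) + p.c * y - p.b * z + (p.b * p.c - 1) * w = l * P + u * Q := by
    have h1 : (l - u) * (p.c * (-(x : ℝ) + p.c * y - p.b * z + (p.b * p.c - 1) * w)) =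
        (l - u) * (p.c * (l * P + u * Q)) := by
      have f1 : (l - u) * (p.c * (x : ℝ)) = (1 + l) * (p.c * Q - p.c * W) - (1 + u) * (p.c * P + p.c * U) := by
        linear_combination (1 + l) * E2 - (1 + u) * E1
      have f2 : (l - u) * (z : ℝ) = p.c * P + p.c * U - (p.c * Q - p.c * W) := by
        linear_combination E1 - E2
      have f3 : (l - u) * (p.c * (y : ℝ)) = (1 + l) * ((1 + u) * Q - (1 + l) * W) -
          (1 + u) * ((1 + l) * P + (1 + u) * U) := by
        linear_combination (1 + l) * E4 - (1 + u) * E3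
      have f4 : (l - u) * (w : ℝ) = (1 + l) * P + (1 + u) * U - ((1 + u) * Q - (1 + l) * W) := by
        linear_combination E3 - E4
      have f5 : (l - u) * (p.c * (-(x : ℝ) + p.c * y - p.b * z + (p.b * p.c - 1) * w)) =
          -((l - u) * (p.c * (x : ℝ))) + p.c * ((l - u) * (p.c * (y : ℝ))) -
          (p.b * p.c) * ((l - u) * (z : ℝ)) + p.c * (p.b * p.c - 1) * ((l - u) * (w : ℝ)) := by
        ring
      rw [f5, f1, f2, f3, f4, hbc]
      linear_combination (p.c * (P - Q + U + W)) * hmul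
    have h2 := mul_left_cancel₀ hlu h1
    exact mul_left_cancel₀ hcpos.ne' h2
  have hεε : (ε : ℝ) * ε = 1 := by
    rcases hε with rfl | rfl <;> norm_num
  have hx : (x : ℝ) = ε + p.c * k1 := by
    have : x = ε + p.c * k1 := by linarith
    rw [this]; push_cast; ring
  have hw : (w : ℝ) = ε + p.b * k4 := by
    have : w = ε + p.b * k4 := by linarith
    rw [this]; push_cast; ring
  have hz : (z : ℝ) = p.c * k2 := by rw [h3]; push_cast; ring
  have hy : (y : ℝ) = p.b * k3 := by rw [h4]; push_cast; ring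
  have hdetR : (x : ℝ) * w - y * z = 1 := by exact_mod_cast hdet
  have hnbc : p.n = p.b * p.c := rfl
  -- the trace of N
  set M : ℤ := k2 * k3 - k1 * k4 with hM
  have htrN : (ε : ℝ) * (p.c * k1 + p.b * k4) = p.n * M := by
    rw [hx, hw, hz, hy] at hdetR
    rw [hM, hnbc]
    push_cast
    linear_combination hdetR - hεε
  have hPQ : P * Q = a₁ ^ 2 := by
    rw [hP, hQ]
    linear_combination (a₁ ^ 2 * (Et * Et')) * hEs + a₁ ^ 2 * hEt
  have hsum : (P + Q) ^ 2 ≤ p.n := by
    have h1 : Es * Et' = Real.exp (s - t) := by rw [← Real.exp_add, sub_eq_add_neg]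
    have h2 : Es' * Et = Real.exp (-(s - t)) := by
      rw [← Real.exp_add]
      congr 1
      ring
    have h3 : (P + Q) ^ 2 = a₁ ^ 2 * (2 * Real.cosh (2 * (s - t)) + 2) := by
      rw [hP, hQ, h1, h2, Real.cosh_eq]
      have e1 : Real.exp (2 * (s - t)) = Real.exp (s - t) ^ 2 := by
        rw [← Real.exp_nat_mul]; norm_num
      have e2 : Real.exp (-(2 * (s - t))) = Real.exp (-(s - t)) ^ 2 := by
        rw [← Real.exp_nat_mul]; congr 1; ring
      have e3 : Real.exp (s - t) * Real.exp (-(s - t)) = 1 := by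
        rw [← Real.exp_add]; simp
      rw [e1, e2]
      linear_combination (2 * a₁ ^ 2) * e3
    have h4 : Real.cosh (2 * (s - t)) ≤ Real.cosh p.r := by
      rw [Real.cosh_le_cosh, abs_mul, abs_of_pos p.r_pos]
      norm_num
      linarith
    have h5 : 2 * Real.cosh p.r = l + u := by
      rw [Real.cosh_eq, p.exp_r, p.exp_neg_r]
      ring
    have h6 : a₁ ^ 2 ≤ 1 := by
      have := sq_nonneg a₂
      linarith
    have h7 : 0 < 2 * Real.cosh (2 * (s - t)) + 2 := by
      have := Real.cosh_pos (2 * (s - t))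
      linarith
    rw [h3]
    calc a₁ ^ 2 * (2 * Real.cosh (2 * (s - t)) + 2) ≤ 1 * (2 * Real.cosh (2 * (s - t)) + 2) :=
          mul_le_mul_of_nonneg_right h6 h7.le
      _ ≤ 2 * Real.cosh p.r + 2 := by linarith
      _ = p.n := by rw [h5]; linarith
  have htr : ((x : ℝ) + w) = ε * (2 + p.n * M) := by
    rw [hx, hw, ← htrN]
    linear_combination (-(p.c * k1 + p.b * k4 : ℝ)) * hεε
  have hM0 : M = 0 := by
    by_contra hne
    have h1 : (2 + p.n * M) ^ 2 ≤ p.n := by
      have h2 : (P + Q) ^ 2 = (2 + p.n * M) ^ 2 := by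
        rw [← T1, htr]
        linear_combination ((2 + p.n * M) ^ 2) * hεε
      rw [← h2]
      exact hsum
    rcases lt_or_gt_of_ne hne with hlt | hgt
    · have h2 : (M : ℝ) ≤ -1 := by exact_mod_cast (by omega : M ≤ -1)
      exact aux1 hn h2 h1
    · have h2 : (1 : ℝ) ≤ M := by exact_mod_cast (by omega : 1 ≤ M)
      exact aux2 hn h2 h1
  rw [hM0] at htr htrN
  simp only [Int.cast_zero, mul_zero, add_zero] at htr htrN
  -- second trace
  set M' : ℤ := ε * (k3 - k2 + p.b * k4) with hM'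
  have hsec : (l - u) * (ε * P - 1) = p.n * M' := by
    have h1 : ε * (l * P + u * Q) = l + u + p.n * M' := by
      rw [← T2, hx, hw, hy, hz, hM']
      have : l + u = p.n - 2 := hadd
      rw [this, hnbc]
      push_cast
      linear_combination (-1 : ℝ) * htrN + (p.b * p.c - 2 : ℝ) * hεε
    have h2 : (ε : ℝ) * (P + Q) = 2 := by
      rw [← T1, htr]
      linear_combination 2 * hεε
    linear_combination h1 - u * h2
  have hδ : (ε * P - 1) ^ 2 = 1 - a₁ ^ 2 := by
    have h2 : (ε : ℝ) * (P + Q) = 2 := by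
      rw [← T1, htr]
      linear_combination 2 * hεε
    have h3 : (ε * Q : ℝ) = 2 - ε * P := by linarith
    have h4 : (ε * P) * (ε * Q) = a₁ ^ 2 := by
      linear_combination (P * Q) * hεε + hPQ
    rw [h3] at h4
    linear_combination (-1 : ℝ) * h4
  have hM'0 : M' = 0 := by
    by_contra hne
    have h1 : (p.n * M') ^ 2 ≤ (l - u) ^ 2 := by
      rw [← hsec, mul_pow, hδ]
      have : 1 - a₁ ^ 2 ≤ 1 := by
        have := sq_nonneg a₁
        linarith
      calc (l - u) ^ 2 * (1 - a₁ ^ 2) ≤ (l - u) ^ 2 * 1 :=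
            mul_le_mul_of_nonneg_left this (sq_nonneg _)
        _ = (l - u) ^ 2 := mul_one _
    have h2 : (l - u) ^ 2 = (p.n - 2) ^ 2 - 4 := by
      rw [← hadd]
      linear_combination (-4 : ℝ) * hmul
    have h3 : (1 : ℝ) ≤ (M' : ℝ) ^ 2 := by
      have : (1 : ℤ) ≤ M' ^ 2 := by
        have := sq_pos_of_ne_zero hne
        omega
      exact_mod_cast this
    rw [h2, mul_pow] at h1
    exact aux3 hn h3 h1
  rw [hM'0] at hsec
  simp only [Int.cast_zero, mul_zero] at hsec
  have hP1 : ε * P - 1 = 0 := (mul_eq_zero.mp hsec).resolve_left hlu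
  have ha1 : a₁ ^ 2 = 1 := by
    rw [hP1] at hδ
    linarith
  have hPsq : (Es * Et') ^ 2 = 1 := by
    have h1 : P ^ 2 = 1 := by
      have : P = ε := by
        linear_combination ε * hP1 - P * hεε
      rw [this, sq]
      exact hεε
    rw [hP, mul_pow, ha1, one_mul] at h1
    exact h1
  have h1 : Es * Et' = 1 := by
    have : 0 < Es * Et' := mul_pos (Real.exp_pos _) (Real.exp_pos _)
    exact (pow_eq_one_iff_of_nonneg this.le two_ne_zero).mp hPsq
  have h2 : Real.exp (s - t) = 1 := by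
    rw [sub_eq_add_neg, Real.exp_add]
    exact h1
  have h3 := Real.exp_eq_one_iff _ |>.mp h2
  linarith

end Par

end Pool.Agent.SimpleSpectrum
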