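import Pool.Agent.SimpleSpectrum.Arith

/-!
The branch points and the simplicity of the closed geodesic.
-/

set_option autoImplicit false

open Filter Topology

namespace Pool.Agent.SimpleSpectrum

lemma coe_div_eq_zero {N : ℕ} (hN : 0 < N) (a : ℤ) :
    (((a : ℝ) / N : ℝ) : UnitAddCircle) = 0 ↔ (N : ℤ) ∣ a := by
  have hN' : (N : ℝ) ≠ 0 := by positivity
  rw [coe_eq_zero_iff_int]
  constructor
  · rintro ⟨n, hn⟩
    refine ⟨n, ?_⟩
    rw [eq_div_iff hN'] at hn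
    have : ((n * N : ℤ) : ℝ) = a := by push_cast; exact hn
    have h2 : n * N = a := by exact_mod_cast this
    rw [← h2, mul_comm]
  · rintro ⟨n, rfl⟩
    refine ⟨n, ?_⟩
    push_cast
    field_simp

lemma coe_div_eq_iff {N : ℕ} (hN : 0 < N) (a a' : ℤ) :
    (((a : ℝ) / N : ℝ) : UnitAddCircle) = (((a' : ℝ) / N : ℝ) : UnitAddCircle) ↔
      (N : ℤ) ∣ a - a' := by
  rw [← coe_div_eq_zero hN, ← sub_eq_zero, ← AddCircle.coe_sub]
  push_cast
  rw [sub_div]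

namespace Par

variable (p : Par)

lemma b_pos' : 0 < p.b := by have := p.hb; omega

lemma c_pos' : 0 < p.c := by have := p.c_ge; omega

/-- the first kind of branch points -/
noncomputable def e₁ (k : ℤ) : Tor := proj (((2 * k : ℤ) : ℝ) / p.c, 0)

/-- the second kind of branch points -/
noncomputable def e₂ (k : ℤ) : Tor := proj (0, ((2 * k : ℤ) : ℝ) / p.b)

lemma e₁_fst (k : ℤ) : (p.e₁ k).1 = ((((2 * k : ℤ) : ℝ) / p.c : ℝ) : UnitAddCircle) := rfl
lemma e₁_snd (k : ℤ) : (p.e₁ k).2 = 0 := by simp [e₁, proj]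
lemma e₂_fst (k : ℤ) : (p.e₂ k).1 = 0 := by simp [e₂, proj]
lemma e₂_snd (k : ℤ) : (p.e₂ k).2 = ((((2 * k : ℤ) : ℝ) / p.b : ℝ) : UnitAddCircle) := rfl

lemma neg_e₁ (k : ℤ) : -p.e₁ k = p.e₁ (-k) := by
  rw [e₁, e₁, ← proj_neg]
  congr 1
  apply Prod.ext
  · simp; ring
  · simp

lemma neg_e₂ (k : ℤ) : -p.e₂ k = p.e₂ (-k) := by
  rw [e₂, e₂, ← proj_neg]
  congr 1
  apply Prod.ext
  · simp
  · simp; ring

lemma odd_b : Odd p.b := by
  have h := p.cop
  by_contra h2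
  rw [Nat.not_odd_iff_even] at h2
  obtain ⟨a, ha⟩ := h2
  have h3 : 2 ∣ Nat.gcd (p.b * (p.b * p.m)) 40 := by
    apply Nat.dvd_gcd
    · exact Dvd.dvd.mul_right ⟨a, by omega⟩ _
    · norm_num
  rw [h] at h3
  norm_num at h3

lemma odd_c : Odd p.c := by
  have h := p.cop
  by_contra h2
  rw [Nat.not_odd_iff_even] at h2
  obtain ⟨a, ha⟩ := h2
  have h3 : 2 ∣ Nat.gcd (p.b * (p.b * p.m)) 40 := by
    apply Nat.dvd_gcd
    · refine Dvd.dvd.mul_left ⟨a, ?_⟩ _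
      have : p.b * p.m = a + a := ha
      omega
    · norm_num
  rw [h] at h3
  norm_num at h3

lemma c_dvd_of_two {a : ℤ} (h : (p.c : ℤ) ∣ 2 * a) : (p.c : ℤ) ∣ a := by
  have h1 : IsCoprime (p.c : ℤ) 2 := by
    rw [Int.isCoprime_iff_gcd_eq_one]
    have := p.odd_c
    exact Nat.Coprime.gcd_eq_one ((Nat.coprime_two_right).mpr this)
  exact h1.dvd_of_dvd_mul_left h

lemma b_dvd_of_two {a : ℤ} (h : (p.b : ℤ) ∣ 2 * a) : (p.b : ℤ) ∣ a := by
  have h1 : IsCoprime (p.b : ℤ) 2 := by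
    rw [Int.isCoprime_iff_gcd_eq_one]
    have := p.odd_b
    exact Nat.Coprime.gcd_eq_one ((Nat.coprime_two_right).mpr this)
  exact h1.dvd_of_dvd_mul_left h

/-- small multiples -/
lemma eq_zero_of_dvd {N : ℕ} {a : ℤ} (h : (N : ℤ) ∣ a) (ha : |a| < N) : a = 0 :=
  Int.eq_zero_of_abs_lt_dvd h ha

lemma e₁_inj {k k' : ℤ} (hk : |k| ≤ 6) (hk' : |k'| ≤ 6) (h : p.e₁ k = p.e₁ k') : k = k' := by
  have h1 := congrArg Prod.fst h
  rw [e₁_fst, e₁_fst, coe_div_eq_iff p.c_pos'] at h1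
  have hc := p.c_ge
  rw [abs_le] at hk hk'
  have h2 := eq_zero_of_dvd h1 (by rw [abs_lt]; constructor <;> omega)
  omega

lemma e₂_inj {k k' : ℤ} (hk : |k| ≤ 4) (hk' : |k'| ≤ 4) (h : p.e₂ k = p.e₂ k') : k = k' := by
  have h1 := congrArg Prod.snd h
  rw [e₂_snd, e₂_snd, coe_div_eq_iff p.b_pos'] at h1
  have hb := p.hb
  rw [abs_le] at hk hk'
  have h2 := eq_zero_of_dvd h1 (by rw [abs_lt]; constructor <;> omega)
  omega

lemma e₁_ne_e₂ {k k' : ℤ} (hk : |k| ≤ 6) (hk0 : k ≠ 0) : p.e₁ k ≠ p.e₂ k' := by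
  intro h
  have h1 := congrArg Prod.fst h
  rw [e₁_fst, e₂_fst, coe_div_eq_zero p.c_pos'] at h1
  have hc := p.c_ge
  rw [abs_le] at hk
  have h2 := eq_zero_of_dvd h1 (by rw [abs_lt]; constructor <;> omega)
  omega

/-- The branch points with positive index. -/
noncomputable def Q : Finset Tor :=
  open Classical in (Finset.Icc (1 : ℤ) 6).image p.e₁ ∪ (Finset.Icc (1 : ℤ) 4).image p.e₂

/-- The branch points. -/
noncomputable def P : Finset Tor :=
  open Classical in ((Finset.Icc (-6 : ℤ) 6).erase 0).image p.e₁ ∪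
    ((Finset.Icc (-4 : ℤ) 4).erase 0).image p.e₂

lemma mem_Q (θ : Tor) : θ ∈ p.Q ↔ (∃ k : ℤ, 1 ≤ k ∧ k ≤ 6 ∧ θ = p.e₁ k) ∨
    (∃ k : ℤ, 1 ≤ k ∧ k ≤ 4 ∧ θ = p.e₂ k) := by
  classical
  rw [Q, Finset.mem_union, Finset.mem_image, Finset.mem_image]
  constructor
  · rintro (⟨k, hk, rfl⟩ | ⟨k, hk, rfl⟩)
    · rw [Finset.mem_Icc] at hk
      exact Or.inl ⟨k, hk.1, hk.2, rfl⟩
    · rw [Finset.mem_Icc] at hk
      exact Or.inr ⟨k, hk.1, hk.2, rfl⟩
  · rintro (⟨k, h1, h2, rfl⟩ | ⟨k, h1, h2, rfl⟩)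
    · exact Or.inl ⟨k, Finset.mem_Icc.mpr ⟨h1, h2⟩, rfl⟩
    · exact Or.inr ⟨k, Finset.mem_Icc.mpr ⟨h1, h2⟩, rfl⟩

lemma mem_P (θ : Tor) : θ ∈ p.P ↔ (∃ k : ℤ, k ≠ 0 ∧ |k| ≤ 6 ∧ θ = p.e₁ k) ∨
    (∃ k : ℤ, k ≠ 0 ∧ |k| ≤ 4 ∧ θ = p.e₂ k) := by
  classical
  rw [P, Finset.mem_union, Finset.mem_image, Finset.mem_image]
  constructor
  · rintro (⟨k, hk, rfl⟩ | ⟨k, hk, rfl⟩)
    · rw [Finset.mem_erase, Finset.mem_Icc] at hk
      exact Or.inl ⟨k, hk.1, abs_le.mpr hk.2, rfl⟩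
    · rw [Finset.mem_erase, Finset.mem_Icc] at hk
      exact Or.inr ⟨k, hk.1, abs_le.mpr hk.2, rfl⟩
  · rintro (⟨k, h1, h2, rfl⟩ | ⟨k, h1, h2, rfl⟩)
    · exact Or.inl ⟨k, Finset.mem_erase.mpr ⟨h1, Finset.mem_Icc.mpr (abs_le.mp h2)⟩, rfl⟩
    · exact Or.inr ⟨k, Finset.mem_erase.mpr ⟨h1, Finset.mem_Icc.mpr (abs_le.mp h2)⟩, rfl⟩

lemma card_Q : p.Q.card = 10 := by
  classical
  rw [Q, Finset.card_union_of_disjoint, Finset.card_image_of_injOn, Finset.card_image_of_injOn]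
  · simp
  · intro a ha b hb hab
    simp only [Finset.coe_Icc, Set.mem_Icc] at ha hb
    exact p.e₂_inj (abs_le.mpr ⟨by omega, by omega⟩) (abs_le.mpr ⟨by omega, by omega⟩) hab
  · intro a ha b hb hab
    simp only [Finset.coe_Icc, Set.mem_Icc] at ha hb
    exact p.e₁_inj (abs_le.mpr ⟨by omega, by omega⟩) (abs_le.mpr ⟨by omega, by omega⟩) hab
  · rw [Finset.disjoint_left]
    intro θ h1 h2
    rw [Finset.mem_image] at h1 h2
    obtain ⟨k, hk, rfl⟩ := h1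
    obtain ⟨k', hk', h⟩ := h2
    rw [Finset.mem_Icc] at hk
    exact p.e₁_ne_e₂ (abs_le.mpr ⟨by omega, by omega⟩) (by omega) h.symm

lemma card_P : p.P.card = 20 := by
  classical
  rw [P, Finset.card_union_of_disjoint, Finset.card_image_of_injOn, Finset.card_image_of_injOn]
  · simp
  · intro a ha b hb hab
    simp only [Finset.coe_erase, Finset.coe_Icc, Set.mem_sdiff, Set.mem_Icc] at ha hb
    exact p.e₂_inj (abs_le.mpr ⟨by omega, by omega⟩) (abs_le.mpr ⟨by omega, by omega⟩) hab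
  · intro a ha b hb hab
    simp only [Finset.coe_erase, Finset.coe_Icc, Set.mem_sdiff, Set.mem_Icc] at ha hb
    exact p.e₁_inj (abs_le.mpr ⟨by omega, by omega⟩) (abs_le.mpr ⟨by omega, by omega⟩) hab
  · rw [Finset.disjoint_left]
    intro θ h1 h2
    rw [Finset.mem_image] at h1 h2
    obtain ⟨k, hk, rfl⟩ := h1
    obtain ⟨k', hk', h⟩ := h2
    rw [Finset.mem_erase, Finset.mem_Icc] at hk
    exact p.e₁_ne_e₂ (abs_le.mpr ⟨by omega, by omega⟩) (by omega) h.symm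

lemma neg_notMem_Q (θ : Tor) (h : θ ∈ p.Q) : -θ ∉ p.Q := by
  rw [mem_Q] at h
  intro h2
  rw [mem_Q] at h2
  rcases h with ⟨k, h1, h3, rfl⟩ | ⟨k, h1, h3, rfl⟩
  · rcases h2 with ⟨k', h4, h5, h6⟩ | ⟨k', h4, h5, h6⟩
    · rw [neg_e₁] at h6
      have := p.e₁_inj (abs_le.mpr ⟨by omega, by omega⟩) (abs_le.mpr ⟨by omega, by omega⟩) h6
      omega
    · rw [neg_e₁] at h6
      exact p.e₁_ne_e₂ (abs_le.mpr ⟨by omega, by omega⟩) (by omega) h6
  · rcases h2 with ⟨k', h4, h5, h6⟩ | ⟨k', h4, h5, h6⟩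
    · rw [neg_e₂] at h6
      exact p.e₁_ne_e₂ (abs_le.mpr ⟨by omega, by omega⟩) (by omega) h6.symm
    · rw [neg_e₂] at h6
      have := p.e₂_inj (abs_le.mpr ⟨by omega, by omega⟩) (abs_le.mpr ⟨by omega, by omega⟩) h6
      omega

lemma mem_P_iff_Q (θ : Tor) : θ ∈ p.P ↔ θ ∈ p.Q ∨ -θ ∈ p.Q := by
  rw [mem_P, mem_Q, mem_Q]
  constructor
  · rintro (⟨k, h1, h2, rfl⟩ | ⟨k, h1, h2, rfl⟩)
    · rw [abs_le] at h2
      rcases lt_or_gt_of_ne h1 with h | h
      · exact Or.inr (Or.inl ⟨-k, by omega, by omega, p.neg_e₁ k⟩)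
      · exact Or.inl (Or.inl ⟨k, by omega, by omega, rfl⟩)
    · rw [abs_le] at h2
      rcases lt_or_gt_of_ne h1 with h | h
      · exact Or.inr (Or.inr ⟨-k, by omega, by omega, p.neg_e₂ k⟩)
      · exact Or.inl (Or.inr ⟨k, by omega, by omega, rfl⟩)
  · rintro ((⟨k, h1, h2, rfl⟩ | ⟨k, h1, h2, rfl⟩) | (⟨k, h1, h2, h3⟩ | ⟨k, h1, h2, h3⟩))
    · exact Or.inl ⟨k, by omega, abs_le.mpr ⟨by omega, by omega⟩, rfl⟩
    · exact Or.inr ⟨k, by omega, abs_le.mpr ⟨by omega, by omega⟩, rfl⟩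
    · refine Or.inl ⟨-k, by omega, abs_le.mpr ⟨by omega, by omega⟩, ?_⟩
      rw [← neg_e₁, ← h3, neg_neg]
    · refine Or.inr ⟨-k, by omega, abs_le.mpr ⟨by omega, by omega⟩, ?_⟩
      rw [← neg_e₂, ← h3, neg_neg]

lemma neg_mem_P {θ : Tor} (h : θ ∈ p.P) : -θ ∈ p.P := by
  rw [mem_P_iff_Q] at h ⊢
  rw [neg_neg]
  exact h.symm

lemma zsmul_e₁ (j k : ℤ) : j • p.e₁ k = p.e₁ (j * k) := by
  apply Prod.ext
  · simp only [Prod.smul_fst, e₁_fst]
    rw [← AddCircle.coe_zsmul, zsmul_eq_mul]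
    congr 1
    push_cast
    ring
  · simp [e₁_snd]

lemma zsmul_e₂ (j k : ℤ) : j • p.e₂ k = p.e₂ (j * k) := by
  apply Prod.ext
  · simp [e₂_fst]
  · simp only [Prod.smul_snd, e₂_snd]
    rw [← AddCircle.coe_zsmul, zsmul_eq_mul]
    congr 1
    push_cast
    ring

lemma e₁_eq_zero_iff (k : ℤ) : p.e₁ k = 0 ↔ (p.c : ℤ) ∣ k := by
  constructor
  · intro h
    have h1 := congrArg Prod.fst h
    rw [e₁_fst] at h1
    apply p.c_dvd_of_two
    exact (coe_div_eq_zero p.c_pos' _).mp h1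
  · intro h
    apply Prod.ext
    · rw [e₁_fst]
      exact (coe_div_eq_zero p.c_pos' _).mpr (Dvd.dvd.mul_left h 2)
    · exact p.e₁_snd k

lemma e₂_eq_zero_iff (k : ℤ) : p.e₂ k = 0 ↔ (p.b : ℤ) ∣ k := by
  constructor
  · intro h
    have h1 := congrArg Prod.snd h
    rw [e₂_snd] at h1
    apply p.b_dvd_of_two
    exact (coe_div_eq_zero p.b_pos' _).mp h1
  · intro h
    apply Prod.ext
    · exact p.e₂_fst k
    · rw [e₂_snd]
      exact (coe_div_eq_zero p.b_pos' _).mpr (Dvd.dvd.mul_left h 2)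

lemma b_smul_e₁_ne {k : ℤ} (hk : |k| ≤ 6) (hk0 : k ≠ 0) : (p.b : ℤ) • p.e₁ k ≠ 0 := by
  rw [zsmul_e₁, ne_eq, e₁_eq_zero_iff]
  rintro ⟨a, ha⟩
  have hb := p.b_pos'
  have hc : (p.c : ℤ) = p.b * p.m := by unfold c; push_cast; ring
  rw [hc] at ha
  have h1 : (p.b : ℤ) * (k - p.m * a) = 0 := by linear_combination ha
  have h2 : k = p.m * a := by
    rcases mul_eq_zero.mp h1 with h | h
    · exfalso; omega
    · linarith
  have hm := p.hm
  have h3 := eq_zero_of_dvd (N := p.m) (a := k) ⟨a, h2⟩ (by rw [abs_le] at hk; rw [abs_lt]; constructor <;> omega)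
  exact hk0 h3

lemma b_smul_e₂ (k : ℤ) : (p.b : ℤ) • p.e₂ k = 0 := by
  rw [zsmul_e₂, e₂_eq_zero_iff]
  exact dvd_mul_right _ _

lemma bc_smul {θ : Tor} (h : θ ∈ p.P) : (p.b * p.c) • θ = 0 := by
  rw [mem_P] at h
  have hz : ((p.b * p.c : ℕ) : ℤ) • θ = 0 := by
    rcases h with ⟨k, -, -, rfl⟩ | ⟨k, -, -, rfl⟩
    · rw [zsmul_e₁, e₁_eq_zero_iff]
      push_cast
      exact ⟨p.b * k, by ring⟩
    · rw [zsmul_e₂, e₂_eq_zero_iff]
      push_cast
      exact ⟨p.c * k, by ring⟩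
  rwa [natCast_zsmul] at hz

lemma act_e₁ (x y z w : ℤ) (k : ℤ) : act x y z w (p.e₁ k) =
    proj (((2 * (x * k) : ℤ) : ℝ) / p.c, ((2 * (z * k) : ℤ) : ℝ) / p.c) := by
  apply Prod.ext
  · simp only [act, e₁_snd, smul_zero, add_zero, e₁_fst, proj]
    rw [← AddCircle.coe_zsmul, zsmul_eq_mul]
    congr 1
    push_cast
    ring
  · simp only [act, e₁_snd, smul_zero, add_zero, e₁_fst, proj]
    rw [← AddCircle.coe_zsmul, zsmul_eq_mul]
    congr 1
    push_cast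
    ring

lemma act_e₂ (x y z w : ℤ) (k : ℤ) : act x y z w (p.e₂ k) =
    proj (((2 * (y * k) : ℤ) : ℝ) / p.b, ((2 * (w * k) : ℤ) : ℝ) / p.b) := by
  apply Prod.ext
  · simp only [act, e₂_fst, smul_zero, zero_add, e₂_snd, proj]
    rw [← AddCircle.coe_zsmul, zsmul_eq_mul]
    congr 1
    push_cast
    ring
  · simp only [act, e₂_fst, smul_zero, zero_add, e₂_snd, proj]
    rw [← AddCircle.coe_zsmul, zsmul_eq_mul]
    congr 1
    push_cast
    ring

lemma act_injective {x y z w : ℤ} (h : x * w - y * z = 1) :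
    Function.Injective (act x y z w) := by
  intro θ θ' hθ
  have key : ∀ θ : Tor, act w (-y) (-z) x (act x y z w θ) = θ := by
    intro θ
    apply Prod.ext
    · simp only [act, smul_add, smul_smul]
      have e1 : (w * x) • θ.1 + (w * y) • θ.2 + ((-y * z) • θ.1 + (-y * w) • θ.2) =
          (x * w - y * z) • θ.1 + (w * y + (-y * w)) • θ.2 := by
        rw [sub_smul, add_smul, mul_comm x w, neg_mul, neg_mul, neg_smul, neg_smul]
        abel
      rw [e1, h]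
      simp [mul_comm]
    · simp only [act, smul_add, smul_smul]
      have e1 : (-z * x) • θ.1 + (-z * y) • θ.2 + ((x * z) • θ.1 + (x * w) • θ.2) =
          (x * w - y * z) • θ.2 + (-z * x + x * z) • θ.1 := by
        rw [sub_smul, add_smul, mul_comm y z, neg_mul, neg_mul, neg_smul, neg_smul]
        abel
      rw [e1, h]
      simp [mul_comm]
  rw [← key θ, hθ, key θ']

/-- the endomorphism as a homomorphism -/
def actHom (x y z w : ℤ) : Tor →+ Tor where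
  toFun := act x y z w
  map_zero' := act_zero x y z w
  map_add' := act_add x y z w

/-- An affine map preserving a symmetric finite set of torsion points has trivial translation
part, if the orders are coprime to twice the cardinality. -/
lemma trans_zero {G : Type*} [AddCommGroup G] (A : G →+ G) (P : Finset G) (N : ℕ)
    (hinj : Function.Injective A) (hneg : ∀ θ ∈ P, -θ ∈ P) (θ₀ : G) (h : ∀ θ ∈ P, A θ + θ₀ ∈ P)
    (hN : ∀ θ ∈ P, N • θ = 0) (hne : P.Nonempty) (hcop : Nat.Coprime N (P.card + P.card)) :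
    θ₀ = 0 := by
  classical
  have h1 : P.image (fun θ => A θ + θ₀) = P := by
    apply Finset.eq_of_subset_of_card_le
    · intro θ hθ
      rw [Finset.mem_image] at hθ
      obtain ⟨θ', hθ', rfl⟩ := hθ
      exact h θ' hθ'
    · rw [Finset.card_image_of_injective]
      intro a b hab
      exact hinj (add_right_cancel hab)
  have h2 : ∑ θ ∈ P, (A θ + θ₀) = ∑ θ ∈ P, θ := by
    conv_rhs => rw [← h1]
    rw [Finset.sum_image]
    intro a _ b _ hab
    exact hinj (add_right_cancel hab)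
  rw [Finset.sum_add_distrib, Finset.sum_const, ← map_sum] at h2
  have h3 : (∑ θ ∈ P, θ) + (∑ θ ∈ P, θ) = 0 := by
    have : ∑ θ ∈ P, θ = ∑ θ ∈ P, -θ := by
      apply Finset.sum_nbij' (fun θ => -θ) (fun θ => -θ)
      · intro a ha; exact hneg a ha
      · intro a ha; exact hneg a ha
      · intro a _; exact neg_neg a
      · intro a _; exact neg_neg a
      · intro a _; exact (neg_neg a).symm
    nth_rewrite 2 [this]
    rw [Finset.sum_neg_distrib, add_neg_cancel]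
  generalize (∑ θ ∈ P, θ) = s at h2 h3
  have h4 : (P.card + P.card) • θ₀ = 0 := by
    have e : P.card • θ₀ = s - A s := eq_sub_of_add_eq' h2
    rw [add_nsmul, e]
    have e2 : s - A s + (s - A s) = (s + s) - (A s + A s) := by abel
    rw [e2, h3, ← map_add, h3, map_zero, sub_zero]
  have h5 : N • θ₀ = 0 := by
    obtain ⟨θ, hθ⟩ := hne
    have h6 := hN _ (h _ hθ)
    rwa [smul_add, ← map_nsmul, hN _ hθ, map_zero, zero_add] at h6
  have d1 := addOrderOf_dvd_of_nsmul_eq_zero h4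
  have d2 := addOrderOf_dvd_of_nsmul_eq_zero h5
  have d3 : addOrderOf θ₀ ∣ Nat.gcd N (P.card + P.card) := Nat.dvd_gcd d2 d1
  rw [hcop, Nat.dvd_one] at d3
  exact AddMonoid.addOrderOf_eq_one_iff.mp d3

/-- An affine map of the torus preserving the branch points is linear and satisfies the
congruence conditions. -/
lemma cong_of_preserves {x y z w : ℤ} (hdet : x * w - y * z = 1) {θ₀ : Tor}
    (h : ∀ θ ∈ p.P, act x y z w θ + θ₀ ∈ p.P) :
    ∃ ε : ℤ, (ε = 1 ∨ ε = -1) ∧ p.Cong ε x y z w := by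
  classical
  have hinj := act_injective hdet
  -- the translation part vanishes
  have h6 : θ₀ = 0 := by
    apply trans_zero (actHom x y z w) p.P (p.b * p.c) hinj (fun θ hθ => p.neg_mem_P hθ) θ₀ h
    · intro θ hθ
      exact p.bc_smul hθ
    · refine ⟨p.e₁ 1, ?_⟩
      rw [mem_P]
      exact Or.inl ⟨1, by norm_num, by norm_num, rfl⟩
    · rw [p.card_P]
      exact p.cop
  have h7 : ∀ θ ∈ p.P, act x y z w θ ∈ p.P := by
    intro θ hθ
    have := h θ hθ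
    rwa [h6, add_zero] at this
  -- points of the second kind
  have hsecond : ∀ k : ℤ, k ≠ 0 → |k| ≤ 4 → ∃ k' : ℤ, k' ≠ 0 ∧ |k'| ≤ 4 ∧
      act x y z w (p.e₂ k) = p.e₂ k' := by
    intro k hk0 hk
    have hm := h7 (p.e₂ k) ((p.mem_P _).mpr (Or.inr ⟨k, hk0, hk, rfl⟩))
    rw [mem_P] at hm
    rcases hm with ⟨k', a1, a2, a3⟩ | ⟨k', a1, a2, a3⟩
    · exfalso
      apply p.b_smul_e₁_ne a2 a1
      rw [← a3, ← act_zsmul, b_smul_e₂, act_zero]
    · exact ⟨k', a1, a2, a3⟩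
  have hfirst : ∀ k : ℤ, k ≠ 0 → |k| ≤ 6 → ∃ k' : ℤ, k' ≠ 0 ∧ |k'| ≤ 6 ∧
      act x y z w (p.e₁ k) = p.e₁ k' := by
    intro k hk0 hk
    have hm := h7 (p.e₁ k) ((p.mem_P _).mpr (Or.inl ⟨k, hk0, hk, rfl⟩))
    rw [mem_P] at hm
    rcases hm with ⟨k', a1, a2, a3⟩ | ⟨k', a1, a2, a3⟩
    · exact ⟨k', a1, a2, a3⟩
    · exfalso
      apply p.b_smul_e₁_ne hk hk0
      apply hinj
      rw [act_zero, act_zsmul, a3, b_smul_e₂]
  obtain ⟨u, hu0, hu, hu2⟩ := hsecond 1 (by norm_num) (by norm_num)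
  obtain ⟨u', hu'0, hu', hu'2⟩ := hsecond 4 (by norm_num) (by norm_num)
  obtain ⟨v, hv0, hv, hv2⟩ := hfirst 1 (by norm_num) (by norm_num)
  obtain ⟨v', hv'0, hv', hv'2⟩ := hfirst 6 (by norm_num) (by norm_num)
  have hb := p.hb
  have hc := p.c_ge
  -- multiples
  have m1 : (p.b : ℤ) ∣ 4 * u - u' := by
    have : p.e₂ (4 * u) = p.e₂ u' := by
      rw [← zsmul_e₂, ← hu2, ← act_zsmul, zsmul_e₂, ← hu'2, mul_one]
    have h8 : p.e₂ (4 * u - u') = 0 := by
      have e : p.e₂ (4 * u - u') = p.e₂ (4 * u) - p.e₂ u' := by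
        apply Prod.ext
        · simp [e₂_fst]
        · simp only [Prod.snd_sub, e₂_snd]
          rw [← AddCircle.coe_sub]
          congr 1
          push_cast
          ring
      rw [e, this, sub_self]
    exact (p.e₂_eq_zero_iff _).mp h8
  have m2 : (p.c : ℤ) ∣ 6 * v - v' := by
    have : p.e₁ (6 * v) = p.e₁ v' := by
      rw [← zsmul_e₁, ← hv2, ← act_zsmul, zsmul_e₁, ← hv'2, mul_one]
    have h8 : p.e₁ (6 * v - v') = 0 := by
      have e : p.e₁ (6 * v - v') = p.e₁ (6 * v) - p.e₁ v' := by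
        apply Prod.ext
        · simp only [Prod.fst_sub, e₁_fst]
          rw [← AddCircle.coe_sub]
          congr 1
          push_cast
          ring
        · simp [e₁_snd]
      rw [e, this, sub_self]
    exact (p.e₁_eq_zero_iff _).mp h8
  rw [abs_le] at hu hu' hv hv'
  have n1 : 4 * u - u' = 0 := eq_zero_of_dvd m1 (by rw [abs_lt]; constructor <;> omega)
  have n2 : 6 * v - v' = 0 := eq_zero_of_dvd m2 (by rw [abs_lt]; constructor <;> omega)
  have hu1 : u = 1 ∨ u = -1 := by omega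
  have hv1 : v = 1 ∨ v = -1 := by omega
  -- congruences
  rw [act_e₂] at hu2
  rw [act_e₁] at hv2
  have c1 := congrArg Prod.fst hu2
  have c2 := congrArg Prod.snd hu2
  have c3 := congrArg Prod.fst hv2
  have c4 := congrArg Prod.snd hv2
  simp only [e₂_fst, e₂_snd, e₁_fst, e₁_snd, mul_one] at c1 c2 c3 c4
  have d1 : (p.b : ℤ) ∣ y := p.b_dvd_of_two ((coe_div_eq_zero p.b_pos' _).mp c1)
  have d2 : (p.b : ℤ) ∣ w - u := by
    apply p.b_dvd_of_two
    have := (coe_div_eq_iff p.b_pos' _ _).mp c2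
    rwa [← mul_sub] at this
  have d3 : (p.c : ℤ) ∣ x - v := by
    apply p.c_dvd_of_two
    have := (coe_div_eq_iff p.c_pos' _ _).mp c3
    rwa [← mul_sub] at this
  have d4 : (p.c : ℤ) ∣ z := p.c_dvd_of_two ((coe_div_eq_zero p.c_pos' _).mp c4)
  have huv : u = v := by
    obtain ⟨k1, hk1⟩ := d1
    obtain ⟨k2, hk2⟩ := d2
    obtain ⟨k3, hk3⟩ := p.b_dvd_c.trans d3
    have hw : w = u + p.b * k2 := by linarith
    have hx : x = v + p.b * k3 := by linarith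
    have : (p.b : ℤ) ∣ 1 - u * v := by
      refine ⟨v * k2 + u * k3 + p.b * k2 * k3 - k1 * z, ?_⟩
      rw [hw, hx, hk1] at hdet
      linear_combination (-1 : ℤ) * hdet
    have h9 := eq_zero_of_dvd this (by
      rcases hu1 with rfl | rfl <;> rcases hv1 with rfl | rfl <;> rw [abs_lt] <;>
        constructor <;> omega)
    rcases hu1 with rfl | rfl <;> rcases hv1 with rfl | rfl <;> omega
  refine ⟨v, hv1, hdet, d3, d4, d1, ?_⟩
  rw [← huv]
  exact d2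

end Par

end Pool.Agent.SimpleSpectrum
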