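import Pool.Agent.SimpleSpectrum.Torus

/-!
Homeomorphisms of the circle given by lifts.
-/

set_option autoImplicit false

open Filter Topology

namespace Pool.Agent.SimpleSpectrum

lemma isOpenQuotientMap_coe : IsOpenQuotientMap ((↑) : ℝ → UnitAddCircle) :=
  QuotientAddGroup.isOpenQuotientMap_mk

/-- Lifts of orientation preserving circle homeomorphisms. -/
structure CircLift where
  g : ℝ ≃ₜ ℝ
  map_add_one : ∀ x, g (x + 1) = g x + 1

namespace CircLift

lemma map_add_nat (γ : CircLift) (x : ℝ) (n : ℕ) : γ.g (x + n) = γ.g x + n := by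
  induction n with
  | zero => simp
  | succ n ih =>
    push_cast
    rw [← add_assoc, γ.map_add_one, ih, add_assoc]

lemma map_add_int (γ : CircLift) (x : ℝ) (n : ℤ) : γ.g (x + n) = γ.g x + n := by
  obtain ⟨m, rfl | rfl⟩ := n.eq_nat_or_neg
  · exact_mod_cast γ.map_add_nat x m
  · have h := γ.map_add_nat (x + ((-m : ℤ) : ℝ)) m
    push_cast at h ⊢
    rw [neg_add_cancel_right] at h
    linarith

/-- The inverse lift. -/
def symm (γ : CircLift) : CircLift where
  g := γ.g.symm
  map_add_one := by
    intro x
    apply γ.g.injective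
    rw [γ.map_add_one, Homeomorph.apply_symm_apply, Homeomorph.apply_symm_apply]

/-- The induced map. -/
def map (γ : CircLift) : UnitAddCircle → UnitAddCircle :=
  Function.Periodic.lift (f := fun x : ℝ => ((γ.g x : ℝ) : UnitAddCircle)) (c := (1 : ℝ)) (by
    intro x
    simp only [γ.map_add_one, AddCircle.coe_add]
    rw [AddCircle.coe_period, add_zero])

lemma map_coe (γ : CircLift) (x : ℝ) : γ.map (x : UnitAddCircle) = ((γ.g x : ℝ) : UnitAddCircle) :=
  rfl

lemma continuous_map (γ : CircLift) : Continuous γ.map := by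
  rw [isOpenQuotientMap_coe.isQuotientMap.continuous_iff]
  exact (AddCircle.continuous_mk' _).comp γ.g.continuous

/-- The induced homeomorphism. -/
def homeo (γ : CircLift) : UnitAddCircle ≃ₜ UnitAddCircle where
  toFun := γ.map
  invFun := γ.symm.map
  left_inv := by
    intro x
    obtain ⟨x, rfl⟩ := QuotientAddGroup.mk_surjective x
    show γ.symm.map (γ.map ((x : ℝ) : UnitAddCircle)) = _
    rw [map_coe, map_coe]
    simp [symm]
  right_inv := by
    intro x
    obtain ⟨x, rfl⟩ := QuotientAddGroup.mk_surjective x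
    show γ.map (γ.symm.map ((x : ℝ) : UnitAddCircle)) = _
    rw [map_coe, map_coe]
    simp [symm]
  continuous_toFun := γ.continuous_map
  continuous_invFun := γ.symm.continuous_map

lemma homeo_coe (γ : CircLift) (x : ℝ) :
    γ.homeo (x : UnitAddCircle) = ((γ.g x : ℝ) : UnitAddCircle) := rfl

lemma homeo_symm_coe (γ : CircLift) (x : ℝ) :
    γ.homeo.symm (x : UnitAddCircle) = ((γ.g.symm x : ℝ) : UnitAddCircle) := rfl

/-- Displacement of the conjugate of a translation. -/
def disp (γ : CircLift) (q : UnitAddCircle × ℝ) : ℝ :=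
  Function.Periodic.lift (f := fun x : ℝ => γ.g.symm (γ.g x + q.2) - x) (c := (1 : ℝ)) (by
    intro x
    simp only [γ.map_add_one]
    have h := γ.symm.map_add_one (γ.g x + q.2)
    have h2 : γ.g.symm (γ.g x + q.2 + 1) = γ.g.symm (γ.g x + q.2) + 1 := h
    rw [add_right_comm, h2]
    ring) q.1

lemma disp_coe (γ : CircLift) (x s : ℝ) :
    γ.disp ((x : UnitAddCircle), s) = γ.g.symm (γ.g x + s) - x := rfl

lemma continuous_disp (γ : CircLift) : Continuous γ.disp := by
  have h : IsOpenQuotientMap (Prod.map ((↑) : ℝ → UnitAddCircle) (id : ℝ → ℝ)) :=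
    isOpenQuotientMap_coe.prodMap .id
  rw [h.isQuotientMap.continuous_iff]
  have h2 : γ.disp ∘ (Prod.map ((↑) : ℝ → UnitAddCircle) (id : ℝ → ℝ)) =
      fun q => γ.g.symm (γ.g q.1 + q.2) - q.1 := by
    funext q
    exact γ.disp_coe q.1 q.2
  rw [h2]
  have h3 := γ.g.continuous
  have h4 := γ.g.symm.continuous
  fun_prop

lemma disp_int (γ : CircLift) (x : UnitAddCircle) (n : ℤ) : γ.disp (x, (n : ℝ)) = n := by
  obtain ⟨x, rfl⟩ := QuotientAddGroup.mk_surjective x
  show γ.disp (((x : ℝ) : UnitAddCircle), (n : ℝ)) = n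
  rw [disp_coe]
  have h := γ.symm.map_add_int (γ.g x) n
  have h2 : γ.g.symm (γ.g x + n) = γ.g.symm (γ.g x) + n := h
  rw [h2]
  simp

/-- The displacement computes the conjugate of the translation. -/
lemma homeo_symm_add (γ : CircLift) (x : UnitAddCircle) (s : ℝ) :
    γ.homeo.symm (γ.homeo x + (s : UnitAddCircle)) = x + (γ.disp (x, s) : ℝ) := by
  obtain ⟨x, rfl⟩ := QuotientAddGroup.mk_surjective x
  show γ.homeo.symm (γ.homeo ((x : ℝ) : UnitAddCircle) + (s : UnitAddCircle)) =
    ((x : ℝ) : UnitAddCircle) + (γ.disp (((x : ℝ) : UnitAddCircle), s) : ℝ)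
  rw [homeo_coe, ← AddCircle.coe_add, homeo_symm_coe, disp_coe, ← AddCircle.coe_add]
  congr 1
  ring

end CircLift

/-! ### An explicit family -/

/-- The clamp function. -/
noncomputable def clampFn (t : ℝ) : ℝ := max 0 (min 1 (25 * t - 12))

lemma clampFn_mono : Monotone clampFn := by
  intro a b h
  unfold clampFn
  apply max_le_max le_rfl
  apply min_le_min le_rfl
  linarith

lemma clampFn_zero : clampFn 0 = 0 := by
  unfold clampFn
  norm_num

lemma clampFn_nonneg (t : ℝ) : 0 ≤ clampFn t := le_max_left _ _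

lemma clampFn_le (t : ℝ) : clampFn t ≤ 1 := max_le zero_le_one (min_le_left _ _)

lemma clampFn_low {t : ℝ} (h : t ≤ 12 / 25) : clampFn t = 0 := by
  unfold clampFn
  apply max_eq_left
  apply (min_le_right _ _).trans
  linarith

lemma clampFn_high {t : ℝ} (h : 13 / 25 ≤ t) : clampFn t = 1 := by
  unfold clampFn
  rw [min_eq_left (by linarith)]
  norm_num

/-- A continuous step function. -/
noncomputable def stepFn (x : ℝ) : ℝ := ⌊x⌋ + clampFn (Int.fract x)

lemma stepFn_add_one (x : ℝ) : stepFn (x + 1) = stepFn x + 1 := by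
  unfold stepFn
  rw [Int.floor_add_one, Int.fract_add_one]
  push_cast
  ring

lemma stepFn_mono : Monotone stepFn := by
  intro x y h
  unfold stepFn
  rcases (Int.floor_mono h).lt_or_eq with h1 | h1
  · have h2 : (⌊x⌋ : ℝ) + 1 ≤ ⌊y⌋ := by exact_mod_cast h1
    have := clampFn_le (Int.fract x)
    have := clampFn_nonneg (Int.fract y)
    linarith
  · rw [h1]
    apply add_le_add le_rfl
    apply clampFn_mono
    unfold Int.fract
    rw [h1]
    linarith

lemma continuous_stepFn : Continuous stepFn := by
  have h1 : Continuous ((fun t => clampFn t - t) ∘ Int.fract : ℝ → ℝ) := by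
    apply ContinuousOn.comp_fract''
    · unfold clampFn
      fun_prop
    · rw [clampFn_zero, clampFn_high (by norm_num)]
      norm_num
  have h2 : stepFn = fun x => x + ((fun t => clampFn t - t) ∘ Int.fract) x := by
    funext x
    unfold stepFn
    simp only [Function.comp_apply]
    have := Int.floor_add_fract x
    linarith
  rw [h2]
  exact continuous_id.add h1

lemma stepFn_bounds (x : ℝ) : x - 1 ≤ stepFn x ∧ stepFn x ≤ x + 1 := by
  unfold stepFn
  have h1 := Int.floor_add_fract x
  have h2 := Int.fract_nonneg x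
  have h3 := (Int.fract_lt_one x).le
  have h4 := clampFn_le (Int.fract x)
  have h5 := clampFn_nonneg (Int.fract x)
  constructor <;> linarith

lemma stepFn_zero {x : ℝ} (h : |x| ≤ 12 / 25) : stepFn x = 0 := by
  rw [abs_le] at h
  unfold stepFn
  rcases le_or_gt 0 x with h0 | h0
  · have h1 : ⌊x⌋ = 0 := by
      rw [Int.floor_eq_iff]
      constructor
      · simpa using h0
      · simp; linarith
    have h2 : Int.fract x = x := by
      rw [Int.fract, h1]
      simp
    rw [h1, h2, clampFn_low h.2]
    simp
  · have h1 : ⌊x⌋ = -1 := by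
      rw [Int.floor_eq_iff]
      constructor
      · push_cast; linarith
      · push_cast; linarith
    have h2 : Int.fract x = x + 1 := by
      rw [Int.fract, h1]
      push_cast
      ring
    rw [h1, h2, clampFn_high (by linarith)]
    norm_num

/-- The circle homeomorphism which is linear with factor `κ` on `[-12/25, 12/25]`. -/
noncomputable def linFn (κ : ℝ) (x : ℝ) : ℝ := κ * x + (1 - κ) * stepFn x

/-- Its lift. -/
noncomputable def linCirc (κ : ℝ) (h0 : 0 < κ) (h1 : κ < 1) : CircLift where
  g := by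
    have hmono : StrictMono (linFn κ) := by
      intro x y hxy
      unfold linFn
      have h2 : stepFn x ≤ stepFn y := stepFn_mono hxy.le
      have h3 : κ * x < κ * y := mul_lt_mul_of_pos_left hxy h0
      have h4 : (1 - κ) * stepFn x ≤ (1 - κ) * stepFn y :=
        mul_le_mul_of_nonneg_left h2 (by linarith)
      linarith
    have hcont : Continuous (linFn κ) := by
      unfold linFn
      have := continuous_stepFn
      fun_prop
    have hb1 : ∀ x, x - 1 ≤ linFn κ x := by
      intro x
      unfold linFn
      have h2 := (stepFn_bounds x).1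
      nlinarith
    have hb2 : ∀ x, linFn κ x ≤ x + 1 := by
      intro x
      unfold linFn
      have h2 := (stepFn_bounds x).2
      nlinarith
    have hsurj : Function.Surjective (linFn κ) := by
      apply hcont.surjective
      · exact tendsto_atTop_mono hb1 (tendsto_atTop_add_const_right _ (-1) tendsto_id)
      · exact tendsto_atBot_mono hb2 (tendsto_atBot_add_const_right _ 1 tendsto_id)
    exact (hmono.orderIsoOfSurjective _ hsurj).toHomeomorph
  map_add_one := by
    intro x
    show linFn κ (x + 1) = linFn κ x + 1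
    unfold linFn
    rw [stepFn_add_one]
    ring

lemma linCirc_g (κ : ℝ) (h0 : 0 < κ) (h1 : κ < 1) (x : ℝ) :
    (linCirc κ h0 h1).g x = linFn κ x := rfl

lemma linCirc_linear (κ : ℝ) (h0 : 0 < κ) (h1 : κ < 1) {x : ℝ} (h : |x| ≤ 12 / 25) :
    (linCirc κ h0 h1).g x = κ * x := by
  rw [linCirc_g, linFn, stepFn_zero h]
  ring

end Pool.Agent.SimpleSpectrum
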