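import Pool.Agent.SimpleSpectrum.Surface

/-!
The geodesic through the half-translation surface of a pseudo-Anosov map is closed.
-/

set_option autoImplicit false

open Filter Topology

namespace Pool.Agent.SimpleSpectrum

namespace HalfTranslation

variable {S : Type} [TopologicalSpace S]

/-- affine maps with diagonal derivative -/
structure IsAffine (H : HalfTranslation S) (f : S ≃ₜ S) (r : ℝ) : Prop where
  sing_iff : ∀ p, f p ∈ H.sing ↔ p ∈ H.sing
  affine : ∀ ζ ∈ H.charts, ∀ ξ ∈ H.charts, ∀ p ∈ ζ.source, f p ∈ ξ.source →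
    ∃ ε c : ℂ, (ε = 1 ∨ ε = -1) ∧ ∀ᶠ x in 𝓝 p, ξ (f x) = ε * stretch r (ζ x) + c

lemma stretch_sign (s : ℝ) {ε : ℂ} (hε : ε = 1 ∨ ε = -1) (z : ℂ) :
    stretch s (ε * z) = ε * stretch s z := by
  rcases hε with rfl | rfl
  · simp
  · rw [neg_one_mul, neg_one_mul, stretch_neg]

lemma isAffine_refl (H : HalfTranslation S) : H.IsAffine (Homeomorph.refl S) 0 where
  sing_iff := fun p => Iff.rfl
  affine := by
    intro ζ hζ ξ hξ p hp hp'
    obtain ⟨ε, c, hε, h⟩ := H.compat ζ hζ ξ hξ p hp hp'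
    refine ⟨ε, c, hε, ?_⟩
    filter_upwards [h] with x hx
    rw [stretch_zero]
    exact hx

lemma IsAffine.trans {H : HalfTranslation S} {f f' : S ≃ₜ S} {t t' : ℝ} (h : H.IsAffine f t)
    (h' : H.IsAffine f' t') : H.IsAffine (f.trans f') (t + t') where
  sing_iff := fun p => (h'.sing_iff (f p)).trans (h.sing_iff p)
  affine := by
    intro ζ hζ ξ hξ p hp hp'
    have hns : f p ∉ H.sing := by
      rw [h.sing_iff]
      exact H.regular ζ hζ p hp
    obtain ⟨η, hη, hfη⟩ := H.cover (f p) hns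
    obtain ⟨ε, c, hε, h1⟩ := h.affine ζ hζ η hη p hp hfη
    obtain ⟨ε', c', hε', h2⟩ := h'.affine η hη ξ hξ (f p) hfη hp'
    refine ⟨ε' * ε, ε' * stretch t' c + c', ?_, ?_⟩
    · rcases hε with rfl | rfl <;> rcases hε' with rfl | rfl <;> simp
    · filter_upwards [h1, f.continuous.continuousAt.eventually h2] with x hx1 hx2
      show ξ (f' (f x)) = _
      rw [hx2, hx1, stretch_add, stretch_sign t' hε, stretch_stretch, add_comm t' t]
      ring

lemma IsAffine.symm {H : HalfTranslation S} {f : S ≃ₜ S} {t : ℝ} (h : H.IsAffine f t) :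
    H.IsAffine f.symm (-t) where
  sing_iff := by
    intro p
    have := h.sing_iff (f.symm p)
    rw [Homeomorph.apply_symm_apply] at this
    exact this.symm
  affine := by
    intro ζ hζ ξ hξ p hp hp'
    obtain ⟨ε, c, hε, h1⟩ := h.affine ξ hξ ζ hζ (f.symm p) hp' (by simpa using hp)
    refine ⟨ε, -(ε * stretch (-t) c), hε, ?_⟩
    filter_upwards [f.symm.continuous.continuousAt.eventually h1] with x hx
    rw [Homeomorph.apply_symm_apply] at hx
    have hεε : ε * ε = 1 := by rcases hε with rfl | rfl <;> norm_num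
    rw [hx, stretch_add, stretch_sign (-t) hε, stretch_neg_stretch]
    linear_combination (-ξ (f.symm x)) * hεε

/-- An affine map is conformal between the deformed surfaces. -/
lemma IsAffine.conformal {H : HalfTranslation S} {f : S ≃ₜ S} {t : ℝ} (h : H.IsAffine f t)
    (s : ℝ) : H.IsConformal s (s - t) f := by
  intro ζ hζ ξ hξ p hp hp'
  obtain ⟨ε, c, hε, h1⟩ := h.affine ζ hζ ξ hξ p hp hp'
  have hcont : ContinuousAt (fun z => ζ.symm (stretch (-s) z)) (stretch s (ζ p)) := by
    have h2 : stretch (-s) (stretch s (ζ p)) ∈ ζ.target := by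
      rw [stretch_neg_stretch]
      exact ζ.map_source hp
    exact ContinuousAt.comp (f := stretch (-s)) (ζ.continuousAt_symm h2)
      (continuous_stretch (-s)).continuousAt
  have hp0 : (fun z => ζ.symm (stretch (-s) z)) (stretch s (ζ p)) = p := by
    simp only [stretch_neg_stretch]
    exact ζ.left_inv hp
  have h2 : ∀ᶠ z in 𝓝 (stretch s (ζ p)), ξ (f (ζ.symm (stretch (-s) z))) =
      ε * stretch t (ζ (ζ.symm (stretch (-s) z))) + c := by
    apply hcont.eventually (p := fun x => ξ (f x) = ε * stretch t (ζ x) + c)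
    rw [hp0]
    exact h1
  have h3 : ∀ᶠ z in 𝓝 (stretch s (ζ p)), stretch (-s) z ∈ ζ.target := by
    apply (continuous_stretch (-s)).continuousAt.eventually (ζ.open_target.mem_nhds _)
    rw [stretch_neg_stretch]
    exact ζ.map_source hp
  have h4 : DifferentiableAt ℂ (fun z : ℂ => ε * z + stretch (s - t) c) (stretch s (ζ p)) := by
    fun_prop
  apply h4.congr_of_eventuallyEq
  filter_upwards [h2, h3] with z hz1 hz2
  rw [hz1, ζ.right_inv hz2, stretch_add, stretch_sign (s - t) hε, stretch_stretch, stretch_stretch]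
  have : s - t + t + -s = 0 := by ring
  rw [this, stretch_zero]

/-- All powers of an affine map are affine. -/
lemma IsAffine.zpow {H : HalfTranslation S} {f : S ≃ₜ S} {t : ℝ} (h : H.IsAffine f t) (n : ℤ) :
    ∃ F : S ≃ₜ S, H.IsAffine F (n * t) := by
  induction n using Int.induction_on with
  | zero => exact ⟨Homeomorph.refl S, by simpa using H.isAffine_refl⟩
  | succ i ih =>
    obtain ⟨F, hF⟩ := ih
    refine ⟨F.trans f, ?_⟩
    have := hF.trans h
    have e : ((i : ℤ) : ℝ) * t + t = (((i : ℤ) + 1 : ℤ) : ℝ) * t := by push_cast; ring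
    rwa [e] at this
  | pred i ih =>
    obtain ⟨F, hF⟩ := ih
    refine ⟨F.trans f.symm, ?_⟩
    have := hF.trans h.symm
    have e : ((-(i : ℤ) : ℤ) : ℝ) * t + -t = ((-(i : ℤ) - 1 : ℤ) : ℝ) * t := by push_cast; ring
    rwa [e] at this

lemma IsPseudoAnosov.isAffine {H : HalfTranslation S} {f : S ≃ₜ S} {r : ℝ}
    (h : H.IsPseudoAnosov f r) : H.IsAffine f r where
  sing_iff := h.sing_iff
  affine := h.affine

/-- The geodesic is closed. -/
lemma IsPseudoAnosov.sameModuli {H : HalfTranslation S} {f : S ≃ₜ S} {r : ℝ}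
    (h : H.IsPseudoAnosov f r) (s t : ℝ) (hst : ∃ n : ℤ, t - s = n * r) : H.SameModuli s t := by
  obtain ⟨n, hn⟩ := hst
  obtain ⟨F, hF⟩ := h.isAffine.zpow (-n)
  have h1 := hF.conformal s
  have h2 := hF.symm.conformal t
  have e1 : s - ((-n : ℤ) : ℝ) * r = t := by push_cast; linarith
  have e2 : t - -(((-n : ℤ) : ℝ) * r) = s := by push_cast; linarith
  rw [e1] at h1
  rw [e2] at h2
  exact ⟨F, h1, h2⟩

end HalfTranslation

end Pool.Agent.SimpleSpectrum
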