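import Pool.Agent.SimpleSpectrum.SG

/-!
Coordinates near the branch points of the double cover `Y^2 = G`.
-/

set_option autoImplicit false

open Filter Topology ComplexConjugate

namespace Pool.Agent.SimpleSpectrum

/-- principal square root -/
noncomputable def csqrt (z : ℂ) : ℂ := Complex.exp (Complex.log z / 2)

lemma csqrt_sq {z : ℂ} (hz : z ≠ 0) : csqrt z ^ 2 = z := by
  rw [csqrt, ← Complex.exp_nat_mul]
  have : ((2 : ℕ) : ℂ) * (Complex.log z / 2) = Complex.log z := by push_cast; ring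
  rw [this, Complex.exp_log hz]

lemma csqrt_ne (z : ℂ) : csqrt z ≠ 0 := Complex.exp_ne_zero _

lemma continuousAt_csqrt {z : ℂ} (hz : z ∈ Complex.slitPlane) : ContinuousAt csqrt z := by
  unfold csqrt
  exact ((continuousAt_clog hz).div_const 2).cexp

lemma csqrt_one : csqrt 1 = 1 := by
  simp [csqrt]

/-- Square root of `ζ / g` or of `conj ζ / g` for a function `g` with invertible real
derivative. -/
lemma exists_cone_sqrt (g : ℂ → ℂ) (T : ℂ →L[ℝ] ℂ) (hT : Function.Injective T)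
    (hder : HasFDerivAt g T 0) (h0 : g 0 = 0) (hg : Continuous g) :
    ∃ r > 0, ∃ k : ℂ → ℂ, (∀ ζ, ζ ≠ 0 → ‖ζ‖ < r → ContinuousAt k ζ) ∧
      ((∀ ζ, ζ ≠ 0 → ‖ζ‖ < r → k ζ ^ 2 * g ζ = ζ) ∨
        (∀ ζ, ζ ≠ 0 → ‖ζ‖ < r → k ζ ^ 2 * g ζ = conj ζ)) := by
  set c₁ : ℂ := (T 1 - Complex.I * T Complex.I) / 2 with hc₁
  set c₂ : ℂ := (T 1 + Complex.I * T Complex.I) / 2 with hc₂
  have hTform : ∀ ζ, T ζ = c₁ * ζ + c₂ * conj ζ := by
    intro ζ
    have h1 : ζ = ζ.re • (1 : ℂ) + ζ.im • Complex.I := by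
      simp only [Complex.real_smul, mul_one]
      exact (Complex.re_add_im ζ).symm
    have h2 : conj ζ = ζ.re - ζ.im * Complex.I := by
      apply Complex.ext <;> simp
    have h3 : (ζ : ℂ) = ζ.re + ζ.im * Complex.I := (Complex.re_add_im ζ).symm
    conv_lhs => rw [h1]
    rw [map_add, map_smul, map_smul, h2]
    nth_rewrite 3 [h3]
    simp only [Complex.real_smul]
    rw [hc₁, hc₂]
    linear_combination ((ζ.im : ℂ) * T Complex.I) * Complex.I_sq
  -- the two moduli are different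
  have hne : ‖c₁‖ ≠ ‖c₂‖ := by
    intro heq
    obtain ⟨ζ, hζ⟩ := IsAlgClosed.exists_pow_nat_eq (-c₂ * conj c₁) (n := 2) (by norm_num)
    by_cases hc0 : c₁ = 0
    · have hc0' : c₂ = 0 := by
        rw [hc0, norm_zero] at heq
        exact norm_eq_zero.mp heq.symm
      have h1 : T 1 = T 0 := by
        rw [hTform, hTform, hc0, hc0']
        simp
      exact one_ne_zero (hT h1)
    · have hζn : ‖ζ‖ ^ 2 = ‖c₁‖ ^ 2 := by
        rw [← norm_pow, hζ, norm_mul, norm_neg, Complex.norm_conj, ← heq]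
        ring
      have hζ0 : ζ ≠ 0 := by
        intro h
        rw [h, norm_zero] at hζn
        have h2 : 0 < ‖c₁‖ := norm_pos_iff.mpr hc0
        nlinarith
      have h1 : (c₁ * ζ + c₂ * conj ζ) * ζ = 0 := by
        have e1 : conj ζ * ζ = ((‖ζ‖ ^ 2 : ℝ) : ℂ) := by
          rw [mul_comm, Complex.mul_conj, Complex.normSq_eq_norm_sq]
        have e2 : c₁ * conj c₁ = ((‖c₁‖ ^ 2 : ℝ) : ℂ) := by
          rw [Complex.mul_conj, Complex.normSq_eq_norm_sq]
        rw [hζn, ← e2] at e1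
        linear_combination c₁ * hζ + c₂ * e1
      have h2 : T ζ = 0 := by
        rw [hTform]
        exact (mul_eq_zero.mp h1).resolve_right hζ0
      have h3 : T ζ = T 0 := by rw [h2, map_zero]
      exact hζ0 (hT h3)
  -- general estimate
  have key : ∀ (a b : ℂ) (e : ℂ → ℂ), Continuous e → (∀ ζ, ‖e ζ‖ = ‖ζ‖) → ‖b‖ < ‖a‖ →
      (∀ ζ, ‖T ζ - a * e ζ‖ ≤ ‖b‖ * ‖ζ‖) →
      ∃ r > 0, ∃ k : ℂ → ℂ, (∀ ζ, ζ ≠ 0 → ‖ζ‖ < r → ContinuousAt k ζ) ∧
        (∀ ζ, ζ ≠ 0 → ‖ζ‖ < r → k ζ ^ 2 * g ζ = e ζ) := by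
    intro a b e he hen hab hTe
    have ha : a ≠ 0 := by
      intro h
      rw [h, norm_zero] at hab
      exact absurd (norm_nonneg b) (not_le.mpr hab)
    set ε : ℝ := (‖a‖ - ‖b‖) / 2 with hε
    have hεpos : 0 < ε := by rw [hε]; linarith
    have h1 := hder.isLittleO.bound hεpos
    rw [Metric.eventually_nhds_iff] at h1
    obtain ⟨r, hr, h1⟩ := h1
    obtain ⟨s, hs⟩ := IsAlgClosed.exists_pow_nat_eq a (n := 2) (by norm_num)
    have hs0 : s ≠ 0 := by
      rintro rfl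
      apply ha
      rw [← hs]
      ring
    have hslit : ∀ ζ, ζ ≠ 0 → ‖ζ‖ < r → g ζ / (a * e ζ) ∈ Complex.slitPlane := by
      intro ζ hζ0 hζr
      have he0 : e ζ ≠ 0 := by
        rw [← norm_ne_zero_iff, hen]
        exact norm_ne_zero_iff.mpr hζ0
      have h2 := h1 (y := ζ) (by simpa using hζr)
      simp only [h0, sub_zero] at h2
      have h3 : g ζ / (a * e ζ) = 1 + ((g ζ - T ζ) + (T ζ - a * e ζ)) / (a * e ζ) := by
        field_simp
        ring
      rw [h3]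
      apply Complex.mem_slitPlane_of_norm_lt_one
      rw [norm_div, norm_mul, hen, div_lt_one (mul_pos (norm_pos_iff.mpr ha) (norm_pos_iff.mpr hζ0))]
      calc ‖(g ζ - T ζ) + (T ζ - a * e ζ)‖ ≤ ‖g ζ - T ζ‖ + ‖T ζ - a * e ζ‖ := norm_add_le _ _
        _ ≤ ε * ‖ζ‖ + ‖b‖ * ‖ζ‖ := add_le_add h2 (hTe ζ)
        _ = (ε + ‖b‖) * ‖ζ‖ := by ring
        _ < ‖a‖ * ‖ζ‖ := by
          apply mul_lt_mul_of_pos_right _ (norm_pos_iff.mpr hζ0)
          rw [hε]
          linarith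
    refine ⟨r, hr, fun ζ => (s * csqrt (g ζ / (a * e ζ)))⁻¹, ?_, ?_⟩
    · intro ζ hζ0 hζr
      have he0 : e ζ ≠ 0 := by
        rw [← norm_ne_zero_iff, hen]
        exact norm_ne_zero_iff.mpr hζ0
      apply ContinuousAt.inv₀
      · apply ContinuousAt.mul continuousAt_const
        have hc : ContinuousAt (fun ζ => g ζ / (a * e ζ)) ζ :=
          hg.continuousAt.div (continuousAt_const.mul he.continuousAt) (mul_ne_zero ha he0)
        exact ContinuousAt.comp (f := fun ζ => g ζ / (a * e ζ))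
          (continuousAt_csqrt (hslit ζ hζ0 hζr)) hc
      · exact mul_ne_zero hs0 (csqrt_ne _)
    · intro ζ hζ0 hζr
      have he0 : e ζ ≠ 0 := by
        rw [← norm_ne_zero_iff, hen]
        exact norm_ne_zero_iff.mpr hζ0
      have hne := Complex.slitPlane_ne_zero (hslit ζ hζ0 hζr)
      have hg0 : g ζ ≠ 0 := by
        intro h
        rw [h, zero_div] at hne
        exact hne rfl
      rw [inv_pow, mul_pow, hs, csqrt_sq hne]
      field_simp
  rcases lt_or_gt_of_ne hne with hlt | hgt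
  · -- conjugate case
    obtain ⟨r, hr, k, hk1, hk2⟩ := key c₂ c₁ (fun ζ => conj ζ) Complex.continuous_conj
      (fun ζ => Complex.norm_conj ζ) hlt (by
        intro ζ
        rw [hTform, add_sub_cancel_right, norm_mul])
    exact ⟨r, hr, k, hk1, Or.inr hk2⟩
  · obtain ⟨r, hr, k, hk1, hk2⟩ := key c₁ c₂ (fun ζ => ζ) continuous_id (fun ζ => rfl) hgt (by
        intro ζ
        rw [hTform, add_sub_cancel_left, norm_mul, Complex.norm_conj])
    exact ⟨r, hr, k, hk1, Or.inl hk2⟩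

/-- Openness of a square root of an open function. -/
lemma open_of_sq {X : Type*} [TopologicalSpace X] {W : Set X} (hW : IsOpen W) {w ζ : X → ℂ}
    (hw : ContinuousOn w W) (hζ : ∀ x ∈ W, w x ^ 2 = ζ x)
    (hopen : ∀ x ∈ W, 𝓝 (ζ x) ≤ map ζ (𝓝 x)) {τ : X → X} (hτ : Continuous τ)
    (hτ0 : ∀ x ∈ W, w x = 0 → τ x = x)
    (hwτ : ∀ x, w (τ x) = -w x) {x : X} (hx : x ∈ W) : 𝓝 (w x) ≤ map w (𝓝 x) := by
  rw [Filter.le_map_iff]
  intro N hN
  have hWx : W ∈ 𝓝 x := hW.mem_nhds hx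
  have hsq : ContinuousAt (fun v : ℂ => v ^ 2) (w x) := by fun_prop
  by_cases h0 : w x = 0
  · have hτx := hτ0 x hx h0
    have hN2 : τ ⁻¹' N ∈ 𝓝 x := by
      apply hτ.continuousAt.preimage_mem_nhds
      rw [hτx]
      exact hN
    have h1 := (Filter.le_map_iff.mp (hopen x hx)) _ (inter_mem (inter_mem hN hN2) hWx)
    have h2 : (fun v : ℂ => v ^ 2) ⁻¹' (ζ '' (N ∩ τ ⁻¹' N ∩ W)) ∈ 𝓝 (w x) := by
      apply hsq.preimage_mem_nhds
      rw [hζ x hx]
      exact h1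
    filter_upwards [h2] with v hv
    obtain ⟨y, ⟨⟨hy1, hy2⟩, hy3⟩, hy4⟩ := hv
    have h3 : v ^ 2 = w y ^ 2 := by
      rw [hζ y hy3, hy4]
    rcases sq_eq_sq_iff_eq_or_eq_neg.mp h3 with h4 | h4
    · exact ⟨y, hy1, h4.symm⟩
    · exact ⟨τ y, hy2, by rw [hwτ, h4]⟩
  · have hD : Metric.ball (w x) ‖w x‖ ∈ 𝓝 (w x) :=
      Metric.ball_mem_nhds _ (norm_pos_iff.mpr h0)
    have hN2 : w ⁻¹' (Metric.ball (w x) ‖w x‖) ∈ 𝓝 x :=
      (hw.continuousAt hWx).preimage_mem_nhds hD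
    have h1 := (Filter.le_map_iff.mp (hopen x hx)) _ (inter_mem (inter_mem hN hN2) hWx)
    have h2 : (fun v : ℂ => v ^ 2) ⁻¹'
        (ζ '' (N ∩ w ⁻¹' (Metric.ball (w x) ‖w x‖) ∩ W)) ∈ 𝓝 (w x) := by
      apply hsq.preimage_mem_nhds
      rw [hζ x hx]
      exact h1
    filter_upwards [h2, hD] with v hv hvD
    obtain ⟨y, ⟨⟨hy1, hy2⟩, hy3⟩, hy4⟩ := hv
    have h3 : v ^ 2 = w y ^ 2 := by
      rw [hζ y hy3, hy4]
    rcases sq_eq_sq_iff_eq_or_eq_neg.mp h3 with h4 | h4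
    · exact ⟨y, hy1, h4.symm⟩
    · exfalso
      have hy2' : w y ∈ Metric.ball (w x) ‖w x‖ := hy2
      rw [Metric.mem_ball, dist_eq_norm] at hvD hy2'
      rw [h4] at hvD
      have h5 : ‖(w y - w x) + (-w y - w x)‖ ≤ ‖w y - w x‖ + ‖-w y - w x‖ := norm_add_le _ _
      have h6 : (w y - w x) + (-w y - w x) = (-2 : ℂ) * w x := by ring
      rw [h6, norm_mul] at h5
      norm_num at h5
      linarith

/-- Coordinates near branch points. -/
lemma exists_cone_chart {G : Tor → ℂ} (hG : Continuous G) (Γ : Tor ≃ₜ Tor) (L : PeriodPair)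
    (x₀ : SG G) (hx₀ : G x₀.pr = 0) (z₀ : ℂ) (hz₀ : cproj L z₀ = Γ x₀.pr) (T : ℂ →L[ℝ] ℂ)
    (hT : Function.Injective T)
    (hder : HasFDerivAt (fun ζ => G (Γ.symm (cproj L (z₀ + ζ)))) T 0) :
    ∃ w : OpenPartialHomeomorph (SG G) ℂ, x₀ ∈ w.source ∧ w x₀ = 0 ∧
      ∃ z₀ : ℂ, ∀ y ∈ w.source, cproj L (w y ^ 2 + z₀) = Γ y.pr := by
  classical
  set g : ℂ → ℂ := fun ζ => G (Γ.symm (cproj L (z₀ + ζ))) with hg
  have hgc : Continuous g :=
    hG.comp (Γ.symm.continuous.comp ((continuous_cproj L).comp (by fun_prop)))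
  have hg0 : g 0 = 0 := by
    simp only [hg, add_zero, hz₀, Homeomorph.symm_apply_apply, hx₀]
  obtain ⟨r, hr, k, hk1, hk2⟩ := exists_cone_sqrt g T hT hder hg0 hgc
  set q := (isLocalHomeomorph_cproj L).localInverseAt z₀ with hq
  have hqz : q (Γ x₀.pr) = z₀ := by
    rw [← hz₀]
    exact (isLocalHomeomorph_cproj L).localInverseAt_apply_self
  have hqs : Γ x₀.pr ∈ q.source := by
    rw [← hz₀]
    exact (isLocalHomeomorph_cproj L).apply_self_mem_localInverseAt_source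
  -- the flat coordinate
  set ζ : SG G → ℂ := fun x => q (Γ x.pr) - z₀ with hζ
  have hprc : Continuous fun x : SG G => Γ x.pr := Γ.continuous.comp SG.continuous_pr
  set W₀ : Set (SG G) := (fun x : SG G => Γ x.pr) ⁻¹' q.source with hW₀
  have hW₀o : IsOpen W₀ := q.open_source.preimage hprc
  have hζc : ContinuousOn ζ W₀ := by
    intro x hx
    apply ContinuousAt.continuousWithinAt
    exact (ContinuousAt.comp (f := fun x : SG G => Γ x.pr) (q.continuousAt hx)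
      hprc.continuousAt).sub continuousAt_const
  set W : Set (SG G) := W₀ ∩ ζ ⁻¹' (Metric.ball 0 r) with hW
  have hWo : IsOpen W := hζc.isOpen_inter_preimage hW₀o Metric.isOpen_ball
  have hWr : ∀ x ∈ W, ‖ζ x‖ < r := by
    intro x hx
    simpa using hx.2
  have hcp : ∀ x ∈ W, cproj L (z₀ + ζ x) = Γ x.pr := by
    intro x hx
    have : z₀ + ζ x = q (Γ x.pr) := by simp [hζ]
    rw [this]
    exact (isLocalHomeomorph_cproj L).apply_localInverseAt_of_mem hx.1
  have hgζ : ∀ x ∈ W, g (ζ x) = G x.pr := by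
    intro x hx
    simp only [hg]
    rw [hcp x hx, Homeomorph.symm_apply_apply]
  have hζinj : ∀ x ∈ W, ∀ y ∈ W, ζ x = ζ y → x.pr = y.pr := by
    intro x hx y hy h
    have h1 := hcp x hx
    rw [h, hcp y hy] at h1
    exact (Γ.injective h1).symm
  have hx₀W : x₀ ∈ W := by
    refine ⟨hqs, ?_⟩
    simp only [hζ, Set.mem_preimage, hqz, sub_self]
    exact Metric.mem_ball_self hr
  have hζ0 : ζ x₀ = 0 := by simp only [hζ, hqz, sub_self]
  have hζ_zero : ∀ x ∈ W, ζ x = 0 → x = x₀ := by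
    intro x hx h
    have h1 := hζinj x hx x₀ hx₀W (by rw [h, hζ0])
    apply SG.ext h1
    have e1 : x.Y = 0 := pow_eq_zero_iff two_ne_zero |>.mp (by rw [x.Y_sq, h1, hx₀])
    have e2 : x₀.Y = 0 := pow_eq_zero_iff two_ne_zero |>.mp (by rw [x₀.Y_sq, hx₀])
    rw [e1, e2]
  have hY0 : x₀.Y = 0 := pow_eq_zero_iff two_ne_zero |>.mp (by rw [x₀.Y_sq, hx₀])
  -- the coordinate
  obtain ⟨w, hwτ, hwsq, hwc⟩ : ∃ w : SG G → ℂ, (∀ x, w x.tau = -w x) ∧
      (∀ x ∈ W, w x ^ 2 = ζ x) ∧ (∀ x ∈ W, ζ x ≠ 0 → ContinuousAt w x) := by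
    have hkc : ∀ x ∈ W, ζ x ≠ 0 → ContinuousAt (fun x : SG G => k (ζ x) * x.Y) x := by
      intro x hx h0
      have h1 : ContinuousAt ζ x := (hζc.continuousAt (hW₀o.mem_nhds hx.1))
      exact (ContinuousAt.comp (f := ζ) (hk1 _ h0 (hWr x hx)) h1).mul
        SG.continuous_Y.continuousAt
    rcases hk2 with hk2 | hk2
    · refine ⟨fun x => k (ζ x) * x.Y, ?_, ?_, hkc⟩
      · intro x
        have : ζ x.tau = ζ x := rfl
        simp only [this, SG.tau_Y]
        ring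
      · intro x hx
        by_cases h0 : ζ x = 0
        · have := hζ_zero x hx h0
          simp only [this, hY0, hζ0]
          ring
        · rw [mul_pow, x.Y_sq, ← hgζ x hx, hk2 _ h0 (hWr x hx)]
    · refine ⟨fun x => conj (k (ζ x) * x.Y), ?_, ?_, ?_⟩
      · intro x
        have : ζ x.tau = ζ x := rfl
        simp only [this, SG.tau_Y]
        rw [← map_neg]
        congr 1
        ring
      · intro x hx
        by_cases h0 : ζ x = 0
        · have := hζ_zero x hx h0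
          simp only [this, hY0, hζ0]
          simp
        · rw [← map_pow, mul_pow, x.Y_sq, ← hgζ x hx, hk2 _ h0 (hWr x hx)]
          simp
      · intro x hx h0
        exact Complex.continuous_conj.continuousAt.comp (hkc x hx h0)
  have hwcont : ContinuousOn w W := by
    intro x hx
    apply ContinuousAt.continuousWithinAt
    by_cases h0 : ζ x = 0
    · have hw0 : w x = 0 := pow_eq_zero_iff two_ne_zero |>.mp (by rw [hwsq x hx, h0])
      rw [ContinuousAt, hw0, tendsto_zero_iff_norm_tendsto_zero]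
      have h1 : ∀ᶠ y in 𝓝 x, √‖ζ y‖ = ‖w y‖ := by
        filter_upwards [hWo.mem_nhds hx] with y hy
        rw [← hwsq y hy, norm_pow, Real.sqrt_sq (norm_nonneg _)]
      have h2 : ContinuousAt (fun y => √‖ζ y‖) x := by
        have h3 : ContinuousAt ζ x := (hζc.continuousAt (hW₀o.mem_nhds hx.1))
        exact h3.norm.sqrt
      rw [ContinuousAt, h0] at h2
      simp only [norm_zero, Real.sqrt_zero] at h2
      exact h2.congr' h1
    · exact hwc x hx h0
  have hτ0 : ∀ x ∈ W, w x = 0 → x.tau = x := by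
    intro x hx h0
    have h1 : ζ x = 0 := by rw [← hwsq x hx, h0]; ring
    have h2 := hζ_zero x hx h1
    rw [SG.tau_eq_iff, h2]
    exact hx₀
  have hζopen : ∀ x ∈ W, 𝓝 (ζ x) ≤ map ζ (𝓝 x) := by
    intro x hx
    have e1 : ζ = (fun v => v - z₀) ∘ q ∘ Γ ∘ SG.pr := rfl
    have h1 : 𝓝 x.pr ≤ map SG.pr (𝓝 x) := (SG.isOpenMap_pr hG).nhds_le x
    have h2 : 𝓝 (Γ x.pr) ≤ map Γ (map SG.pr (𝓝 x)) := by
      rw [← Γ.map_nhds_eq]
      exact map_mono h1
    have h3 : 𝓝 (q (Γ x.pr)) ≤ map q (map Γ (map SG.pr (𝓝 x))) := by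
      rw [← q.map_nhds_eq hx.1]
      exact map_mono h2
    have h4 : 𝓝 (q (Γ x.pr) - z₀) ≤ map (fun v => v - z₀) (map q (map Γ (map SG.pr (𝓝 x)))) := by
      have h5 := (Homeomorph.subRight z₀).map_nhds_eq (q (Γ x.pr))
      have h6 : map (fun v => v - z₀) (𝓝 (q (Γ x.pr))) = 𝓝 (q (Γ x.pr) - z₀) := h5
      rw [← h6]
      exact map_mono h3
    rw [e1]
    simpa only [Filter.map_map, Function.comp_apply] using h4
  have hopen : ∀ x ∈ W, 𝓝 (w x) ≤ map w (𝓝 x) := fun x hx =>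
    open_of_sq hWo hwcont hwsq hζopen SG.continuous_tau hτ0 hwτ hx
  have hinj : Set.InjOn w W := by
    intro x hx y hy hxy
    have h1 : ζ x = ζ y := by rw [← hwsq x hx, ← hwsq y hy, hxy]
    have h2 := hζinj x hx y hy h1
    rcases (SG.pr_eq_iff x y).mp h2 with h | h
    · exact h.symm
    · rw [h, hwτ] at hxy
      have h3 : w x = 0 := by linear_combination hxy / 2
      rw [h, hτ0 x hx h3]
  have hopen2 : IsOpenMap (W.domRestrict w) := by
    rw [isOpenMap_iff_nhds_le]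
    intro x
    have h1 := hopen x.1 x.2
    have h2 : map (W.domRestrict w) (𝓝 x) = map w (map Subtype.val (𝓝 x)) := by
      rw [Filter.map_map]
      rfl
    rw [h2, map_nhds_subtype_coe_eq_nhds x.2 (hWo.mem_nhds x.2)]
    exact h1
  have : Nonempty (SG G) := ⟨x₀⟩
  refine ⟨OpenPartialHomeomorph.ofContinuousOpenRestrict hinj.toPartialEquiv
      hwcont hopen2 hWo, hx₀W, ?_, z₀, ?_⟩
  · show w x₀ = 0
    exact pow_eq_zero_iff two_ne_zero |>.mp (by rw [hwsq x₀ hx₀W, hζ0])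
  · intro y hy
    show cproj L (w y ^ 2 + z₀) = Γ y.pr
    rw [hwsq y hy, add_comm]
    exact hcp y hy

end Pool.Agent.SimpleSpectrum
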