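import Mathlib

/-!
# Half-translation surfaces, pseudo-Anosov maps and closed Teichmueller geodesics

Definitions used in the statement on the multiplicity of the simple length spectrum of the moduli
space of closed surfaces.
-/

set_option autoImplicit false

open Topology

namespace Pool.Agent.SimpleSpectrum

/-- The real-linear map `x + i y ↦ eˢ x + i e⁻ˢ y` of the plane. -/
noncomputable def stretch (s : ℝ) (z : ℂ) : ℂ :=
  ⟨Real.exp s * z.re, Real.exp (-s) * z.im⟩

/-- A half-translation structure on a closed surface `S` (equivalently: a complex structure on `S`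
together with a nonzero holomorphic quadratic differential `q`).

* `sing` is the finite set of cone points (the zeros of `q`), with `prongs p ≥ 3` prongs, i.e.
  with cone angle `prongs p * π` at `p`;
* `charts` is a set of charts covering the complement of the cone points (natural coordinates,
  in which `q = dζ²`); any two of them differ locally by `ζ ↦ ± ζ + c`;
* at a cone point `p` with `k` prongs there is a complex coordinate `w` with `w p = 0` such that
  the natural coordinates near `p` are, up to sign and an additive constant, the local branches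
  of `w ^ (k / 2)`; equivalently `q = (k/2)² w ^ (k - 2) dw²`. -/
structure HalfTranslation (S : Type) [TopologicalSpace S] where
  /-- the cone points -/
  sing : Finset S
  /-- the number of prongs -/
  prongs : S → ℕ
  /-- the flat charts -/
  charts : Set (OpenPartialHomeomorph S ℂ)
  regular : ∀ ζ ∈ charts, ∀ p ∈ ζ.source, p ∉ sing
  cover : ∀ p, p ∉ sing → ∃ ζ ∈ charts, p ∈ ζ.source
  compat : ∀ ζ ∈ charts, ∀ ξ ∈ charts, ∀ p ∈ ζ.source, p ∈ ξ.source →
    ∃ ε c : ℂ, (ε = 1 ∨ ε = -1) ∧ ∀ᶠ x in 𝓝 p, ξ x = ε * ζ x + c
  cone : ∀ p ∈ sing, 3 ≤ prongs p ∧ ∃ w : OpenPartialHomeomorph S ℂ, p ∈ w.source ∧ w p = 0 ∧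
    ∀ ζ ∈ charts, ∀ x ∈ ζ.source, x ∈ w.source →
      ∃ c : ℂ, ∀ᶠ y in 𝓝 x, (ζ y - c) ^ 2 = w y ^ prongs p

namespace HalfTranslation

variable {S : Type} [TopologicalSpace S]

/-- The underlying closed surface has genus `g`: Gauss-Bonnet (Euler-Poincare) formula for the
cone angles, `∑ (k_p - 2) = 4 g - 4`. -/
def HasGenus (H : HalfTranslation S) (g : ℕ) : Prop :=
  ∑ p ∈ H.sing, ((H.prongs p : ℤ) - 2) = 4 * (g : ℤ) - 4

/-- The homeomorphism `f` is affine for the half-translation structure `H`, with derivative
`± diag (eʳ, e⁻ʳ)`, `r > 0`.  Thus `f` is a pseudo-Anosov map with stretch factor `eʳ` whose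
invariant foliations are the horizontal and the vertical foliation of `H`. -/
structure IsPseudoAnosov (H : HalfTranslation S) (f : S ≃ₜ S) (r : ℝ) : Prop where
  pos : 0 < r
  sing_iff : ∀ p, f p ∈ H.sing ↔ p ∈ H.sing
  affine : ∀ ζ ∈ H.charts, ∀ ξ ∈ H.charts, ∀ p ∈ ζ.source, f p ∈ ξ.source →
    ∃ ε c : ℂ, (ε = 1 ∨ ε = -1) ∧ ∀ᶠ x in 𝓝 p, ξ (f x) = ε * stretch r (ζ x) + c

/-- For real `s`, let `H_s` be the Riemann surface obtained from `H` by the Teichmueller
deformation with parameter `s`: its holomorphic charts off the cone points are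
`stretch s ∘ ζ`, `ζ` a flat chart of `H`.  The homeomorphism `Φ : S → S` is
conformal from `H_s` to `H_t` if it is complex differentiable in these charts, off the finitely many
points which are cone points or are mapped to cone points (these are removable singularities). -/
def IsConformal (H : HalfTranslation S) (s t : ℝ) (Φ : S ≃ₜ S) : Prop :=
  ∀ ζ ∈ H.charts, ∀ ξ ∈ H.charts, ∀ p ∈ ζ.source, Φ p ∈ ξ.source →
    DifferentiableAt ℂ (fun z => stretch t (ξ (Φ (ζ.symm (stretch (-s) z))))) (stretch s (ζ p))

/-- The points `H_s` and `H_t` of the Teichmueller geodesic through `H` have the same image in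
moduli space: there is a biholomorphic map from `H_s` to `H_t`. -/
def SameModuli (H : HalfTranslation S) (s t : ℝ) : Prop :=
  ∃ Φ : S ≃ₜ S, H.IsConformal s t Φ ∧ H.IsConformal t s Φ.symm

/-- The Teichmueller geodesic `s ↦ [H_s]` descends to an injective map from the circle `ℝ / r ℤ` to
moduli space, i.e. it is a simple closed geodesic of length `r`:
the points `[H_s]` and `[H_t]` coincide if and only if `t - s` is an integer multiple of `r`. -/
def IsSimpleClosedGeodesic (H : HalfTranslation S) (r : ℝ) : Prop :=
  ∀ s t : ℝ, H.SameModuli s t ↔ ∃ n : ℤ, t - s = n * r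

end HalfTranslation

/-- `f` and `f'` represent conjugate elements of the (extended) mapping class group of the closed
surface `S`: for some homeomorphism `h` the maps `h ∘ f ∘ h⁻¹` and `f'` are homotopic.  (Here `h` may
reverse the orientation, and homotopic is implied by isotopic, so this relation is implied by
conjugacy in the mapping class group.) -/
def ConjugateMCG {S : Type} [TopologicalSpace S] (f f' : S ≃ₜ S) : Prop :=
  ∃ h : S ≃ₜ S, ContinuousMap.Homotopic
    ((h.symm.trans (f.trans h) : S ≃ₜ S) : C(S, S)) (f' : C(S, S))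

end Pool.Agent.SimpleSpectrum
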