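import Pool.Agent.SimpleSpectrum.Torus
import Pool.Agent.SimpleSpectrum.Defs

/-!
Branched double covers of the torus and the associated half-translation structures.
-/

set_option autoImplicit false

open Filter Topology

namespace Pool.Agent.SimpleSpectrum

lemma stretch_add (s : ℝ) (z w : ℂ) : stretch s (z + w) = stretch s z + stretch s w := by
  apply Complex.ext <;> simp [stretch, mul_add]

lemma stretch_sub (s : ℝ) (z w : ℂ) : stretch s (z - w) = stretch s z - stretch s w := by
  apply Complex.ext <;> simp [stretch, mul_sub]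

lemma stretch_neg (s : ℝ) (z : ℂ) : stretch s (-z) = -stretch s z := by
  apply Complex.ext <;> simp [stretch]

lemma stretch_real_mul (s a : ℝ) (z : ℂ) : stretch s (a * z) = a * stretch s z := by
  apply Complex.ext <;> simp [stretch] <;> ring

lemma stretch_stretch (s t : ℝ) (z : ℂ) : stretch s (stretch t z) = stretch (s + t) z := by
  apply Complex.ext
  · simp only [stretch, Real.exp_add]; ring
  · simp only [stretch, neg_add, Real.exp_add]; ring

@[simp] lemma stretch_zero (z : ℂ) : stretch 0 z = z := by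
  apply Complex.ext <;> simp [stretch]

lemma stretch_neg_stretch (s : ℝ) (z : ℂ) : stretch (-s) (stretch s z) = z := by
  rw [stretch_stretch]; simp

lemma stretch_stretch_neg (s : ℝ) (z : ℂ) : stretch s (stretch (-s) z) = z := by
  rw [stretch_stretch]; simp

lemma continuous_stretch (s : ℝ) : Continuous (stretch s) := by
  have : stretch s = fun z : ℂ => ((Real.exp s * z.re : ℝ) : ℂ) + ((Real.exp (-s) * z.im : ℝ) : ℂ) * Complex.I := by
    funext z
    apply Complex.ext
    · simp only [stretch, Complex.add_re, Complex.ofReal_re, Complex.mul_re, Complex.ofReal_im,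
        Complex.I_re, Complex.I_im]
      ring
    · simp only [stretch, Complex.add_im, Complex.ofReal_re, Complex.mul_im, Complex.ofReal_im,
        Complex.I_re, Complex.I_im]
      ring
  rw [this]
  fun_prop

/-- The stretched period pair. -/
noncomputable def stretchPair (s : ℝ) (L : PeriodPair) : PeriodPair where
  ω₁ := stretch s L.ω₁
  ω₂ := stretch s L.ω₂
  indep := by
    rw [LinearIndependent.pair_iff]
    intro a b hab
    have h := LinearIndependent.pair_iff.mp L.indep a b ?_
    · exact h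
    · have h2 : stretch s (a * L.ω₁ + b * L.ω₂) = 0 := by
        rw [stretch_add, stretch_real_mul, stretch_real_mul]
        simpa using hab
      have h3 := congrArg (stretch (-s)) h2
      rw [stretch_neg_stretch] at h3
      simp only [Complex.real_smul]
      rw [h3]
      apply Complex.ext <;> simp [stretch]

lemma per_stretchPair (s : ℝ) (L : PeriodPair) (v : ℝ × ℝ) :
    per (stretchPair s L) v = stretch s (per L v) := by
  rw [per_apply, per_apply, stretch_add, stretch_real_mul, stretch_real_mul]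
  rfl

lemma per_symm_stretchPair (s : ℝ) (L : PeriodPair) (z : ℂ) :
    (per (stretchPair s L)).symm z = (per L).symm (stretch (-s) z) := by
  apply (per (stretchPair s L)).injective
  rw [ContinuousLinearEquiv.apply_symm_apply, per_stretchPair,
    ContinuousLinearEquiv.apply_symm_apply, stretch_stretch_neg]

lemma cproj_stretchPair (s : ℝ) (L : PeriodPair) (z : ℂ) :
    cproj (stretchPair s L) z = cproj L (stretch (-s) z) := by
  simp only [cproj, per_symm_stretchPair]

/-- A double cover of the torus, branched over a finite set `P`. -/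
structure TorusCover (S : Type) [TopologicalSpace S] where
  φ : S → Tor
  τ : S → S
  P : Finset Tor
  φ_cont : Continuous φ
  φ_open : IsOpenMap φ
  φ_surj : Function.Surjective φ
  τ_cont : Continuous τ
  τ_invol : ∀ x, τ (τ x) = x
  fiber : ∀ x y, φ x = φ y ↔ (y = x ∨ y = τ x)
  fixed : ∀ x, τ x = x ↔ φ x ∈ P

namespace TorusCover

variable {S : Type} [TopologicalSpace S] (C : TorusCover S)

lemma φ_τ (x : S) : C.φ (C.τ x) = C.φ x := ((C.fiber x (C.τ x)).mpr (Or.inr rfl)).symm

/-- Off the branch points, `φ` is locally injective. -/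
lemma exists_injOn [T2Space S] {x : S} (hx : C.φ x ∉ C.P) :
    ∃ U : Set S, IsOpen U ∧ x ∈ U ∧ Set.InjOn C.φ U ∧ ∀ y ∈ U, C.φ y ∉ C.P := by
  have hne : C.τ x ≠ x := fun h => hx ((C.fixed x).mp h)
  obtain ⟨V, W, hV, hW, hxV, hxW, hVW⟩ := t2_separation hne
  have hPc : IsClosed (C.P : Set Tor) := C.P.finite_toSet.isClosed
  refine ⟨W ∩ C.τ ⁻¹' V ∩ C.φ ⁻¹' (C.P : Set Tor)ᶜ,
    (hW.inter (hV.preimage C.τ_cont)).inter (hPc.isOpen_compl.preimage C.φ_cont), ⟨⟨hxW, hxV⟩, ?_⟩,
    ?_, ?_⟩
  · simpa using hx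
  · intro a ha b hb hab
    rcases (C.fiber a b).mp hab with h | h
    · exact h.symm
    · exfalso
      have h1 : b ∈ V := by
        rw [h]
        exact ha.1.2
      exact Set.disjoint_left.mp hVW h1 hb.1.1
  · intro y hy
    simpa using hy.2

/-- Off the branch points, `φ` is a local homeomorphism. -/
lemma exists_homeo [T2Space S] {x : S} (hx : C.φ x ∉ C.P) :
    ∃ e : OpenPartialHomeomorph S Tor, x ∈ e.source ∧ (∀ y, e y = C.φ y) ∧
      ∀ y ∈ e.source, C.φ y ∉ C.P := by
  obtain ⟨U, hU, hxU, hinj, hP⟩ := C.exists_injOn hx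
  have : Nonempty S := ⟨x⟩
  have hopen : IsOpenMap (U.domRestrict C.φ) := C.φ_open.comp hU.isOpenMap_subtype_val
  refine ⟨OpenPartialHomeomorph.ofContinuousOpenRestrict hinj.toPartialEquiv
      C.φ_cont.continuousOn hopen hU, hxU, fun y => rfl, fun y hy => hP y hy⟩

/-- The flat charts of the half-translation structure defined by the cover and a period pair. -/
def charts (L : PeriodPair) : Set (OpenPartialHomeomorph S ℂ) :=
  {ζ | ∀ x ∈ ζ.source, C.φ x ∉ C.P ∧ cproj L (ζ x) = C.φ x}

lemma exists_chart [T2Space S] (L : PeriodPair) {x : S} (hx : C.φ x ∉ C.P) :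
    ∃ ζ ∈ C.charts L, x ∈ ζ.source := by
  obtain ⟨e, hxe, he, heP⟩ := C.exists_homeo hx
  obtain ⟨z, hz⟩ := cproj_surjective L (C.φ x)
  set k := (isLocalHomeomorph_cproj L).localInverseAt z with hk
  refine ⟨e.trans k, ?_, ?_⟩
  · intro y hy
    rw [OpenPartialHomeomorph.trans_source] at hy
    refine ⟨heP y hy.1, ?_⟩
    have h1 : e y ∈ k.source := hy.2
    have h2 := (isLocalHomeomorph_cproj L).apply_localInverseAt_of_mem h1
    rw [OpenPartialHomeomorph.coe_trans, Function.comp_apply, h2, he]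
  · rw [OpenPartialHomeomorph.trans_source]
    refine ⟨hxe, ?_⟩
    have : e x ∈ k.source := by
      rw [he, ← hz]
      exact (isLocalHomeomorph_cproj L).apply_self_mem_localInverseAt_source
    exact this

/-- The geometric input for rigidity: near good points `Φ` is covered by a map `u` of the plane
that is complex differentiable with nonzero derivative. -/
def GermProp (L L' : PeriodPair) (Φ : S → S) : Prop :=
  ∀ x₀ z₀, C.φ x₀ ∉ C.P → C.φ (Φ x₀) ∉ C.P → C.φ x₀ = cproj L z₀ →
    ∃ (σ : ℂ → S) (u : ℂ → ℂ), σ z₀ = x₀ ∧ ContinuousAt σ z₀ ∧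
      (∀ᶠ z in 𝓝 z₀, C.φ (σ z) = cproj L z) ∧ DifferentiableAt ℂ u z₀ ∧ deriv u z₀ ≠ 0 ∧
      ∀ᶠ z in 𝓝 z₀, C.φ (Φ (σ z)) = cproj L' (u z)

/-- Local sections of the cover off the branch points. -/
lemma exists_section [T2Space S] (L : PeriodPair) {x₀ : S} {z₀ : ℂ} (hx : C.φ x₀ ∉ C.P)
    (hz : C.φ x₀ = cproj L z₀) :
    ∃ σ : ℂ → S, σ z₀ = x₀ ∧ ContinuousAt σ z₀ ∧ (∀ᶠ z in 𝓝 z₀, C.φ (σ z) = cproj L z) := by
  obtain ⟨ζ, hζ, hxζ⟩ := C.exists_chart L hx
  set c := ζ x₀ - z₀ with hc
  have hcl : c ∈ L.lattice := by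
    rw [← cproj_eq_iff, (hζ x₀ hxζ).2, hz]
  have ht : (fun z : ℂ => z + c) z₀ ∈ ζ.target := by
    have : (fun z : ℂ => z + c) z₀ = ζ x₀ := by simp [hc]
    rw [this]
    exact ζ.map_source hxζ
  have hcont : ContinuousAt (fun z : ℂ => z + c) z₀ := by fun_prop
  refine ⟨fun z => ζ.symm (z + c), ?_, ?_, ?_⟩
  · have : z₀ + c = ζ x₀ := by simp [hc]
    simp only [this]
    exact ζ.left_inv hxζ
  · exact ContinuousAt.comp (f := fun z : ℂ => z + c) (ζ.continuousAt_symm ht) hcont
  · filter_upwards [hcont.eventually (ζ.open_target.mem_nhds ht)] with z hz2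
    have h1 := ζ.map_target hz2
    have h2 := (hζ _ h1).2
    rw [ζ.right_inv hz2, cproj_add_lattice L z c hcl] at h2
    exact h2.symm

/-- Conformality of `Φ` in both directions yields the germ property. -/
lemma germProp_of_conformal [T2Space S] (H : HalfTranslation S) (L : PeriodPair)
    (hH : H.charts = C.charts L) (s t : ℝ) (Φ : S ≃ₜ S) (h1 : H.IsConformal s t Φ)
    (h2 : H.IsConformal t s Φ.symm) :
    C.GermProp (stretchPair s L) (stretchPair t L) Φ := by
  intro x₀ z₀ hx₀ hΦx₀ hz₀
  obtain ⟨ζ, hζ, hxζ⟩ := C.exists_chart L hx₀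
  obtain ⟨ξ, hξ, hxξ⟩ := C.exists_chart L hΦx₀
  have hζH : ζ ∈ H.charts := hH ▸ hζ
  have hξH : ξ ∈ H.charts := hH ▸ hξ
  set c := stretch s (ζ x₀) - z₀ with hc
  -- the local section
  set σ : ℂ → S := fun z => ζ.symm (stretch (-s) (z + c)) with hσ
  set u : ℂ → ℂ := fun z => stretch t (ξ (Φ (σ z))) with hu
  have hz₀c : z₀ + c = stretch s (ζ x₀) := by simp [hc]
  have hσ0 : σ z₀ = x₀ := by
    simp only [hσ, hz₀c, stretch_neg_stretch]
    exact ζ.left_inv hxζ
  have hin : stretch (-s) (z₀ + c) ∈ ζ.target := by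
    rw [hz₀c, stretch_neg_stretch]
    exact ζ.map_source hxζ
  have hcont1 : Continuous fun z : ℂ => stretch (-s) (z + c) :=
    (continuous_stretch (-s)).comp (by fun_prop)
  have hσc : ContinuousAt σ z₀ := by
    have := ζ.continuousAt_symm hin
    exact ContinuousAt.comp (f := fun z : ℂ => stretch (-s) (z + c)) this hcont1.continuousAt
  have hnear : ∀ᶠ z in 𝓝 z₀, stretch (-s) (z + c) ∈ ζ.target :=
    hcont1.continuousAt.eventually (ζ.open_target.mem_nhds hin)
  have hcl : stretch (-s) c ∈ L.lattice := by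
    rw [hc, stretch_sub, stretch_neg_stretch, ← cproj_eq_iff, (hζ x₀ hxζ).2, hz₀,
      cproj_stretchPair]
  have hσφ : ∀ᶠ z in 𝓝 z₀, C.φ (σ z) = cproj (stretchPair s L) z := by
    filter_upwards [hnear] with z hz
    have e1 := ζ.map_target hz
    have e2 := (hζ _ e1).2
    rw [ζ.right_inv hz] at e2
    rw [cproj_stretchPair]
    simp only [hσ]
    rw [← e2, stretch_add, cproj_add_lattice L _ _ hcl]
  have hΦξ : ∀ᶠ z in 𝓝 z₀, Φ (σ z) ∈ ξ.source := by
    have : ContinuousAt (fun z => Φ (σ z)) z₀ := Φ.continuous.continuousAt.comp hσc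
    apply this.eventually (p := fun y => y ∈ ξ.source)
    have e0 : (fun z => Φ (σ z)) z₀ = Φ x₀ := by simp only [hσ0]
    rw [e0]
    exact ξ.open_source.mem_nhds hxξ
  have hud : DifferentiableAt ℂ u z₀ := by
    have hd := h1 ζ hζH ξ hξH x₀ hxζ hxξ
    have hd2 : DifferentiableAt ℂ (fun z : ℂ => z + c) z₀ := by fun_prop
    have hd3 : DifferentiableAt ℂ (fun z => stretch t (ξ (Φ (ζ.symm (stretch (-s) z)))))
        ((fun z : ℂ => z + c) z₀) := by
      simp only [hz₀c]
      exact hd
    exact hd3.comp z₀ hd2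
  refine ⟨σ, u, hσ0, hσc, hσφ, hud, ?_, ?_⟩
  · -- derivative is nonzero: use the inverse
    intro hzero
    have hu0 : u z₀ = stretch t (ξ (Φ x₀)) := by simp only [hu, hσ0]
    have hd := h2 ξ hξH ζ hζH (Φ x₀) hxξ (by simpa using hxζ)
    set v : ℂ → ℂ := fun z => stretch s (ζ (Φ.symm (ξ.symm (stretch (-t) z)))) with hv
    have hdv : HasDerivAt v (deriv v (u z₀)) (u z₀) := by
      rw [hu0]
      exact hd.hasDerivAt
    have hcomp : HasDerivAt (v ∘ u) (deriv v (u z₀) * deriv u z₀) z₀ :=
      hdv.comp z₀ hud.hasDerivAt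
    have hid : (v ∘ u) =ᶠ[𝓝 z₀] fun z => z + c := by
      filter_upwards [hnear, hΦξ] with z hz1 hz2
      simp only [Function.comp_apply, hv, hu, stretch_neg_stretch]
      rw [ξ.left_inv hz2, Φ.symm_apply_apply]
      simp only [hσ]
      rw [ζ.right_inv hz1, stretch_stretch_neg]
    have h3 : HasDerivAt (fun z : ℂ => z + c) 1 z₀ := (hasDerivAt_id z₀).add_const c
    have h4 := (h3.congr_of_eventuallyEq hid).unique hcomp
    rw [hzero, mul_zero] at h4
    exact one_ne_zero h4
  · filter_upwards [hΦξ] with z hz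
    rw [cproj_stretchPair]
    simp only [hu, stretch_neg_stretch]
    exact ((hξ _ hz).2).symm

end TorusCover

end Pool.Agent.SimpleSpectrum
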