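import Pool.Agent.SimpleSpectrum.Lift

/-!
Nondegeneracy of the zeros of the function `G`, and the cone data of the model surface.
-/

set_option autoImplicit false

open Filter Topology Real

namespace Pool.Agent.SimpleSpectrum

lemma hasDerivAt_E (x : ℝ) : HasDerivAt (fun x : ℝ => E (x : UnitAddCircle))
    (2 * π * Complex.I * E (x : UnitAddCircle)) x := by
  have h1 : (fun x : ℝ => E (x : UnitAddCircle)) =
      fun x : ℝ => Complex.exp ((x : ℂ) * (2 * π * Complex.I)) := by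
    funext x
    rw [E_coe]
    congr 1
    ring
  have h2 : HasDerivAt (fun x : ℝ => (x : ℂ)) 1 x := Complex.ofRealCLM.hasDerivAt
  have h3 := (h2.mul_const (2 * π * Complex.I : ℂ)).cexp
  rw [h1]
  refine h3.congr_deriv ?_
  rw [E_coe]
  have : (2 * π * x * Complex.I : ℂ) = x * (2 * π * Complex.I) := by ring
  rw [this]
  ring

lemma hasDerivAt_factor (n k : ℕ) (x : ℝ) :
    HasDerivAt (fun x : ℝ => cos (2 * π * x) - cos (2 * π * ((k : ℝ) / n)))
      (-(2 * π * sin (2 * π * x))) x := by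
  have h1 : HasDerivAt (fun x : ℝ => 2 * π * x) (2 * π) x := by
    simpa using (hasDerivAt_id x).const_mul (2 * π)
  have h2 := (h1.cos).sub_const (cos (2 * π * ((k : ℝ) / n)))
  refine h2.congr_deriv ?_
  ring

lemma differentiable_prod (n : ℕ) (s : Finset ℕ) :
    Differentiable ℝ fun x : ℝ => ∏ k ∈ s, (cos (2 * π * x) - cos (2 * π * ((k : ℝ) / n))) := by
  fun_prop

lemma rho_coe (n : ℕ) (x : ℝ) : rho n (x : UnitAddCircle) =
    1 + (1 / 100) * ∏ k ∈ Finset.Icc 1 ((n - 1) / 2),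
      (cos (2 * π * x) - cos (2 * π * ((k : ℝ) / n))) := by
  unfold rho
  rw [E_re]

lemma differentiable_rho (n : ℕ) : Differentiable ℝ fun x : ℝ => rho n (x : UnitAddCircle) := by
  have h : (fun x : ℝ => rho n (x : UnitAddCircle)) = fun x : ℝ =>
      1 + (1 / 100) * ∏ k ∈ Finset.Icc 1 ((n - 1) / 2),
      (cos (2 * π * x) - cos (2 * π * ((k : ℝ) / n))) := by
    funext x
    exact rho_coe n x
  rw [h]
  have := differentiable_prod n (Finset.Icc 1 ((n - 1) / 2))
  fun_prop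

/-- The derivative of `rho` at the marks is not zero. -/
lemma exists_deriv_rho {n : ℕ} (h : Adm n) {k₀ : ℤ} (hk0 : k₀ ≠ 0)
    (hk : |k₀| ≤ ((n - 1) / 2 : ℕ)) :
    ∃ a : ℝ, a ≠ 0 ∧ HasDerivAt (fun x : ℝ => rho n (x : UnitAddCircle)) a ((k₀ : ℝ) / n) := by
  set x₀ : ℝ := (k₀ : ℝ) / n with hx₀
  have hn := h.pos
  have hn' : (0 : ℝ) < n := by exact_mod_cast hn
  set κ : ℕ := k₀.natAbs with hκ
  have hκ1 : 1 ≤ κ := by omega
  have hκ2 : κ ≤ (n - 1) / 2 := by
    have h3 : ((k₀.natAbs : ℕ) : ℤ) ≤ (((n - 1) / 2 : ℕ) : ℤ) := by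
      rw [Int.natCast_natAbs]
      exact hk
    exact_mod_cast h3
  have hmem : κ ∈ Finset.Icc 1 ((n - 1) / 2) := Finset.mem_Icc.mpr ⟨hκ1, hκ2⟩
  have hcos : cos (2 * π * x₀) = cos (2 * π * ((κ : ℝ) / n)) := by
    rcases le_total 0 k₀ with h1 | h1
    · have : ((k₀.natAbs : ℕ) : ℝ) = k₀ := by
        rw [Nat.cast_natAbs, abs_of_nonneg h1]
      rw [hκ, this]
    · have : ((k₀.natAbs : ℕ) : ℝ) = -k₀ := by
        rw [Nat.cast_natAbs, abs_of_nonpos h1]
        push_cast
        ring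
      rw [hκ, this, ← cos_neg]
      congr 1
      rw [hx₀]
      ring
  set H : ℝ → ℝ := fun x => ∏ k ∈ (Finset.Icc 1 ((n - 1) / 2)).erase κ,
    (cos (2 * π * x) - cos (2 * π * ((k : ℝ) / n))) with hH
  have hHd : DifferentiableAt ℝ H x₀ := (differentiable_prod n _) x₀
  have hH0 : H x₀ ≠ 0 := by
    simp only [hH]
    rw [Finset.prod_ne_zero_iff]
    intro k hk'
    rw [Finset.mem_erase, Finset.mem_Icc] at hk'
    rw [sub_ne_zero, hcos]
    intro heq
    have hrange : ∀ j : ℕ, j ≤ (n - 1) / 2 → 2 * π * ((j : ℝ) / n) ∈ Set.Icc 0 π := by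
      intro j hj
      refine ⟨by positivity, ?_⟩
      have h2 := h.two_mul hj
      have h5 : (j : ℝ) / n < 1 / 2 := by
        rw [div_lt_div_iff₀ hn' (by norm_num)]
        have : ((2 * j : ℕ) : ℝ) < n := by exact_mod_cast h2
        push_cast at this
        linarith
      nlinarith [pi_pos]
    have h1 := injOn_cos (hrange κ hκ2) (hrange k hk'.2.2) heq
    have hpi := pi_pos.ne'
    have h2 : (κ : ℝ) = k := by
      field_simp at h1
      exact h1
    exact hk'.1 (by exact_mod_cast h2.symm)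
  have hsin : sin (2 * π * x₀) ≠ 0 := by
    intro h0
    rw [sin_eq_zero_iff] at h0
    obtain ⟨m, hm⟩ := h0
    have hpi := pi_pos.ne'
    have h1 : (m : ℝ) = 2 * x₀ := by
      have : π * ((m : ℝ) - 2 * x₀) = 0 := by linarith
      rcases mul_eq_zero.mp this with h2 | h2
      · exact absurd h2 hpi
      · linarith
    have h2 : (m : ℝ) * n = 2 * k₀ := by
      rw [h1, hx₀]
      field_simp
    have h3 : m * n = 2 * k₀ := by exact_mod_cast h2
    have h4 := h.two_mul hκ2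
    have h5 : |2 * k₀| < n := by
      rw [abs_mul]
      have : |k₀| = κ := (Int.natCast_natAbs k₀).symm
      rw [this]
      norm_num
      exact_mod_cast h4
    have h6 := Int.eq_zero_of_abs_lt_dvd (m := (n : ℤ)) ⟨m, by rw [← h3]; ring⟩ h5
    omega
  refine ⟨(1 / 100) * (-(2 * π * sin (2 * π * x₀)) * H x₀), ?_, ?_⟩
  · apply mul_ne_zero (by norm_num)
    apply mul_ne_zero _ hH0
    rw [neg_ne_zero]
    exact mul_ne_zero (mul_ne_zero two_ne_zero pi_pos.ne') hsin
  · have h1 := (hasDerivAt_factor n κ x₀).mul hHd.hasDerivAt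
    rw [hcos, sub_self, zero_mul, add_zero] at h1
    have h2 := (h1.const_mul (1 / 100)).const_add 1
    apply h2.congr_of_eventuallyEq
    apply Eventually.of_forall
    intro x
    simp only [rho_coe, Pi.mul_apply, hH]
    rw [← Finset.mul_prod_erase _ _ hmem]

/-- Derivative of `G` at a zero of the first kind. -/
lemma hasFDerivAt_GG {n n' : ℕ} (h' : Adm n') {x₀ a : ℝ} (ha : a ≠ 0)
    (hder : HasDerivAt (fun x : ℝ => rho n (x : UnitAddCircle)) a x₀)
    (h1 : rho n (x₀ : UnitAddCircle) = 1) (hx0 : (x₀ : UnitAddCircle) ≠ 0) :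
    ∃ Λ : (ℝ × ℝ) →L[ℝ] ℂ, Function.Injective Λ ∧
      HasFDerivAt (fun v : ℝ × ℝ => GG n n' (proj v)) Λ (x₀, 0) := by
  set F₁ : ℝ × ℝ → ℂ := fun v => E (v.2 : UnitAddCircle) - rho n (v.1 : UnitAddCircle) with hF₁
  set F₂ : ℝ × ℝ → ℂ := fun v => E (v.1 : UnitAddCircle) - rho n' (v.2 : UnitAddCircle) with hF₂
  have hGG : (fun v : ℝ × ℝ => GG n n' (proj v)) = fun v => F₁ v * F₂ v := rfl
  have e0 : ((0 : ℝ) : UnitAddCircle) = 0 := by simp
  have d1 : HasFDerivAt F₁ (((ContinuousLinearMap.toSpanSingleton ℝ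
      (2 * π * Complex.I * E ((0 : ℝ) : UnitAddCircle))).comp (ContinuousLinearMap.snd ℝ ℝ ℝ)) -
      ((Complex.ofRealCLM.comp (ContinuousLinearMap.toSpanSingleton ℝ a)).comp
        (ContinuousLinearMap.fst ℝ ℝ ℝ))) (x₀, 0) := by
    apply HasFDerivAt.sub
    · have := (hasDerivAt_E 0).hasFDerivAt
      exact HasFDerivAt.comp (f := fun v : ℝ × ℝ => v.2) (x₀, 0) this hasFDerivAt_snd
    · have h2 := hder.hasFDerivAt
      have h3 : HasFDerivAt (fun v : ℝ × ℝ => rho n (v.1 : UnitAddCircle))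
          ((ContinuousLinearMap.toSpanSingleton ℝ a).comp (ContinuousLinearMap.fst ℝ ℝ ℝ))
          (x₀, 0) := HasFDerivAt.comp (f := fun v : ℝ × ℝ => v.1) (x₀, 0) h2 hasFDerivAt_fst
      exact Complex.ofRealCLM.hasFDerivAt.comp (x₀, 0) h3
  have d2 : DifferentiableAt ℝ F₂ (x₀, 0) := by
    have e1 : DifferentiableAt ℝ (fun v : ℝ × ℝ => E (v.1 : UnitAddCircle)) (x₀, 0) :=
      DifferentiableAt.comp (f := fun v : ℝ × ℝ => v.1) (x₀, 0)
        (hasDerivAt_E x₀).differentiableAt differentiableAt_fst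
    have e2 : DifferentiableAt ℝ (fun v : ℝ × ℝ => (rho n' (v.2 : UnitAddCircle))) (x₀, 0) :=
      DifferentiableAt.comp (f := fun v : ℝ × ℝ => v.2) (x₀, 0)
        (differentiable_rho n' 0) differentiableAt_snd
    have e3 : DifferentiableAt ℝ (fun v : ℝ × ℝ => ((rho n' (v.2 : UnitAddCircle) : ℝ) : ℂ))
        (x₀, 0) := Complex.ofRealCLM.differentiableAt.comp (x₀, 0) e2
    exact e1.sub e3
  have hF1 : F₁ (x₀, 0) = 0 := by
    simp only [hF₁, e0]
    rw [h1, E_zero]
    simp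
  have hF2 : F₂ (x₀, 0) ≠ 0 := by
    simp only [hF₂]
    intro h3
    exact hx0 ((factor_eq_zero_iff h' _ _).mp h3).1
  have d3 := (d1.mul d2.hasFDerivAt).congr_fderiv (g' := F₂ (x₀, 0) •
      (((ContinuousLinearMap.toSpanSingleton ℝ
      (2 * π * Complex.I * E ((0 : ℝ) : UnitAddCircle))).comp (ContinuousLinearMap.snd ℝ ℝ ℝ)) -
      ((Complex.ofRealCLM.comp (ContinuousLinearMap.toSpanSingleton ℝ a)).comp
        (ContinuousLinearMap.fst ℝ ℝ ℝ)))) (by
    ext
    · simp [hF1]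
    · simp [hF1])
  refine ⟨_, ?_, d3⟩
  have hadd : ∀ u : ℝ × ℝ, (F₂ (x₀, 0) • (((ContinuousLinearMap.toSpanSingleton ℝ
      (2 * π * Complex.I * E ((0 : ℝ) : UnitAddCircle))).comp (ContinuousLinearMap.snd ℝ ℝ ℝ)) -
      ((Complex.ofRealCLM.comp (ContinuousLinearMap.toSpanSingleton ℝ a)).comp
        (ContinuousLinearMap.fst ℝ ℝ ℝ)))) u = 0 → u = 0 := by
    intro u hu
    simp only [smul_apply, sub_apply,
      ContinuousLinearMap.comp_apply, ContinuousLinearMap.coe_snd', ContinuousLinearMap.coe_fst',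
      ContinuousLinearMap.toSpanSingleton_apply, smul_eq_mul, mul_eq_zero] at hu
    have h3 := hu.resolve_left hF2
    rw [e0, E_zero] at h3
    simp only [mul_one, Complex.real_smul, Complex.ofRealCLM_apply] at h3
    have hr := congrArg Complex.re h3
    have hi := congrArg Complex.im h3
    simp at hr hi
    apply Prod.ext
    · exact hr.resolve_right ha
    · exact hi
  intro u v huv
  have h3 := hadd (u - v) (by rw [map_sub, sub_eq_zero]; exact huv)
  exact sub_eq_zero.mp h3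

end Pool.Agent.SimpleSpectrum
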