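import Pool.Agent.SimpleSpectrum.Winding
import Pool.Agent.SimpleSpectrum.Closed

/-!
Assembly of the main theorem.
-/

set_option autoImplicit false

open Filter Topology

namespace Pool.Agent.SimpleSpectrum

/-- The parameters `b = 43 ^ j`, `c = 43 ^ (2 K - j)`. -/
def par (K j : ℕ) (h1 : 1 ≤ j) (h2 : j < K) : Par where
  b := 43 ^ j
  m := 43 ^ (2 * K - 2 * j)
  hb := by
    calc 43 = 43 ^ 1 := (pow_one _).symm
      _ ≤ 43 ^ j := Nat.pow_le_pow_right (by norm_num) h1
  hm := by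
    calc 43 = 43 ^ 1 := (pow_one _).symm
      _ ≤ 43 ^ (2 * K - 2 * j) := Nat.pow_le_pow_right (by norm_num) (by omega)
  cop := by
    have h : Nat.Coprime 43 40 := by norm_num
    apply Nat.Coprime.mul_left (h.pow_left _)
    exact Nat.Coprime.mul_left (h.pow_left _) (h.pow_left _)

lemma par_n (K j : ℕ) (h1 : 1 ≤ j) (h2 : j < K) : (par K j h1 h2).n = 43 ^ (2 * K) := by
  unfold Par.n Par.c
  simp only [par]
  push_cast
  rw [← pow_add, ← pow_add]
  congr 1
  omega

lemma r_eq_of_n {p q : Par} (h : p.n = q.n) : p.r = q.r := by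
  unfold Par.r Par.lam
  rw [h]

/-- Local charts of the model surface. -/
lemma exists_local_chart (x : S₀) : ∃ e : OpenPartialHomeomorph S₀ ℂ, x ∈ e.source := by
  set p := par 2 1 le_rfl (by norm_num) with hp
  by_cases h : p.cover.φ x ∈ p.cover.P
  · obtain ⟨w, hw, -⟩ := p.coneData x h
    exact ⟨w, hw⟩
  · obtain ⟨ζ, -, hζ⟩ := p.cover.exists_chart p.L h
    exact ⟨ζ, hζ⟩

/-- A uniform bound for the invariants. -/
lemma exists_bound : ∃ B : ℕ, ∀ f : S₀ ≃ₜ S₀, ∀ T : Finset ℕ, (T : Set ℕ) ⊆ J 43 f →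
    T.card ≤ B := by
  obtain ⟨ι, hι, κ, hκ⟩ := exists_finite_classes exists_local_chart 43 (by norm_num)
  refine ⟨Nat.card ι, ?_⟩
  intro f T hT
  have h1 : ∀ e : T, ∃ y : {y : S₀ → UnitAddCircle // Continuous y},
      InD f (fun x => 43 ^ (e : ℕ) • y.1 x) ∧ ∀ z : S₀ → UnitAddCircle, Continuous z →
      ¬ InD f (fun x => 43 ^ ((e : ℕ) - 1) • y.1 x - 43 ^ (e : ℕ) • z x) := by
    intro e
    obtain ⟨-, y, hy, h2, h3⟩ := hT e.2
    exact ⟨⟨y, hy⟩, h2, h3⟩
  choose y hy1 hy2 using h1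
  have hinj : Function.Injective fun e : T => κ (y e) := by
    intro e e' hee
    by_contra hne
    have hne' : (e : ℕ) ≠ e' := fun h => hne (Subtype.ext h)
    rcases lt_or_gt_of_ne hne' with h | h
    · obtain ⟨z, hz, hz2⟩ := hκ (y e) (y e') hee
      exact J_finite_aux 43 (hT e.2).1 h (hy1 e) (hy2 e') hz hz2
    · obtain ⟨z, hz, hz2⟩ := hκ (y e') (y e) hee.symm
      exact J_finite_aux 43 (hT e'.2).1 h (hy1 e') (hy2 e) hz hz2
  have h2 := Nat.card_le_card_of_injective _ hinj
  simpa using h2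

/-- The model surface carries arbitrarily many pairwise non-conjugate pseudo-Anosov maps with the
same translation length and simple closed geodesics. -/
theorem model_theorem (N : ℕ) : ∃ r : ℝ, 0 < r ∧ ∃ f : Fin (N + 1) → (S₀ ≃ₜ S₀),
    (∀ i, ∃ H : HalfTranslation S₀, H.HasGenus 11 ∧ H.IsPseudoAnosov (f i) r ∧
      H.IsSimpleClosedGeodesic r) ∧ ∀ i j, i ≠ j → ¬ ConjugateMCG (f i) (f j) := by
  classical
  obtain ⟨B, hB⟩ := exists_bound
  set K : ℕ := B * N + 2 with hK
  set s : Finset ℕ := Finset.Icc 1 (B * N + 1) with hs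
  have hsK : ∀ j ∈ s, 1 ≤ j ∧ j < K := by
    intro j hj
    rw [hs, Finset.mem_Icc] at hj
    omega
  -- the maps
  have hf : ∀ j : ℕ, ∃ f : S₀ ≃ₜ S₀, ∀ (hj : j ∈ s), ∀ x,
      (par K j (hsK j hj).1 (hsK j hj).2).cover.φ (f x) =
        act 1 (par K j (hsK j hj).1 (hsK j hj).2).b (-(par K j (hsK j hj).1 (hsK j hj).2).c)
          (1 - (par K j (hsK j hj).1 (hsK j hj).2).b * (par K j (hsK j hj).1 (hsK j hj).2).c)
          ((par K j (hsK j hj).1 (hsK j hj).2).cover.φ x) := by
    intro j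
    by_cases hj : j ∈ s
    · obtain ⟨f, hf⟩ := (par K j (hsK j hj).1 (hsK j hj).2).exists_f
      exact ⟨f, fun _ => hf⟩
    · exact ⟨Homeomorph.refl _, fun h => absurd h hj⟩
  choose f hf using hf
  have hJ : ∀ j ∈ s, j ∈ J 43 (f j) := by
    intro j hj
    exact (par K j (hsK j hj).1 (hsK j hj).2).mem_J _ (f j) (hf j hj) (by norm_num)
      (hsK j hj).1 rfl
  -- many different invariants
  have hcard : N + 1 ≤ (s.image (fun j => J 43 (f j))).card := by
    by_contra hlt
    push Not at hlt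
    have h1 := Finset.card_le_mul_card_image (f := fun j => J 43 (f j)) s B (by
      intro a ha
      rw [Finset.mem_image] at ha
      obtain ⟨j₀, -, rfl⟩ := ha
      apply hB (f j₀)
      intro j hj
      simp only [Finset.coe_filter, Set.mem_ofPred_eq] at hj
      rw [← hj.2]
      exact hJ j hj.1)
    have h2 : s.card = B * N + 1 := by
      rw [hs]
      simp
    have h3 : B * (s.image (fun j => J 43 (f j))).card ≤ B * N :=
      Nat.mul_le_mul_left B (by omega)
    omega
  obtain ⟨emb⟩ : Nonempty (Fin (N + 1) ↪ (s.image (fun j => J 43 (f j)))) := by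
    apply Function.Embedding.nonempty_of_card_le
    simpa using hcard
  have hsel : ∀ i : Fin (N + 1), ∃ j ∈ s, J 43 (f j) = (emb i : Set ℕ) := by
    intro i
    have := (emb i).2
    rw [Finset.mem_image] at this
    exact this
  choose idx hidx hidxJ using hsel
  have h1s : 1 ∈ s := by
    rw [hs, Finset.mem_Icc]
    omega
  refine ⟨(par K 1 (hsK 1 h1s).1 (hsK 1 h1s).2).r, Par.r_pos _, fun i => f (idx i), ?_, ?_⟩
  · intro i
    set p := par K (idx i) (hsK _ (hidx i)).1 (hsK _ (hidx i)).2 with hp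
    have hr : (par K 1 (hsK 1 h1s).1 (hsK 1 h1s).2).r = p.r := by
      apply r_eq_of_n
      rw [hp, par_n, par_n]
    rw [hr]
    have hpA := p.isPseudoAnosov p.cover rfl p.coneData (f (idx i)) (hf _ (hidx i))
    refine ⟨p.cover.surface p.L p.coneData, ?_, hpA, ?_⟩
    · apply TorusCover.surface_hasGenus
      exact p.card_P
    · intro s t
      exact ⟨simple_geodesic p.cover p rfl _ rfl s t, hpA.sameModuli s t⟩
  · intro i j hij hconj
    apply hij
    apply emb.injective
    apply Subtype.ext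
    rw [← hidxJ i, ← hidxJ j]
    exact J_eq_of_conj 43 hconj

/-- The disproof: in genus `11` the simple length spectrum has unbounded multiplicity. -/
theorem main : ∃ (S : Type) (_ : TopologicalSpace S), CompactSpace S ∧
    T2Space S ∧ ConnectedSpace S ∧ ∀ N : ℕ, ∃ r : ℝ, 0 < r ∧ ∃ f : Fin (N + 1) → (S ≃ₜ S),
      (∀ i, ∃ H : HalfTranslation S, H.HasGenus 11 ∧ H.IsPseudoAnosov (f i) r ∧
        H.IsSimpleClosedGeodesic r) ∧ ∀ i j, i ≠ j → ¬ ConjugateMCG (f i) (f j) := by
  set p := par 2 1 le_rfl (by norm_num) with hp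
  have hmem : p.e₁ 1 ∈ p.cover.P := by
    show p.e₁ 1 ∈ p.P
    rw [p.mem_P]
    exact Or.inl ⟨1, by norm_num, by norm_num, rfl⟩
  exact ⟨S₀, inferInstance, inferInstance, inferInstance,
    p.cover.connectedSpace hmem, model_theorem⟩

end Pool.Agent.SimpleSpectrum
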