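import Pool.Agent.SimpleSpectrum.Affine

/-!
Finiteness of circle valued functions modulo divisible ones, on compact surfaces.
-/

set_option autoImplicit false

open Filter Topology

namespace Pool.Agent.SimpleSpectrum

lemma discrete_range_int : DiscreteTopology (Set.range ((↑) : ℤ → ℝ)) := by
  have h := Int.isClosedEmbedding_coe_real.isEmbedding.toHomeomorph
  exact h.symm.isEmbedding.discreteTopology

/-- An integer valued continuous function is constant on preconnected sets. -/
lemma int_valued_const {X : Type*} [TopologicalSpace X] {V : Set X} (hV : IsPreconnected V)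
    {g : X → ℝ} (hg : ContinuousOn g V) (hint : ∀ x ∈ V, ((g x : ℝ) : UnitAddCircle) = 0)
    {x y : X} (hx : x ∈ V) (hy : y ∈ V) : g x = g y := by
  apply hV.constant_of_mapsTo (T := Set.range ((↑) : ℤ → ℝ)) ⟨discrete_range_int⟩ hg _ hx hy
  intro z hz
  exact (coe_eq_zero_iff_int _).mp (hint z hz)

variable {S : Type} [PseudoMetricSpace S]

/-- Circle valued functions lift on the set. -/
def Liftable (U : Set S) : Prop :=
  ∀ c : S → UnitAddCircle, Continuous c →
    ∃ F : S → ℝ, ContinuousOn F U ∧ ∀ y ∈ U, ((F y : ℝ) : UnitAddCircle) = c y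

lemma liftable_ball (e : OpenPartialHomeomorph S ℂ) {z : ℂ} {r : ℝ} (hr : 0 < r)
    (h : Metric.ball z r ⊆ e.target) : Liftable (e.source ∩ e ⁻¹' Metric.ball z r) := by
  classical
  intro c hc
  set B := Metric.ball z r with hB
  have hconv : Convex ℝ B := convex_ball z r
  have hne : B.Nonempty := ⟨z, Metric.mem_ball_self hr⟩
  have h1 : ContractibleSpace B := hconv.contractibleSpace hne
  have h2 : LocallyPathConnectedSpace B := Metric.isOpen_ball.locallyPathConnectedSpace
  have hcont : Continuous fun v : B => c (e.symm v) := by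
    apply hc.comp
    exact (e.continuousOn_symm.mono h).domRestrict
  obtain ⟨F, hF, hFe⟩ := exists_lift_circle (fun v : B => c (e.symm v)) hcont
  refine ⟨fun y => if hy : e y ∈ B then F ⟨e y, hy⟩ else 0, ?_, ?_⟩
  · rw [continuousOn_iff_continuous_domRestrict]
    have h3 : (e.source ∩ e ⁻¹' B).domRestrict (fun y => if hy : e y ∈ B then F ⟨e y, hy⟩ else 0) =
        fun y => F ⟨e y.1, y.2.2⟩ := by
      funext y
      have hy : e y.1 ∈ B := y.2.2
      show (if hy : e y.1 ∈ B then F ⟨e y.1, hy⟩ else 0) = _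
      rw [dif_pos hy]
    rw [h3]
    apply hF.comp
    apply Continuous.subtype_mk
    exact (e.continuousOn.mono Set.inter_subset_left).domRestrict
  · intro y hy
    have hy2 : e y ∈ B := hy.2
    simp only [dif_pos hy2, hFe]
    rw [e.left_inv hy.1]

/-- small preconnected neighbourhoods -/
lemma exists_small (e : OpenPartialHomeomorph S ℂ) {x : S} (hx : x ∈ e.source) {N : Set S}
    (hN : N ∈ 𝓝 x) : ∃ V : Set S, IsOpen V ∧ x ∈ V ∧ V ⊆ N ∧ IsPreconnected V := by
  have h1 : e.target ∩ e.symm ⁻¹' N ∈ 𝓝 (e x) := by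
    apply inter_mem (e.open_target.mem_nhds (e.map_source hx))
    apply (e.continuousAt_symm (e.map_source hx)).preimage_mem_nhds
    rw [e.left_inv hx]
    exact hN
  obtain ⟨r, hr, hsub⟩ := Metric.mem_nhds_iff.mp h1
  refine ⟨e.symm '' Metric.ball (e x) r, ?_, ?_, ?_, ?_⟩
  · apply e.symm.isOpen_image_of_subset_source Metric.isOpen_ball
    intro z hz
    exact (hsub hz).1
  · exact ⟨e x, Metric.mem_ball_self hr, e.left_inv hx⟩
  · rintro _ ⟨z, hz, rfl⟩
    exact (hsub hz).2
  · apply (convex_ball (e x) r).isPreconnected.image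
    exact e.continuousOn_symm.mono fun z hz => (hsub hz).1

/-- Finiteness of circle valued functions modulo multiples of `l`. -/
theorem exists_finite_classes [CompactSpace S]
    (hloc : ∀ x : S, ∃ e : OpenPartialHomeomorph S ℂ, x ∈ e.source) (l : ℕ) (hl : 0 < l) :
    ∃ (ι : Type) (_ : Finite ι) (κ : {y : S → UnitAddCircle // Continuous y} → ι),
      ∀ y y', κ y = κ y' → ∃ z : S → UnitAddCircle, Continuous z ∧
        ∀ x, y'.1 x = y.1 x + l • z x := by
  classical
  -- liftable neighbourhoods
  have hU : ∀ x : S, ∃ U : Set S, IsOpen U ∧ x ∈ U ∧ Liftable U := by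
    intro x
    obtain ⟨e, he⟩ := hloc x
    obtain ⟨r, hr, hsub⟩ := Metric.mem_nhds_iff.mp (e.open_target.mem_nhds (e.map_source he))
    exact ⟨_, e.isOpen_inter_preimage Metric.isOpen_ball, ⟨he, Metric.mem_ball_self hr⟩,
      liftable_ball e hr hsub⟩
  choose U hUo hxU hUl using hU
  obtain ⟨δ, hδ, hleb⟩ := lebesgue_number_lemma_of_metric (s := (Set.univ : Set S))
    isCompact_univ hUo (fun x _ => Set.mem_iUnion.mpr ⟨x, hxU x⟩)
  choose i hi using fun x => hleb x (Set.mem_univ x)
  -- small preconnected sets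
  have hV : ∀ x : S, ∃ V : Set S, IsOpen V ∧ x ∈ V ∧ V ⊆ Metric.ball x (δ / 4) ∧
      IsPreconnected V := by
    intro x
    obtain ⟨e, he⟩ := hloc x
    exact exists_small e he (Metric.ball_mem_nhds x (by linarith))
  choose V hVo hxV hVs hVp using hV
  obtain ⟨A, hA⟩ := isCompact_univ.elim_finite_subcover V hVo
    (fun x _ => Set.mem_iUnion.mpr ⟨x, hxV x⟩)
  have hcov : ∀ x : S, ∃ a : A, x ∈ V a := by
    intro x
    have := hA (Set.mem_univ x)
    simp only [Set.mem_iUnion] at this
    obtain ⟨a, ha, hx⟩ := this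
    exact ⟨⟨a, ha⟩, hx⟩
  have hVU : ∀ a : S, V a ⊆ U (i a) := by
    intro a x hx
    apply hi a
    have h1 := hVs a hx
    rw [Metric.mem_ball] at h1 ⊢
    linarith
  have hVU2 : ∀ a b : S, (V a ∩ V b).Nonempty → V b ⊆ U (i a) := by
    rintro a b ⟨w, hw1, hw2⟩ x hx
    apply hi a
    have h1 := hVs b hx
    have h2 := hVs a hw1
    have h3 := hVs b hw2
    rw [Metric.mem_ball] at h1 h2 h3 ⊢
    calc dist x a ≤ dist x b + dist b a := dist_triangle _ _ _
      _ ≤ dist x b + (dist b w + dist w a) := by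
        gcongr
        exact dist_triangle _ _ _
      _ < δ := by
        rw [dist_comm b w]
        linarith
  -- the lifts
  choose F hFc hFe using fun (c : {y : S → UnitAddCircle // Continuous y}) (a : S) =>
    hUl (i a) c.1 c.2
  -- difference of lifts is constant
  have hconst : ∀ (c : {y : S → UnitAddCircle // Continuous y}) (a b : S),
      (V a ∩ V b).Nonempty → ∀ x ∈ V b, F c a x - F c b x = F c a b - F c b b := by
    intro c a b hab x hx
    apply int_valued_const (hVp b) (g := fun x => F c a x - F c b x) _ _ hx (hxV b)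
    · exact ((hFc c a).mono (hVU2 a b hab)).sub ((hFc c b).mono (hVU b))
    · intro y hy
      rw [AddCircle.coe_sub, hFe c a y (hVU2 a b hab hy), hFe c b y (hVU b hy), sub_self]
  have hint : ∀ (c : {y : S → UnitAddCircle // Continuous y}) (a b : S),
      (V a ∩ V b).Nonempty → ∃ m : ℤ, (m : ℝ) = F c a b - F c b b := by
    intro c a b hab
    rw [← coe_eq_zero_iff_int, AddCircle.coe_sub, hFe c a b (hVU2 a b hab (hxV b)),
      hFe c b b (hVU b (hxV b)), sub_self]
  have : NeZero l := ⟨hl.ne'⟩
  refine ⟨A × A → ZMod l, inferInstance,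
    fun c q => ((round (F c q.1 q.2 - F c q.2 q.2) : ℤ) : ZMod l), ?_⟩
  intro c c' hκ
  have hl' : (l : ℝ) ≠ 0 := by exact_mod_cast hl.ne'
  have hcompat : ∀ a b : A, ∀ x, x ∈ V a → x ∈ V b →
      (((F c' a x - F c a x) / l : ℝ) : UnitAddCircle) =
        (((F c' b x - F c b x) / l : ℝ) : UnitAddCircle) := by
    intro a b x ha hb
    have hab : (V a ∩ V b).Nonempty := ⟨x, ha, hb⟩
    have h1 := hconst c a b hab x hb
    have h2 := hconst c' a b hab x hb
    obtain ⟨m, hm⟩ := hint c a b hab
    obtain ⟨m', hm'⟩ := hint c' a b hab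
    have h3 := congrFun hκ (a, b)
    simp only at h3
    rw [← hm, ← hm', round_intCast, round_intCast, ZMod.intCast_eq_intCast_iff_dvd_sub] at h3
    obtain ⟨k, hk⟩ := h3
    rw [← sub_eq_zero, ← AddCircle.coe_sub, coe_eq_zero_iff_int]
    refine ⟨k, ?_⟩
    have h4 : (F c' a x - F c a x) / l - (F c' b x - F c b x) / l =
        ((F c' a x - F c' b x) - (F c a x - F c b x)) / l := by ring
    rw [h4, h1, h2, ← hm, ← hm']
    have h5 : ((m' : ℝ) - m) = l * k := by exact_mod_cast hk
    rw [h5]
    field_simp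
  choose a ha using hcov
  refine ⟨fun x => (((F c' (a x) x - F c (a x) x) / l : ℝ) : UnitAddCircle), ?_, ?_⟩
  · rw [continuous_iff_continuousAt]
    intro x₀
    have h1 : ∀ᶠ x in 𝓝 x₀, (((F c' (a x₀) x - F c (a x₀) x) / l : ℝ) : UnitAddCircle) =
        (((F c' (a x) x - F c (a x) x) / l : ℝ) : UnitAddCircle) := by
      filter_upwards [(hVo (a x₀)).mem_nhds (ha x₀)] with x hx
      exact hcompat (a x₀) (a x) x hx (ha x)
    have h2 : ContinuousAt (fun x => (((F c' (a x₀) x - F c (a x₀) x) / l : ℝ) : UnitAddCircle))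
        x₀ := by
      have h3 : ContinuousOn (fun x => (F c' (a x₀) x - F c (a x₀) x) / l) (U (i (a x₀))) :=
        ((hFc c' _).sub (hFc c _)).div_const _
      have h4 := h3.continuousAt ((hUo _).mem_nhds (hVU _ (ha x₀)))
      exact (AddCircle.continuous_mk' (1 : ℝ)).continuousAt.comp h4
    exact h2.congr h1
  · intro x
    have h1 := hFe c (a x) x (hVU _ (ha x))
    have h2 := hFe c' (a x) x (hVU _ (ha x))
    rw [← AddCircle.coe_nsmul, nsmul_eq_mul, mul_div_cancel₀ _ hl', AddCircle.coe_sub, h1, h2]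
    abel

end Pool.Agent.SimpleSpectrum
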