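import Pool.Agent.SimpleSpectrum.Torus

/-!
The Weierstrass function on the torus, and the rational expressions used in the rigidity argument.
-/

set_option autoImplicit false

open Filter Topology Asymptotics

namespace Pool.Agent.SimpleSpectrum

variable (L : PeriodPair)

/-- The Weierstrass function as a function on the torus. -/
noncomputable def Pw (θ : Tor) : ℂ :=
  PeriodPair.weierstrassP L (Classical.choose (cproj_surjective L θ))

lemma Pw_cproj (z : ℂ) : Pw L (cproj L z) = PeriodPair.weierstrassP L z := by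
  have h := Classical.choose_spec (cproj_surjective L (cproj L z))
  rw [Pw]
  set w := Classical.choose (cproj_surjective L (cproj L z)) with hw
  rw [cproj_eq_iff] at h
  have := L.weierstrassP_add_coe z ⟨w - z, h⟩
  simpa using this

lemma notMem_lattice_iff {z : ℂ} : z ∉ L.lattice ↔ cproj L z ≠ 0 := by
  rw [ne_eq, cproj_eq_zero_iff]

lemma Pw_eq_iff {θ θ' : Tor} (h : θ ≠ 0) (h' : θ' ≠ 0) :
    Pw L θ = Pw L θ' ↔ θ = θ' ∨ θ = -θ' := by
  obtain ⟨z, rfl⟩ := cproj_surjective L θ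
  obtain ⟨w, rfl⟩ := cproj_surjective L θ'
  rw [Pw_cproj, Pw_cproj, wp_eq_iff L ((notMem_lattice_iff L).mpr h) ((notMem_lattice_iff L).mpr h'),
    ← cproj_neg, cproj_eq_iff, cproj_eq_iff, sub_neg_eq_add]

lemma Pw_surjective (c : ℂ) : ∃ θ : Tor, θ ≠ 0 ∧ Pw L θ = c := by
  obtain ⟨z, hz, hc⟩ := wp_surjective L c
  exact ⟨cproj L z, (notMem_lattice_iff L).mp hz, by rw [Pw_cproj, hc]⟩

/-- The function `1 / (wp - c)` on the torus, extended by zero at the origin. -/
noncomputable def Gc (c : ℂ) (θ : Tor) : ℂ :=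
  open Classical in if θ = 0 then 0 else (Pw L θ - c)⁻¹

lemma Gc_zero (c : ℂ) : Gc L c 0 = 0 := by simp [Gc]

lemma Gc_of_ne {c : ℂ} {θ : Tor} (h : θ ≠ 0) : Gc L c θ = (Pw L θ - c)⁻¹ := by simp [Gc, h]

lemma hasDerivAt_wp {z : ℂ} (hz : z ∉ L.lattice) :
    HasDerivAt (PeriodPair.weierstrassP L) (PeriodPair.derivWeierstrassP L z) z := by
  have := (analyticAt_wp L hz).differentiableAt.hasDerivAt
  rwa [L.deriv_weierstrassP] at this

lemma eventually_cproj_ne_zero (z₀ : ℂ) : ∀ᶠ z in 𝓝[≠] z₀, cproj L z ≠ 0 := by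
  have := eventually_cproj_notMem L {0} z₀
  simpa using this

lemma differentiableAt_Gc {c z : ℂ} (h : cproj L z = 0 ∨ Pw L (cproj L z) ≠ c) :
    DifferentiableAt ℂ (fun w => Gc L c (cproj L w)) z := by
  have hoff : ∀ w, cproj L w ≠ 0 → Pw L (cproj L w) ≠ c →
      DifferentiableAt ℂ (fun w => Gc L c (cproj L w)) w := by
    intro w hw hwc
    have hwL := (notMem_lattice_iff L).mpr hw
    have h1 : DifferentiableAt ℂ (fun w => (PeriodPair.weierstrassP L w - c)⁻¹) w := by
      apply DifferentiableAt.inv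
      · exact (analyticAt_wp L hwL).differentiableAt.sub_const c
      · rw [← Pw_cproj]
        exact sub_ne_zero.mpr hwc
    apply h1.congr_of_eventuallyEq
    filter_upwards [eventually_notMem_lattice L hwL] with v hv
    rw [Gc_of_ne L ((notMem_lattice_iff L).mp hv), Pw_cproj]
  by_cases hz : cproj L z = 0
  · have hzL : z ∈ L.lattice := (cproj_eq_zero_iff L z).mp hz
    have htend := tendsto_weierstrassP_cobounded L hzL
    have hcont : ContinuousAt (fun w => Gc L c (cproj L w)) z := by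
      rw [continuousAt_iff_punctured_nhds]
      simp only [hz, Gc_zero]
      have h2 : Tendsto (fun w => (PeriodPair.weierstrassP L w - c)⁻¹) (𝓝[≠] z) (𝓝 0) := by
        have h3 : Tendsto (fun w => PeriodPair.weierstrassP L w - c) (𝓝[≠] z)
            (Bornology.cobounded ℂ) := by
          have := htend
          rw [← tendsto_norm_atTop_iff_cobounded] at this ⊢
          apply tendsto_atTop_mono (f := fun w => ‖PeriodPair.weierstrassP L w‖ - ‖c‖)
          · intro w
            exact norm_sub_norm_le _ _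
          · exact tendsto_atTop_add_const_right _ _ this
        exact tendsto_inv₀_cobounded.comp h3
      apply h2.congr'
      filter_upwards [eventually_cproj_ne_zero L z] with w hw
      rw [Gc_of_ne L hw, Pw_cproj]
    -- nearby points are good
    have hgood : ∀ᶠ w in 𝓝[≠] z, DifferentiableAt ℂ (fun w => Gc L c (cproj L w)) w := by
      have hlarge : ∀ᶠ w in 𝓝[≠] z, PeriodPair.weierstrassP L w ≠ c := by
        have : ({c} : Set ℂ)ᶜ ∈ Bornology.cobounded ℂ := by
          exact (Bornology.isBounded_singleton (x := c))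
        filter_upwards [htend this] with w hw
        exact hw
      filter_upwards [eventually_cproj_ne_zero L z, hlarge] with w hw1 hw2
      exact hoff w hw1 (by rwa [Pw_cproj])
    rw [eventually_nhdsWithin_iff] at hgood
    obtain ⟨s, hs, hsd⟩ : ∃ s ∈ 𝓝 z, ∀ w ∈ s, w ≠ z →
        DifferentiableAt ℂ (fun w => Gc L c (cproj L w)) w := ⟨_, hgood, fun w hw => hw⟩
    have := (Complex.differentiableOn_compl_singleton_and_continuousAt_iff hs).mp
      ⟨fun w hw => (hsd w hw.1 hw.2).differentiableWithinAt, hcont⟩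
    exact (this z (mem_of_mem_nhds hs)).differentiableAt hs
  · rcases h with h | h
    · exact absurd h hz
    · exact hoff z hz h

lemma continuousAt_Gc {c : ℂ} {θ : Tor} (h : θ = 0 ∨ Pw L θ ≠ c) : ContinuousAt (Gc L c) θ := by
  obtain ⟨z, rfl⟩ := cproj_surjective L θ
  have h1 := (differentiableAt_Gc L h).continuousAt
  have h2 : 𝓝 (cproj L z) = map (cproj L) (𝓝 z) := ((isLocalHomeomorph_cproj L).map_nhds_eq z).symm
  rw [ContinuousAt, h2]
  exact h1

/-- Near a point with nonzero derivative, the difference is comparable to the distance. -/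
lemma isBigO_sub_of_hasDerivAt {f : ℂ → ℂ} {f' z : ℂ} (h : HasDerivAt f f' z) (hf : f' ≠ 0) :
    (fun w => w - z) =O[𝓝 z] fun w => f w - f z := by
  have h1 := (HasDerivAtFilter.isTheta_sub h hf).isBigO_symm
  have h2 : Tendsto (fun w : ℂ => (w, z)) (𝓝 z) (𝓝 z ×ˢ pure z) := by
    exact tendsto_id.prodMk tendsto_const_pure
  exact h1.comp_tendsto h2

/-- The rational expression in `wp` used for the rigidity argument. -/
noncomputable def Rat4 (X : Fin 4 → ℂ) (Q : Finset Tor) (z : ℂ) : ℂ :=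
  (∏ j, (PeriodPair.weierstrassP L z - X j) ^ 2) / ∏ p ∈ Q, (PeriodPair.weierstrassP L z - Pw L p)

lemma Rat4_periodic (X : Fin 4 → ℂ) (Q : Finset Tor) (z w : ℂ) (hw : w ∈ L.lattice) :
    Rat4 L X Q (z + w) = Rat4 L X Q z := by
  have := L.weierstrassP_add_coe z ⟨w, hw⟩
  simp only at this
  simp only [Rat4, this]

lemma differentiableAt_Rat4 (X : Fin 4 → ℂ) (Q : Finset Tor) (hQ0 : ∀ p ∈ Q, p ≠ 0) {z : ℂ}
    (hz : cproj L z ≠ 0) (hzQ : ∀ p ∈ Q, cproj L z ≠ p ∧ cproj L z ≠ -p) :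
    DifferentiableAt ℂ (Rat4 L X Q) z := by
  have hd : DifferentiableAt ℂ (PeriodPair.weierstrassP L) z :=
    (analyticAt_wp L ((notMem_lattice_iff L).mpr hz)).differentiableAt
  unfold Rat4
  apply DifferentiableAt.div
  · fun_prop
  · fun_prop
  · rw [Finset.prod_ne_zero_iff]
    intro p hp
    rw [sub_ne_zero, ← Pw_cproj]
    intro h
    rcases (Pw_eq_iff L hz (hQ0 p hp)).mp h with h | h
    · exact (hzQ p hp).1 h
    · exact (hzQ p hp).2 h

/-- With more than eight denominators the expression tends to zero at lattice points. -/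
lemma tendsto_Rat4 (X : Fin 4 → ℂ) (Q : Finset Tor) (hQ : 9 ≤ Q.card) {z : ℂ}
    (hz : cproj L z = 0) : Tendsto (Rat4 L X Q) (𝓝[≠] z) (𝓝 0) := by
  have hzL : z ∈ L.lattice := (cproj_eq_zero_iff L z).mp hz
  have htend := tendsto_weierstrassP_cobounded L hzL
  set y : ℂ → ℂ := fun w => (PeriodPair.weierstrassP L w)⁻¹ with hy
  have hy0 : Tendsto y (𝓝[≠] z) (𝓝 0) := tendsto_inv₀_cobounded.comp htend
  have hne : ∀ᶠ w in 𝓝[≠] z, PeriodPair.weierstrassP L w ≠ 0 := by
    have : ({0} : Set ℂ)ᶜ ∈ Bornology.cobounded ℂ := (Bornology.isBounded_singleton (x := 0))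
    filter_upwards [htend this] with w hw
    exact hw
  have heq : ∀ᶠ w in 𝓝[≠] z, Rat4 L X Q w =
      y w ^ (Q.card - 8) * ((∏ j, (1 - X j * y w) ^ 2) / ∏ p ∈ Q, (1 - Pw L p * y w)) := by
    filter_upwards [hne] with w hw
    set P := PeriodPair.weierstrassP L w with hP
    have hyw : y w = P⁻¹ := rfl
    have h1 : ∀ a : ℂ, P - a = P * (1 - a * P⁻¹) := by
      intro a
      field_simp
    have h2 : (∏ j, (P - X j) ^ 2) = P ^ 8 * ∏ j, (1 - X j * P⁻¹) ^ 2 := by
      have : ∀ j, (P - X j) ^ 2 = P ^ 2 * (1 - X j * P⁻¹) ^ 2 := by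
        intro j
        rw [h1 (X j), mul_pow]
      simp only [this]
      rw [Finset.prod_mul_distrib, Finset.prod_const]
      simp only [Finset.card_univ, Fintype.card_fin]
      ring
    have h3 : (∏ p ∈ Q, (P - Pw L p)) = P ^ Q.card * ∏ p ∈ Q, (1 - Pw L p * P⁻¹) := by
      have : ∀ p ∈ Q, (P - Pw L p) = P * (1 - Pw L p * P⁻¹) := fun p _ => h1 _
      rw [Finset.prod_congr rfl this, Finset.prod_mul_distrib, Finset.prod_const]
    rw [Rat4, ← hP, h2, h3, hyw]
    have h4 : P ^ Q.card = P ^ (Q.card - 8) * P ^ 8 := by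
      rw [← pow_add]
      congr 1
      omega
    rw [h4, inv_pow]
    have h5 : P ^ 8 ≠ 0 := pow_ne_zero _ hw
    have h6 : P ^ (Q.card - 8) ≠ 0 := pow_ne_zero _ hw
    rw [mul_comm (P ^ (Q.card - 8)) (P ^ 8), mul_assoc, mul_div_mul_left _ _ h5, div_mul_eq_div_div_swap,
      div_eq_inv_mul]
  have hlim : Tendsto (fun w => y w ^ (Q.card - 8) *
      ((∏ j, (1 - X j * y w) ^ 2) / ∏ p ∈ Q, (1 - Pw L p * y w))) (𝓝[≠] z)
      (𝓝 (0 ^ (Q.card - 8) * ((∏ j : Fin 4, (1 - X j * 0) ^ 2) / ∏ p ∈ Q, (1 - Pw L p * 0)))) := by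
    apply Tendsto.mul
    · exact hy0.pow _
    · apply Tendsto.div
      · apply tendsto_finsetProd
        intro j _
        exact (tendsto_const_nhds.sub (hy0.const_mul _)).pow 2
      · apply tendsto_finsetProd
        intro p _
        exact tendsto_const_nhds.sub (hy0.const_mul _)
      · simp
  have h0 : (0 : ℂ) ^ (Q.card - 8) = 0 := zero_pow (by omega)
  rw [h0, zero_mul] at hlim
  exact hlim.congr' (heq.mono fun w hw => hw.symm)

/-- Simple pole at the branch points. -/
lemma isBigO_Rat4_branch (X : Fin 4 → ℂ) (Q : Finset Tor) (hQ0 : ∀ p ∈ Q, p ≠ 0)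
    (hQneg : ∀ p ∈ Q, -p ∉ Q) {z : ℂ} (hz : cproj L z ≠ 0) (hz2 : cproj L z + cproj L z ≠ 0)
    (hzQ : ∃ p ∈ Q, cproj L z = p ∨ cproj L z = -p) :
    (Rat4 L X Q) =O[𝓝[≠] z] fun w => (w - z)⁻¹ := by
  classical
  have hzL := (notMem_lattice_iff L).mpr hz
  obtain ⟨p₀, hp₀, hzp₀⟩ := hzQ
  have hPw : Pw L p₀ = PeriodPair.weierstrassP L z := by
    rw [← Pw_cproj]
    exact ((Pw_eq_iff L hz (hQ0 p₀ hp₀)).mpr hzp₀).symm
  have hcont : ContinuousAt (PeriodPair.weierstrassP L) z := (hasDerivAt_wp L hzL).continuousAt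
  have hother : ∀ p ∈ Q.erase p₀, PeriodPair.weierstrassP L z - Pw L p ≠ 0 := by
    intro p hp
    rw [Finset.mem_erase] at hp
    rw [sub_ne_zero, ← Pw_cproj]
    intro h
    have h2 := (Pw_eq_iff L hz (hQ0 p hp.2)).mp h
    rcases hzp₀ with h3 | h3 <;> rcases h2 with h4 | h4
    · exact hp.1 (h4.symm.trans h3)
    · apply hQneg p hp.2
      rw [← h4, h3]
      exact hp₀
    · apply hQneg p₀ hp₀
      rw [← h3, h4]
      exact hp.2
    · apply hp.1
      rw [h3] at h4
      exact (neg_injective h4).symm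
  have hder : PeriodPair.derivWeierstrassP L z ≠ 0 := by
    intro h
    have := two_mul_mem_of_wp'_eq_zero L hzL h
    rw [two_mul, ← cproj_eq_zero_iff, cproj_add] at this
    exact hz2 this
  -- numerator bounded, regular denominators bounded below
  have hnum : (fun w => ∏ j, (PeriodPair.weierstrassP L w - X j) ^ 2) =O[𝓝[≠] z]
      (fun _ => (1 : ℂ)) := by
    have : ContinuousAt (fun w => ∏ j, (PeriodPair.weierstrassP L w - X j) ^ 2) z := by fun_prop
    exact (this.tendsto.mono_left nhdsWithin_le_nhds).isBigO_one ℂ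
  have hden1 : (fun w => (∏ p ∈ Q.erase p₀, (PeriodPair.weierstrassP L w - Pw L p))⁻¹) =O[𝓝[≠] z]
      (fun _ => (1 : ℂ)) := by
    have h1 : ContinuousAt (fun w => ∏ p ∈ Q.erase p₀, (PeriodPair.weierstrassP L w - Pw L p)) z := by
      fun_prop
    have h2 : (∏ p ∈ Q.erase p₀, (PeriodPair.weierstrassP L z - Pw L p)) ≠ 0 :=
      Finset.prod_ne_zero_iff.mpr hother
    have h3 := h1.inv₀ h2
    exact (h3.tendsto.mono_left nhdsWithin_le_nhds).isBigO_one ℂ
  have hden2 : (fun w => (PeriodPair.weierstrassP L w - Pw L p₀)⁻¹) =O[𝓝[≠] z]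
      (fun w => (w - z)⁻¹) := by
    have h1 := (isBigO_sub_of_hasDerivAt (hasDerivAt_wp L hzL) hder).mono
      (nhdsWithin_le_nhds (s := {z}ᶜ))
    rw [hPw]
    apply h1.inv_rev
    filter_upwards [self_mem_nhdsWithin] with w hw h0
    exact absurd (sub_eq_zero.mp h0) hw
  have hprod := (hnum.mul hden1).mul hden2
  have heq : (Rat4 L X Q) = fun w => (∏ j, (PeriodPair.weierstrassP L w - X j) ^ 2) *
      (∏ p ∈ Q.erase p₀, (PeriodPair.weierstrassP L w - Pw L p))⁻¹ *
      (PeriodPair.weierstrassP L w - Pw L p₀)⁻¹ := by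
    funext w
    rw [Rat4, ← Finset.mul_prod_erase Q _ hp₀, div_eq_mul_inv, mul_inv]
    ring
  rw [heq]
  simpa using hprod

/-- Double zero at points where a numerator vanishes. -/
lemma isBigO_Rat4_zero (X : Fin 4 → ℂ) (Q : Finset Tor) (hQ0 : ∀ p ∈ Q, p ≠ 0) {z : ℂ}
    (hz : cproj L z ≠ 0) (hzQ : ∀ p ∈ Q, cproj L z ≠ p ∧ cproj L z ≠ -p)
    (hX : ∃ j, X j = PeriodPair.weierstrassP L z) :
    (Rat4 L X Q) =O[𝓝 z] fun w => (w - z) ^ 2 := by
  classical
  have hzL := (notMem_lattice_iff L).mpr hz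
  obtain ⟨j₀, hj₀⟩ := hX
  have hcont : ContinuousAt (PeriodPair.weierstrassP L) z := (hasDerivAt_wp L hzL).continuousAt
  have h1 : (fun w => (PeriodPair.weierstrassP L w - X j₀) ^ 2) =O[𝓝 z] fun w => (w - z) ^ 2 := by
    rw [hj₀]
    exact (hasDerivAt_wp L hzL).isBigO_sub.pow 2
  have h2 : (fun w => (∏ j ∈ Finset.univ.erase j₀, (PeriodPair.weierstrassP L w - X j) ^ 2) /
      ∏ p ∈ Q, (PeriodPair.weierstrassP L w - Pw L p)) =O[𝓝 z] fun _ => (1 : ℂ) := by
    have hc : ContinuousAt (fun w => (∏ j ∈ Finset.univ.erase j₀,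
        (PeriodPair.weierstrassP L w - X j) ^ 2) /
        ∏ p ∈ Q, (PeriodPair.weierstrassP L w - Pw L p)) z := by
      apply ContinuousAt.div
      · fun_prop
      · fun_prop
      · rw [Finset.prod_ne_zero_iff]
        intro p hp
        rw [sub_ne_zero, ← Pw_cproj]
        intro h
        rcases (Pw_eq_iff L hz (hQ0 p hp)).mp h with h | h
        · exact (hzQ p hp).1 h
        · exact (hzQ p hp).2 h
    exact hc.tendsto.isBigO_one ℂ
  have heq : (Rat4 L X Q) = fun w => (PeriodPair.weierstrassP L w - X j₀) ^ 2 *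
      ((∏ j ∈ Finset.univ.erase j₀, (PeriodPair.weierstrassP L w - X j) ^ 2) /
      ∏ p ∈ Q, (PeriodPair.weierstrassP L w - Pw L p)) := by
    funext w
    rw [Rat4, ← Finset.mul_prod_erase Finset.univ _ (Finset.mem_univ j₀), mul_div_assoc]
  rw [heq]
  simpa using h1.mul h2

end Pool.Agent.SimpleSpectrum
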