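import Pool.Agent.SimpleSpectrum.Defs

/-!
A conjugacy invariant of mapping classes: orders of cyclic summands of the cokernel of `f^* - 1`
on the first cohomology.
-/

set_option autoImplicit false

open Filter Topology

namespace Pool.Agent.SimpleSpectrum

variable {S : Type} [TopologicalSpace S]

/-- A circle valued function is null homotopic modulo coboundaries `c ∘ f - c`. -/
def InD (f : S → S) (u : S → UnitAddCircle) : Prop :=
  ∃ (F : S → ℝ) (c : S → UnitAddCircle), Continuous F ∧ Continuous c ∧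
    ∀ x, u x = ((F x : ℝ) : UnitAddCircle) + (c (f x) - c x)

lemma InD.add {f : S → S} {u v : S → UnitAddCircle} (hu : InD f u) (hv : InD f v) :
    InD f (fun x => u x + v x) := by
  obtain ⟨F, c, hF, hc, h⟩ := hu
  obtain ⟨F', c', hF', hc', h'⟩ := hv
  refine ⟨fun x => F x + F' x, fun x => c x + c' x, hF.add hF', hc.add hc', ?_⟩
  intro x
  simp only
  rw [h, h', AddCircle.coe_add]
  abel

lemma InD.nsmul {f : S → S} {u : S → UnitAddCircle} (hu : InD f u) (n : ℕ) :
    InD f (fun x => n • u x) := by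
  obtain ⟨F, c, hF, hc, h⟩ := hu
  refine ⟨fun x => n • F x, fun x => n • c x, hF.const_smul n, hc.const_smul n, ?_⟩
  intro x
  simp only
  rw [h, smul_add, smul_sub, AddCircle.coe_nsmul]

lemma InD.sub {f : S → S} {u v : S → UnitAddCircle} (hu : InD f u) (hv : InD f v) :
    InD f (fun x => u x - v x) := by
  obtain ⟨F, c, hF, hc, h⟩ := hu
  obtain ⟨F', c', hF', hc', h'⟩ := hv
  refine ⟨fun x => F x - F' x, fun x => c x - c' x, hF.sub hF', hc.sub hc', ?_⟩
  intro x
  simp only
  rw [h, h', AddCircle.coe_sub]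
  abel

/-- The invariant: exponents of the cyclic summands. -/
def J (l : ℕ) (f : S → S) : Set ℕ :=
  {e | 1 ≤ e ∧ ∃ y : S → UnitAddCircle, Continuous y ∧ InD f (fun x => l ^ e • y x) ∧
    ∀ z : S → UnitAddCircle, Continuous z →
      ¬ InD f (fun x => l ^ (e - 1) • y x - l ^ e • z x)}

/-- Homotopic maps pull back circle valued functions to homotopic ones. -/
lemma null_of_homotopic {g₀ g₁ : C(S, S)} (h : ContinuousMap.Homotopic g₀ g₁)
    {c : S → UnitAddCircle} (hc : Continuous c) :
    ∃ G : S → ℝ, Continuous G ∧ ∀ x, c (g₁ x) = c (g₀ x) + ((G x : ℝ) : UnitAddCircle) := by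
  obtain ⟨H⟩ := h
  have cov := AddCircle.isCoveringMap_coe (1 : ℝ)
  set K : C(unitInterval × S, UnitAddCircle) :=
    ⟨fun q => c (H q) - c (g₀ q.2), by fun_prop⟩ with hK
  have hK0 : ∀ a, K (0, a) = (((0 : C(S, ℝ)) a : ℝ) : UnitAddCircle) := by
    intro a
    simp [hK]
  set Kt := cov.liftHomotopy K (0 : C(S, ℝ)) hK0 with hKt
  refine ⟨fun x => Kt (1, x), by fun_prop, ?_⟩
  intro x
  have h1 := congrFun (cov.liftHomotopy_lifts K (0 : C(S, ℝ)) hK0) (1, x)
  have h2 : ((Kt (1, x) : ℝ) : UnitAddCircle) = K (1, x) := h1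
  rw [h2]
  simp [hK]

lemma inD_conj {f f' h : S ≃ₜ S} (hh : ContinuousMap.Homotopic
    ((h.symm.trans (f.trans h) : S ≃ₜ S) : C(S, S)) (f' : C(S, S)))
    (u : S → UnitAddCircle) : InD f' u ↔ InD f (fun x => u (h x)) := by
  constructor
  · rintro ⟨F, c, hF, hc, hu⟩
    obtain ⟨G, hG, hGe⟩ := null_of_homotopic hh hc
    refine ⟨fun x => F (h x) + G (h x), fun x => c (h x), by fun_prop, by fun_prop, ?_⟩
    intro x
    have h1 : c (f' (h x)) = c (h (f (h.symm (h x)))) + ((G (h x) : ℝ) : UnitAddCircle) :=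
      hGe (h x)
    rw [Homeomorph.symm_apply_apply] at h1
    simp only
    rw [hu, h1, AddCircle.coe_add]
    abel
  · rintro ⟨F, c, hF, hc, hu⟩
    have hc' : Continuous fun x => c (h.symm x) := by fun_prop
    obtain ⟨G, hG, hGe⟩ := null_of_homotopic hh hc'
    refine ⟨fun x => F (h.symm x) - G x, fun x => c (h.symm x), by fun_prop, by fun_prop, ?_⟩
    intro x
    have h1 : c (h.symm (f' x)) = c (h.symm (h (f (h.symm x)))) + ((G x : ℝ) : UnitAddCircle) :=
      hGe x
    rw [Homeomorph.symm_apply_apply] at h1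
    have h2 := hu (h.symm x)
    simp only [Homeomorph.apply_symm_apply] at h2
    simp only
    rw [h2, h1, AddCircle.coe_sub]
    abel

/-- The invariant only depends on the conjugacy class. -/
lemma J_eq_of_conj (l : ℕ) {f f' : S ≃ₜ S} (hconj : ConjugateMCG f f') : J l f = J l f' := by
  obtain ⟨h, hh⟩ := hconj
  ext e
  constructor
  · rintro ⟨he, y, hy, hy1, hy2⟩
    refine ⟨he, fun x => y (h.symm x), by fun_prop, ?_, ?_⟩
    · rw [inD_conj hh]
      simpa using hy1
    · intro z hz hD
      apply hy2 (fun x => z (h x)) (by fun_prop)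
      rw [inD_conj hh] at hD
      simpa using hD
  · rintro ⟨he, y, hy, hy1, hy2⟩
    refine ⟨he, fun x => y (h x), by fun_prop, ?_, ?_⟩
    · rw [inD_conj hh] at hy1
      exact hy1
    · intro z hz hD
      apply hy2 (fun x => z (h.symm x)) (by fun_prop)
      rw [inD_conj hh]
      simpa using hD

/-- Functions which agree modulo `l` cannot both witness different exponents. -/
lemma J_finite_aux (l : ℕ) {f : S → S} {e e' : ℕ} (he : 1 ≤ e) (hee : e < e')
    {y y' : S → UnitAddCircle}
    (h1 : InD f (fun x => l ^ e • y x))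
    (h2 : ∀ z : S → UnitAddCircle, Continuous z →
      ¬ InD f (fun x => l ^ (e' - 1) • y' x - l ^ e' • z x))
    {z : S → UnitAddCircle} (hz : Continuous z) (h : ∀ x, y' x = y x + l • z x) : False := by
  apply h2 z hz
  have h3 := h1.nsmul (l ^ (e' - 1 - e))
  have h4 : (fun x => l ^ (e' - 1 - e) • l ^ e • y x) =
      fun x => l ^ (e' - 1) • y' x - l ^ e' • z x := by
    funext x
    rw [h x, smul_add, smul_smul, smul_smul, ← pow_add, ← pow_succ]
    have e1 : e' - 1 - e + e = e' - 1 := by omega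
    have e2 : e' - 1 + 1 = e' := by omega
    rw [e1, e2]
    abel
  rwa [h4] at h3

end Pool.Agent.SimpleSpectrum
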