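import Pool.Agent.SimpleSpectrum.Shear

/-!
Lifts of the shears to the model surface.
-/

set_option autoImplicit false

open Filter Topology Real

namespace Pool.Agent.SimpleSpectrum

/-- The representative in `[-1/2, 1/2)`. -/
noncomputable def rep (y : UnitAddCircle) : ℝ := (AddCircle.equivIco (1 : ℝ) (-1 / 2) y : ℝ)

lemma coe_rep (y : UnitAddCircle) : ((rep y : ℝ) : UnitAddCircle) = y :=
  AddCircle.coe_equivIco

lemma continuousAt_rep {y : UnitAddCircle} (hy : y ≠ ((1 / 2 : ℝ) : UnitAddCircle)) :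
    ContinuousAt rep y := by
  unfold rep
  apply continuous_subtype_val.continuousAt.comp
  apply AddCircle.continuousAt_equivIco
  intro h
  apply hy
  rw [h]
  have h1 : (-1 / 2 : ℝ) = 1 / 2 - 1 := by norm_num
  rw [h1, AddCircle.coe_sub, AddCircle.coe_period, sub_zero]

lemma rep_coe {x : ℝ} (h1 : -1 / 2 ≤ x) (h2 : x < 1 / 2) : rep (x : UnitAddCircle) = x := by
  unfold rep
  have hx : x ∈ Set.Ico (-1 / 2 : ℝ) (-1 / 2 + 1) := ⟨h1, by linarith⟩
  rw [AddCircle.equivIco_coe_eq hx]

/-- The conjugated shear. -/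
def shearHomeo (γ γ' : UnitAddCircle ≃ₜ UnitAddCircle) (m : ℤ) : Tor ≃ₜ Tor where
  toFun t := (γ.symm (γ t.1 + m • γ' t.2), t.2)
  invFun t := (γ.symm (γ t.1 - m • γ' t.2), t.2)
  left_inv := by
    intro t
    apply Prod.ext
    · simp
    · rfl
  right_inv := by
    intro t
    apply Prod.ext
    · simp
    · rfl
  continuous_toFun := by
    have h1 := γ.continuous
    have h2 := γ.symm.continuous
    have h3 := γ'.continuous
    fun_prop
  continuous_invFun := by
    have h1 := γ.continuous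
    have h2 := γ.symm.continuous
    have h3 := γ'.continuous
    fun_prop

lemma shearHomeo_apply (γ γ' : UnitAddCircle ≃ₜ UnitAddCircle) (m : ℤ) (t : Tor) :
    shearHomeo γ γ' m t = (γ.symm (γ t.1 + m • γ' t.2), t.2) := rfl

section

variable {n n' : ℕ} (h : Adm n) (h' : Adm n') {κ κ' : ℝ} (h0 : 0 < κ) (h1 : κ < 1)
  (h0' : 0 < κ') (h1' : κ' < 1) {m e : ℤ} (hm : (m : ℝ) * κ' = 2 * e * n')

lemma linCirc_zero : (linCirc κ h0 h1).homeo 0 = 0 := by
  have h2 := (linCirc κ h0 h1).homeo_coe 0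
  rw [linCirc_linear κ h0 h1 (by norm_num), mul_zero] at h2
  simpa using h2

include h h' hm in
lemma shear_data : ∃ k : Tor → ℂ, (∀ t, GG n n' t ≠ 0 → ContinuousAt k t) ∧
    (∀ t, GG n n' t ≠ 0 → k t ^ 2 * GG n n' t =
      GG n n' (shearHomeo (linCirc κ h0 h1).homeo (linCirc κ' h0' h1').homeo m t)) ∧
    (∀ t, GG n n' t = 0 →
      shearHomeo (linCirc κ h0 h1).homeo (linCirc κ' h0' h1').homeo m t = t) := by
  set γ := linCirc κ h0 h1 with hγ
  set γ' := linCirc κ' h0' h1' with hγ'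
  set X : Tor → UnitAddCircle := fun t => γ.homeo.symm (γ.homeo t.1 + m • γ'.homeo t.2) with hX
  set Δ : Tor → ℝ := fun t => γ.disp (t.1, (m : ℝ) * γ'.g (rep t.2)) with hΔ
  have hXc : Continuous X := by
    have h1 := γ.homeo.continuous
    have h2 := γ.homeo.symm.continuous
    have h3 := γ'.homeo.continuous
    fun_prop
  have hX0 : ∀ x, X (x, 0) = x := by
    intro x
    simp only [hX]
    rw [hγ', linCirc_zero, smul_zero, add_zero, Homeomorph.symm_apply_apply]
  have hΔX : ∀ t, X t = t.1 + ((Δ t : ℝ) : UnitAddCircle) := by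
    intro t
    simp only [hX, hΔ]
    rw [← CircLift.homeo_symm_add]
    congr 2
    rw [← zsmul_eq_mul, AddCircle.coe_zsmul, ← CircLift.homeo_coe, coe_rep]
  have hmark : ∀ y : UnitAddCircle, rho n' y = 1 → ∃ j : ℤ, (m : ℝ) * γ'.g (rep y) = (2 * j : ℤ) := by
    intro y hy
    rw [rho_eq_one_iff] at hy
    obtain ⟨k, hk0, hk, rfl⟩ := hy
    refine ⟨e * k, ?_⟩
    have hn' : (0 : ℝ) < n' := by exact_mod_cast h'.pos
    have hk2 : (2 : ℝ) * |(k : ℝ)| ≤ n' - 1 := by
      have h3 := h'.two_mul (le_refl ((n' - 1) / 2))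
      have h4 : 2 * |k| ≤ (n' : ℤ) - 1 := by
        have : 2 * ((n' - 1) / 2 : ℕ) ≤ n' - 1 := by omega
        have h5 : (2 * ((n' - 1) / 2 : ℕ) : ℤ) ≤ n' - 1 := by
          have := h'.pos
          omega
        linarith
      exact_mod_cast h4
    have h25 : |(k : ℝ) / n'| ≤ 12 / 25 := by
      rw [abs_div, abs_of_pos hn', div_le_iff₀ hn']
      rcases h' with rfl | rfl
      · push_cast at hk2 ⊢
        linarith
      · push_cast at hk2 ⊢
        linarith
    rw [rep_coe, hγ', linCirc_linear κ' h0' h1' h25]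
    · push_cast
      have : (m : ℝ) * (κ' * (k / n')) = (m * κ') * k / n' := by ring
      rw [this, hm]
      field_simp
    · rw [abs_le] at h25
      linarith [h25.1]
    · rw [abs_le] at h25
      linarith [h25.2]
  have hΔ2 : ∀ t : Tor, rho n' t.2 = 1 → ∃ j : ℤ, Δ t = 2 * j := by
    intro t ht
    obtain ⟨j, hj⟩ := hmark t.2 ht
    refine ⟨j, ?_⟩
    simp only [hΔ]
    rw [hj, CircLift.disp_int]
    push_cast
    ring
  have hΔc : ∀ t : Tor, rho n' t.2 ≤ 1 → ContinuousAt Δ t := by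
    intro t ht
    have hne : t.2 ≠ ((1 / 2 : ℝ) : UnitAddCircle) := by
      intro h2
      rw [h2] at ht
      exact absurd (rho_half h') (not_lt.mpr ht)
    have c1 : ContinuousAt (fun t : Tor => rep t.2) t :=
      ContinuousAt.comp (f := fun t : Tor => t.2) (continuousAt_rep hne) continuousAt_snd
    have c2 : ContinuousAt (fun t : Tor => (t.1, (m : ℝ) * γ'.g (rep t.2))) t :=
      continuousAt_fst.prodMk (continuousAt_const.mul (γ'.g.continuous.continuousAt.comp c1))
    exact ContinuousAt.comp (f := fun t : Tor => (t.1, (m : ℝ) * γ'.g (rep t.2)))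
      γ.continuous_disp.continuousAt c2
  obtain ⟨k, hk1, hk2⟩ := shear_sqrt h h' X Δ hXc hX0 hΔc hΔX hΔ2
  refine ⟨k, hk1, hk2, ?_⟩
  intro t ht
  rw [shearHomeo_apply]
  apply Prod.ext
  · show X t = t.1
    rcases (GG_eq_zero_iff h h' t).mp ht with ⟨h2, -⟩ | ⟨-, h2⟩
    · have h3 : t = (t.1, 0) := Prod.ext rfl h2
      rw [h3, hX0]
    · obtain ⟨j, hj⟩ := hΔ2 t h2
      rw [hΔX, hj]
      have : ((2 * j : ℝ) : UnitAddCircle) = 0 := by
        rw [coe_eq_zero_iff_int]
        exact ⟨2 * j, by push_cast; ring⟩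
      rw [this, add_zero]
  · rfl

include h h' hm in
/-- Lift of the horizontal shear. -/
lemma exists_lift_horizontal : ∃ f : SG (GG n n') ≃ₜ SG (GG n n'), ∀ x,
    (f x).pr = shearHomeo (linCirc κ h0 h1).homeo (linCirc κ' h0' h1').homeo m x.pr := by
  obtain ⟨k, hk1, hk2, hk3⟩ := shear_data h h' h0 h1 h0' h1' hm
  apply SG.exists_lift (continuous_GG n n') _ k hk1 hk2
  · intro t ht
    rw [hk3 t ht]
    exact ht
  · intro t ht
    have h2 := hk3 t ht
    have h3 := congrArg
      (shearHomeo (linCirc κ h0 h1).homeo (linCirc κ' h0' h1').homeo m).symm h2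
    rw [Homeomorph.symm_apply_apply] at h3
    rw [← h3]
    exact ht

include h h' hm in
/-- Lift of the vertical shear. -/
lemma exists_lift_vertical : ∃ f : SG (GG n' n) ≃ₜ SG (GG n' n), ∀ x,
    (f x).pr = (shearHomeo (linCirc κ h0 h1).homeo (linCirc κ' h0' h1').homeo m x.pr.swap).swap := by
  obtain ⟨k, hk1, hk2, hk3⟩ := shear_data h h' h0 h1 h0' h1' hm
  have hsw : ∀ t : Tor, GG n' n t = GG n n' t.swap := fun t => GG_swap n' n t.1 t.2
  apply SG.exists_lift (continuous_GG n' n)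
    (((Homeomorph.prodComm _ _).trans
      (shearHomeo (linCirc κ h0 h1).homeo (linCirc κ' h0' h1').homeo m)).trans
      (Homeomorph.prodComm _ _)) (fun t => k t.swap)
  · intro t ht
    rw [hsw] at ht
    exact ContinuousAt.comp (f := fun t : Tor => t.swap) (hk1 _ ht) continuous_swap.continuousAt
  · intro t ht
    rw [hsw] at ht
    rw [hsw t]
    rw [hk2 _ ht, hsw]
    rfl
  · intro t ht
    rw [hsw] at ht
    have h2 := hk3 _ ht
    rw [hsw]
    show GG n n' ((shearHomeo (linCirc κ h0 h1).homeo (linCirc κ' h0' h1').homeo m t.swap).swap.swap) = 0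
    rw [Prod.swap_swap, h2]
    exact ht
  · intro t ht
    rw [hsw] at ht
    have h2 := hk3 _ ht
    have h3 := congrArg
      (shearHomeo (linCirc κ h0 h1).homeo (linCirc κ' h0' h1').homeo m).symm h2
    rw [Homeomorph.symm_apply_apply] at h3
    rw [hsw]
    show GG n n' (((shearHomeo (linCirc κ h0 h1).homeo
      (linCirc κ' h0' h1').homeo m).symm t.swap).swap.swap) = 0
    rw [Prod.swap_swap, ← h3]
    exact ht

end

end Pool.Agent.SimpleSpectrum
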