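import Pool.Agent.SimpleSpectrum.Deriv

/-!
The model surface with the half-translation structures and pseudo-Anosov maps.
-/

set_option autoImplicit false

open Filter Topology Real

namespace Pool.Agent.SimpleSpectrum

lemma adm9 : Adm 9 := Or.inl rfl
lemma adm13 : Adm 13 := Or.inr rfl

/-- The model surface. -/
abbrev S₀ : Type := SG (GG 13 9)

instance : CompactSpace S₀ := SG.compactSpace (continuous_GG 13 9)

namespace Par

variable (p : Par)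

noncomputable def κ₁ : ℝ := 26 / p.c
noncomputable def κ₂ : ℝ := 18 / p.b

lemma κ₁_pos : 0 < p.κ₁ := div_pos (by norm_num) p.c_pos
lemma κ₂_pos : 0 < p.κ₂ := div_pos (by norm_num) p.b_pos

lemma κ₁_lt : p.κ₁ < 1 := by
  unfold κ₁
  rw [div_lt_one p.c_pos]
  have : (43 : ℝ) ≤ p.c := by exact_mod_cast p.c_ge
  linarith

lemma κ₂_lt : p.κ₂ < 1 := by
  unfold κ₂
  rw [div_lt_one p.b_pos]
  have : (43 : ℝ) ≤ p.b := by exact_mod_cast p.hb
  linarith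

noncomputable def γ₁ : CircLift := linCirc p.κ₁ p.κ₁_pos p.κ₁_lt
noncomputable def γ₂ : CircLift := linCirc p.κ₂ p.κ₂_pos p.κ₂_lt

/-- The homeomorphism of the torus moving the marks to the branch points. -/
noncomputable def Γ : Tor ≃ₜ Tor := p.γ₁.homeo.prodCongr p.γ₂.homeo

lemma Γ_apply (t : Tor) : p.Γ t = (p.γ₁.homeo t.1, p.γ₂.homeo t.2) := rfl

lemma Γ_coe {v : ℝ × ℝ} (h1 : |v.1| ≤ 12 / 25) (h2 : |v.2| ≤ 12 / 25) :
    p.Γ (proj v) = proj (p.κ₁ * v.1, p.κ₂ * v.2) := by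
  rw [Γ_apply]
  show (p.γ₁.homeo ((v.1 : ℝ) : UnitAddCircle), p.γ₂.homeo ((v.2 : ℝ) : UnitAddCircle)) = _
  rw [CircLift.homeo_coe, CircLift.homeo_coe, γ₁, γ₂, linCirc_linear _ _ _ h1,
    linCirc_linear _ _ _ h2]
  rfl

lemma mark13 {k : ℤ} (hk : |k| ≤ 6) : |(k : ℝ) / 13| ≤ 12 / 25 := by
  rw [abs_div, abs_of_pos (by norm_num : (0 : ℝ) < 13), div_le_iff₀ (by norm_num)]
  have : |(k : ℝ)| ≤ 6 := by exact_mod_cast hk
  linarith

lemma mark9 {k : ℤ} (hk : |k| ≤ 4) : |(k : ℝ) / 9| ≤ 12 / 25 := by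
  rw [abs_div, abs_of_pos (by norm_num : (0 : ℝ) < 9), div_le_iff₀ (by norm_num)]
  have : |(k : ℝ)| ≤ 4 := by exact_mod_cast hk
  linarith

lemma Γ_mark₁ {k : ℤ} (hk : |k| ≤ 6) : p.Γ (proj ((k : ℝ) / 13, 0)) = p.e₁ k := by
  rw [Γ_coe p (mark13 hk) (by norm_num), e₁]
  congr 1
  apply Prod.ext
  · simp only [κ₁]
    push_cast
    ring
  · simp

lemma Γ_mark₂ {k : ℤ} (hk : |k| ≤ 4) : p.Γ (proj (0, (k : ℝ) / 9)) = p.e₂ k := by
  rw [Γ_coe p (by norm_num) (mark9 hk), e₂]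
  congr 1
  apply Prod.ext
  · simp
  · simp only [κ₂]
    push_cast
    ring

lemma zero_iff (t : Tor) : GG 13 9 t = 0 ↔
    (∃ k : ℤ, k ≠ 0 ∧ |k| ≤ 6 ∧ t = proj ((k : ℝ) / 13, 0)) ∨
    (∃ k : ℤ, k ≠ 0 ∧ |k| ≤ 4 ∧ t = proj (0, (k : ℝ) / 9)) := by
  rw [GG_eq_zero_iff adm13 adm9, rho_eq_one_iff, rho_eq_one_iff]
  have e1 : (((13 - 1) / 2 : ℕ) : ℤ) = 6 := by norm_num
  have e2 : (((9 - 1) / 2 : ℕ) : ℤ) = 4 := by norm_num
  rw [e1, e2]
  constructor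
  · rintro (⟨h1, k, h2, h3, h4⟩ | ⟨h1, k, h2, h3, h4⟩)
    · refine Or.inl ⟨k, h2, h3, ?_⟩
      apply Prod.ext
      · rw [h4]; simp [proj]
      · rw [h1]; simp [proj]
    · refine Or.inr ⟨k, h2, h3, ?_⟩
      apply Prod.ext
      · rw [h1]; simp [proj]
      · rw [h4]; simp [proj]
  · rintro (⟨k, h2, h3, rfl⟩ | ⟨k, h2, h3, rfl⟩)
    · exact Or.inl ⟨by simp [proj], k, h2, h3, by simp [proj]⟩
    · exact Or.inr ⟨by simp [proj], k, h2, h3, by simp [proj]⟩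

lemma Γ_mem_P_iff (t : Tor) : p.Γ t ∈ p.P ↔ GG 13 9 t = 0 := by
  rw [zero_iff, mem_P]
  constructor
  · rintro (⟨k, h1, h2, h3⟩ | ⟨k, h1, h2, h3⟩)
    · rw [← p.Γ_mark₁ h2] at h3
      exact Or.inl ⟨k, h1, h2, p.Γ.injective h3⟩
    · rw [← p.Γ_mark₂ h2] at h3
      exact Or.inr ⟨k, h1, h2, p.Γ.injective h3⟩
  · rintro (⟨k, h1, h2, rfl⟩ | ⟨k, h1, h2, rfl⟩)
    · exact Or.inl ⟨k, h1, h2, p.Γ_mark₁ h2⟩
    · exact Or.inr ⟨k, h1, h2, p.Γ_mark₂ h2⟩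

/-- The cover of the torus. -/
noncomputable def cover : TorusCover S₀ := SG.cover (continuous_GG 13 9) p.Γ p.P p.Γ_mem_P_iff

lemma cover_P : p.cover.P = p.P := rfl

lemma cover_φ (x : S₀) : p.cover.φ x = p.Γ x.pr := rfl

/-- The coordinate change. -/
noncomputable def D : (ℝ × ℝ) →L[ℝ] (ℝ × ℝ) :=
  (p.κ₁⁻¹ • ContinuousLinearMap.fst ℝ ℝ ℝ).prod (p.κ₂⁻¹ • ContinuousLinearMap.snd ℝ ℝ ℝ)

lemma D_apply (v : ℝ × ℝ) : p.D v = (p.κ₁⁻¹ * v.1, p.κ₂⁻¹ * v.2) := rfl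

lemma D_injective : Function.Injective p.D := by
  intro u v h
  rw [D_apply, D_apply] at h
  have h1 := congrArg Prod.fst h
  have h2 := congrArg Prod.snd h
  simp only at h1 h2
  apply Prod.ext
  · exact mul_left_cancel₀ (inv_ne_zero p.κ₁_pos.ne') h1
  · exact mul_left_cancel₀ (inv_ne_zero p.κ₂_pos.ne') h2

lemma eventually_Γ_symm {v₀ : ℝ × ℝ} (h1 : |v₀.1| < 12 / 25) (h2 : |v₀.2| < 12 / 25) :
    ∀ᶠ ζ in 𝓝 (0 : ℂ), p.Γ.symm (cproj p.L (per p.L (p.κ₁ * v₀.1, p.κ₂ * v₀.2) + ζ)) =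
      proj (v₀ + p.D ((per p.L).symm ζ)) := by
  have hc : Continuous fun ζ : ℂ => v₀ + p.D ((per p.L).symm ζ) :=
    continuous_const.add (p.D.continuous.comp (per p.L).symm.continuous)
  have hc1 : ContinuousAt (fun ζ : ℂ => |(v₀ + p.D ((per p.L).symm ζ)).1|) 0 :=
    (continuous_abs.comp (continuous_fst.comp hc)).continuousAt
  have hc2 : ContinuousAt (fun ζ : ℂ => |(v₀ + p.D ((per p.L).symm ζ)).2|) 0 :=
    (continuous_abs.comp (continuous_snd.comp hc)).continuousAt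
  have e1 : ∀ᶠ ζ in 𝓝 (0 : ℂ), |(v₀ + p.D ((per p.L).symm ζ)).1| < 12 / 25 := by
    apply hc1.eventually_lt continuousAt_const
    simpa using h1
  have e2 : ∀ᶠ ζ in 𝓝 (0 : ℂ), |(v₀ + p.D ((per p.L).symm ζ)).2| < 12 / 25 := by
    apply hc2.eventually_lt continuousAt_const
    simpa using h2
  filter_upwards [e1, e2] with ζ a1 a2
  apply p.Γ.injective
  rw [Homeomorph.apply_symm_apply, Γ_coe p a1.le a2.le, cproj, map_add,
    ContinuousLinearEquiv.symm_apply_apply]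
  congr 1
  rw [D_apply]
  have k1 := p.κ₁_pos.ne'
  have k2 := p.κ₂_pos.ne'
  apply Prod.ext
  · simp only [Prod.fst_add]
    field_simp
  · simp only [Prod.snd_add]
    field_simp

lemma cone_aux {x : S₀} {v₀ : ℝ × ℝ} (h1 : |v₀.1| < 12 / 25) (h2 : |v₀.2| < 12 / 25)
    (hx : x.pr = proj v₀) (h0 : GG 13 9 x.pr = 0) {Λ : (ℝ × ℝ) →L[ℝ] ℂ}
    (hΛ : Function.Injective Λ) (hder : HasFDerivAt (fun v : ℝ × ℝ => GG 13 9 (proj v)) Λ v₀) :
    ∃ w : OpenPartialHomeomorph S₀ ℂ, x ∈ w.source ∧ w x = 0 ∧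
      ∃ z₀ : ℂ, ∀ y ∈ w.source, cproj p.L (w y ^ 2 + z₀) = p.Γ y.pr := by
  apply exists_cone_chart (continuous_GG 13 9) p.Γ p.L x h0
    (per p.L (p.κ₁ * v₀.1, p.κ₂ * v₀.2))
    (by rw [cproj_per, hx, Γ_coe p h1.le h2.le])
    (Λ.comp (p.D.comp ((per p.L).symm : ℂ →L[ℝ] (ℝ × ℝ))))
  · exact hΛ.comp (p.D_injective.comp (per p.L).symm.injective)
  · have hd1 : HasFDerivAt (fun ζ : ℂ => v₀ + p.D ((per p.L).symm ζ))
        (p.D.comp ((per p.L).symm : ℂ →L[ℝ] (ℝ × ℝ))) 0 := by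
      have h3 : HasFDerivAt (fun ζ : ℂ => p.D ((per p.L).symm ζ))
          (p.D.comp ((per p.L).symm : ℂ →L[ℝ] (ℝ × ℝ))) 0 :=
        (p.D.comp ((per p.L).symm : ℂ →L[ℝ] (ℝ × ℝ))).hasFDerivAt
      exact h3.const_add v₀
    have hd2 : HasFDerivAt (fun v : ℝ × ℝ => GG 13 9 (proj v)) Λ
        ((fun ζ : ℂ => v₀ + p.D ((per p.L).symm ζ)) 0) := by
      simpa using hder
    have hd3 := hd2.comp (0 : ℂ) hd1
    apply hd3.congr_of_eventuallyEq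
    filter_upwards [p.eventually_Γ_symm h1 h2] with ζ hζ
    simp only [Function.comp_apply]
    rw [hζ]

/-- The coordinates at the branch points. -/
theorem coneData : p.cover.ConeData p.L := by
  intro x hx
  have h0 : GG 13 9 x.pr = 0 := (p.Γ_mem_P_iff _).mp hx
  have h0' := h0
  rw [zero_iff] at h0'
  rcases h0' with ⟨k, hk0, hk, hx⟩ | ⟨k, hk0, hk, hx⟩
  · obtain ⟨a, ha, hder⟩ := exists_deriv_rho adm13 hk0 (by norm_num; exact hk)
    have h13 : |(k : ℝ) / 13| < 12 / 25 := by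
      rw [abs_div, abs_of_pos (by norm_num : (0 : ℝ) < 13), div_lt_iff₀ (by norm_num)]
      have : |(k : ℝ)| ≤ 6 := by exact_mod_cast hk
      linarith
    have hne : (((k : ℝ) / 13 : ℝ) : UnitAddCircle) ≠ 0 := by
      intro h3
      have h4 := (coe_div_eq_zero (N := 13) (by norm_num) k).mp (by exact_mod_cast h3)
      have h5 := eq_zero_of_dvd h4 (by
        rw [abs_le] at hk
        rw [abs_lt]
        constructor <;> push_cast <;> omega)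
      exact hk0 h5
    obtain ⟨Λ, hΛ, hd⟩ := hasFDerivAt_GG (n := 13) (n' := 9) adm9 ha
      (x₀ := (k : ℝ) / 13) (by exact_mod_cast hder)
      ((rho_eq_one_iff _).mpr ⟨k, hk0, by norm_num; exact hk, by norm_num⟩) hne
    exact p.cone_aux (v₀ := ((k : ℝ) / 13, 0)) h13 (by norm_num) hx h0 hΛ hd
  · obtain ⟨a, ha, hder⟩ := exists_deriv_rho adm9 hk0 (by norm_num; exact hk)
    have h9 : |(k : ℝ) / 9| < 12 / 25 := by
      rw [abs_div, abs_of_pos (by norm_num : (0 : ℝ) < 9), div_lt_iff₀ (by norm_num)]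
      have : |(k : ℝ)| ≤ 4 := by exact_mod_cast hk
      linarith
    have hne : (((k : ℝ) / 9 : ℝ) : UnitAddCircle) ≠ 0 := by
      intro h3
      have h4 := (coe_div_eq_zero (N := 9) (by norm_num) k).mp (by exact_mod_cast h3)
      have h5 := eq_zero_of_dvd h4 (by
        rw [abs_le] at hk
        rw [abs_lt]
        constructor <;> push_cast <;> omega)
      exact hk0 h5
    obtain ⟨Λ, hΛ, hd⟩ := hasFDerivAt_GG (n := 9) (n' := 13) adm13 ha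
      (x₀ := (k : ℝ) / 9) (by exact_mod_cast hder)
      ((rho_eq_one_iff _).mpr ⟨k, hk0, by norm_num; exact hk, by norm_num⟩) hne
    -- swap the coordinates
    have hsw : HasFDerivAt (fun v : ℝ × ℝ => GG 13 9 (proj v))
        (Λ.comp (ContinuousLinearEquiv.prodComm ℝ ℝ ℝ : (ℝ × ℝ) →L[ℝ] (ℝ × ℝ)))
        (0, (k : ℝ) / 9) := by
      have h1 : HasFDerivAt (fun v : ℝ × ℝ => v.swap)
          (ContinuousLinearEquiv.prodComm ℝ ℝ ℝ : (ℝ × ℝ) →L[ℝ] (ℝ × ℝ)) (0, (k : ℝ) / 9) :=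
        (ContinuousLinearEquiv.prodComm ℝ ℝ ℝ : (ℝ × ℝ) →L[ℝ] (ℝ × ℝ)).hasFDerivAt
      have h2 : HasFDerivAt (fun v : ℝ × ℝ => GG 9 13 (proj v)) Λ
          ((fun v : ℝ × ℝ => v.swap) (0, (k : ℝ) / 9)) := hd
      have h3 := h2.comp (0, (k : ℝ) / 9) h1
      have h4 : (fun v : ℝ × ℝ => GG 13 9 (proj v)) =
          (fun v : ℝ × ℝ => GG 9 13 (proj v)) ∘ (fun v : ℝ × ℝ => v.swap) := by
        funext v
        exact GG_swap 13 9 _ _
      rw [h4]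
      exact h3
    exact p.cone_aux (v₀ := (0, (k : ℝ) / 9)) (by norm_num) h9 hx h0
      (fun u v huv => (ContinuousLinearEquiv.prodComm ℝ ℝ ℝ).injective (hΛ huv)) hsw

/-- The pseudo-Anosov map. -/
theorem exists_f : ∃ f : S₀ ≃ₜ S₀, ∀ x, p.cover.φ (f x) =
    act 1 p.b (-p.c) (1 - p.b * p.c) (p.cover.φ x) := by
  have hb := p.b_pos.ne'
  have hc := p.c_pos.ne'
  obtain ⟨f₁, hf₁⟩ := exists_lift_horizontal adm13 adm9 p.κ₁_pos p.κ₁_lt p.κ₂_pos p.κ₂_lt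
    (m := p.b) (e := 1) (by
      unfold κ₂
      push_cast
      field_simp
      norm_num)
  obtain ⟨f₂, hf₂⟩ := exists_lift_vertical adm9 adm13 p.κ₂_pos p.κ₂_lt p.κ₁_pos p.κ₁_lt
    (m := -p.c) (e := -1) (by
      unfold κ₁
      push_cast
      field_simp
      norm_num)
  refine ⟨f₁.trans f₂, ?_⟩
  intro x
  rw [cover_φ, cover_φ, Homeomorph.trans_apply, hf₂, hf₁, shearHomeo_apply, shearHomeo_apply,
    Γ_apply, Γ_apply]
  have e1 : linCirc p.κ₁ p.κ₁_pos p.κ₁_lt = p.γ₁ := rfl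
  have e2 : linCirc p.κ₂ p.κ₂_pos p.κ₂_lt = p.γ₂ := rfl
  rw [e1, e2]
  simp only [Prod.swap, act, Homeomorph.apply_symm_apply]
  apply Prod.ext
  · simp
  · simp only [smul_add, smul_smul, sub_smul, one_smul, neg_smul, neg_mul]
    have h3 : ((p.c : ℤ) * (p.b : ℤ)) = (p.b : ℤ) * (p.c : ℤ) := mul_comm _ _
    rw [h3]
    abel

end Par

end Pool.Agent.SimpleSpectrum
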