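import Pool.Agent.SimpleSpectrum.Cone
import Pool.Agent.SimpleSpectrum.Circ

/-!
The function `G` on the torus defining the model surface.
-/

set_option autoImplicit false

open Filter Topology Real

namespace Pool.Agent.SimpleSpectrum

/-- The standard character of the circle. -/
noncomputable def E (x : UnitAddCircle) : ℂ := (AddCircle.toCircle x : ℂ)

lemma E_coe (x : ℝ) : E (x : UnitAddCircle) = Complex.exp (2 * π * x * Complex.I) := by
  rw [E, AddCircle.toCircle_apply_mk, Circle.coe_exp]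
  congr 1
  push_cast
  ring

lemma continuous_E : Continuous E := by
  unfold E
  exact continuous_subtype_val.comp AddCircle.continuous_toCircle

lemma norm_E (x : UnitAddCircle) : ‖E x‖ = 1 := Circle.norm_coe _

lemma E_injective : Function.Injective E := by
  intro x y h
  exact AddCircle.injective_toCircle one_ne_zero (Subtype.ext h)

lemma E_zero : E 0 = 1 := by
  unfold E
  simp

lemma E_neg (x : UnitAddCircle) : E (-x) * E x = 1 := by
  unfold E
  rw [AddCircle.toCircle_neg]
  simp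

lemma E_add (x y : UnitAddCircle) : E (x + y) = E x * E y := by
  unfold E
  rw [AddCircle.toCircle_add]
  simp

lemma E_re (x : ℝ) : (E (x : UnitAddCircle)).re = cos (2 * π * x) := by
  rw [E_coe]
  have : (2 * π * x * Complex.I : ℂ) = ((2 * π * x : ℝ) : ℂ) * Complex.I := by push_cast; ring
  rw [this, Complex.exp_ofReal_mul_I_re]

lemma E_im (x : ℝ) : (E (x : UnitAddCircle)).im = sin (2 * π * x) := by
  rw [E_coe]
  have : (2 * π * x * Complex.I : ℂ) = ((2 * π * x : ℝ) : ℂ) * Complex.I := by push_cast; ring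
  rw [this, Complex.exp_ofReal_mul_I_im]

/-- A real number of norm one which is positive equals one. -/
lemma E_eq_real {x : UnitAddCircle} {a : ℝ} (ha : 0 < a) (h : E x = a) : x = 0 ∧ a = 1 := by
  have h1 : a = 1 := by
    have h2 := norm_E x
    rw [h, Complex.norm_real, Real.norm_of_nonneg ha.le] at h2
    exact h2
  refine ⟨?_, h1⟩
  apply E_injective
  rw [h, h1, E_zero]
  simp

/-- The function with zeros of `rho - 1` at `± k / n`. -/
noncomputable def rho (n : ℕ) (x : UnitAddCircle) : ℝ :=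
  1 + (1 / 100) * ∏ k ∈ Finset.Icc 1 ((n - 1) / 2), ((E x).re - cos (2 * π * (k / n)))

/-- The admissible values. -/
def Adm (n : ℕ) : Prop := n = 9 ∨ n = 13

lemma Adm.pos {n : ℕ} (h : Adm n) : 0 < n := by rcases h with rfl | rfl <;> norm_num
lemma Adm.half_le {n : ℕ} (h : Adm n) : (n - 1) / 2 ≤ 6 := by
  rcases h with rfl | rfl <;> norm_num
lemma Adm.even {n : ℕ} (h : Adm n) : Even ((n - 1) / 2) := by
  rcases h with rfl | rfl <;> decide
lemma Adm.two_mul {n : ℕ} (h : Adm n) {k : ℕ} (hk : k ≤ (n - 1) / 2) : 2 * k < n := by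
  rcases h with rfl | rfl <;> omega

lemma continuous_rho (n : ℕ) : Continuous (rho n) := by
  unfold rho
  apply continuous_const.add
  apply continuous_const.mul
  apply continuous_finsetProd
  intro k _
  exact (Complex.continuous_re.comp continuous_E).sub continuous_const

lemma abs_E_re (x : UnitAddCircle) : |(E x).re| ≤ 1 := by
  rw [← norm_E x]
  exact Complex.abs_re_le_norm _

lemma abs_prod_le {n : ℕ} (h : Adm n) (x : UnitAddCircle) :
    |∏ k ∈ Finset.Icc 1 ((n - 1) / 2), ((E x).re - cos (2 * π * ((k : ℝ) / n)))| ≤ 64 := by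
  rw [Finset.abs_prod]
  calc ∏ k ∈ Finset.Icc 1 ((n - 1) / 2), |(E x).re - cos (2 * π * ((k : ℝ) / n))|
      ≤ ∏ k ∈ Finset.Icc 1 ((n - 1) / 2), (2 : ℝ) := by
        apply Finset.prod_le_prod
        · intro i _; exact abs_nonneg _
        · intro i _
          have h1 := abs_E_re x
          have h2 := abs_cos_le_one (2 * π * ((i : ℝ) / n))
          calc |(E x).re - cos (2 * π * ((i : ℝ) / n))|
              ≤ |(E x).re| + |cos (2 * π * ((i : ℝ) / n))| := abs_sub _ _
            _ ≤ 2 := by linarith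
    _ = 2 ^ ((n - 1) / 2) := by simp
    _ ≤ 2 ^ 6 := pow_le_pow_right₀ (by norm_num) h.half_le
    _ = 64 := by norm_num

lemma rho_pos {n : ℕ} (h : Adm n) (x : UnitAddCircle) : 0 < rho n x := by
  have h1 := abs_prod_le h x
  rw [abs_le] at h1
  unfold rho
  linarith [h1.1]

lemma rho_half {n : ℕ} (h : Adm n) : 1 < rho n ((1 / 2 : ℝ) : UnitAddCircle) := by
  unfold rho
  rw [E_re]
  have h1 : 2 * π * (1 / 2) = π := by ring
  rw [h1, cos_pi]
  have h2 : ∏ k ∈ Finset.Icc 1 ((n - 1) / 2), (-1 - cos (2 * π * ((k : ℝ) / n))) =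
      ∏ k ∈ Finset.Icc 1 ((n - 1) / 2), (1 + cos (2 * π * ((k : ℝ) / n))) := by
    have h3 : ∀ k : ℕ, -1 - cos (2 * π * ((k : ℝ) / n)) =
        (-1) * (1 + cos (2 * π * ((k : ℝ) / n))) := by
      intro k; ring
    simp only [h3]
    rw [Finset.prod_mul_distrib, Finset.prod_const, Nat.card_Icc, Nat.add_sub_cancel,
      h.even.neg_one_pow, one_mul]
  rw [h2]
  have h3 : 0 < ∏ k ∈ Finset.Icc 1 ((n - 1) / 2), (1 + cos (2 * π * ((k : ℝ) / n))) := by
    apply Finset.prod_pos
    intro k hk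
    rw [Finset.mem_Icc] at hk
    have hn := h.pos
    have hkn := h.two_mul hk.2
    have h4 : -1 < cos (2 * π * ((k : ℝ) / n)) := by
      rw [← cos_pi]
      apply cos_lt_cos_of_nonneg_of_le_pi
      · positivity
      · exact le_rfl
      · have h5 : (k : ℝ) / n < 1 / 2 := by
          rw [div_lt_div_iff₀ (by exact_mod_cast hn) (by norm_num)]
          have : ((2 * k : ℕ) : ℝ) < n := by exact_mod_cast hkn
          push_cast at this
          linarith
        nlinarith [pi_pos]
    linarith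
  linarith

lemma prod_eq_zero_iff {n : ℕ} (x : UnitAddCircle) : rho n x = 1 ↔
    ∃ k : ℕ, 1 ≤ k ∧ k ≤ (n - 1) / 2 ∧ (E x).re = cos (2 * π * ((k : ℝ) / n)) := by
  unfold rho
  constructor
  · intro h
    have h1 : ∏ k ∈ Finset.Icc 1 ((n - 1) / 2), ((E x).re - cos (2 * π * ((k : ℝ) / n))) = 0 := by
      linarith
    rw [Finset.prod_eq_zero_iff] at h1
    obtain ⟨k, hk, h2⟩ := h1
    rw [Finset.mem_Icc] at hk
    exact ⟨k, hk.1, hk.2, by linarith⟩
  · rintro ⟨k, h1, h2, h3⟩
    have h4 : ∏ k ∈ Finset.Icc 1 ((n - 1) / 2), ((E x).re - cos (2 * π * ((k : ℝ) / n))) = 0 := by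
      apply Finset.prod_eq_zero (Finset.mem_Icc.mpr ⟨h1, h2⟩)
      rw [h3, sub_self]
    rw [h4]
    ring

/-- The marks on the circle. -/
lemma rho_eq_one_iff {n : ℕ} (x : UnitAddCircle) : rho n x = 1 ↔
    ∃ k : ℤ, k ≠ 0 ∧ |k| ≤ ((n - 1) / 2 : ℕ) ∧ x = (((k : ℝ) / n : ℝ) : UnitAddCircle) := by
  rw [prod_eq_zero_iff]
  constructor
  · rintro ⟨k, h1, h2, h3⟩
    obtain ⟨x, rfl⟩ := QuotientAddGroup.mk_surjective x
    have h4 : (E ((x : ℝ) : UnitAddCircle)).re = cos (2 * π * ((k : ℝ) / n)) := h3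
    rw [E_re, cos_eq_cos_iff] at h4
    obtain ⟨m, h5 | h5⟩ := h4
    · refine ⟨k, by omega, by rw [abs_of_nonneg (by omega)]; exact_mod_cast h2, ?_⟩
      have h6 : x = (k : ℝ) / n - m := by
        have hpi := pi_pos.ne'
        have : π * (2 * ((k : ℝ) / n) - 2 * m - 2 * x) = 0 := by linarith
        rcases mul_eq_zero.mp this with h | h
        · exact absurd h hpi
        · linarith
      show ((x : ℝ) : UnitAddCircle) = _
      rw [h6, AddCircle.coe_sub]
      have : ((m : ℝ) : UnitAddCircle) = 0 := (coe_eq_zero_iff_int _).mpr ⟨m, rfl⟩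
      rw [this, sub_zero]
      simp
    · refine ⟨-k, by omega, by rw [abs_neg, abs_of_nonneg (by omega)]; exact_mod_cast h2, ?_⟩
      have h6 : x = -((k : ℝ) / n) + m := by
        have hpi := pi_pos.ne'
        have : π * (2 * ((k : ℝ) / n) - 2 * m + 2 * x) = 0 := by linarith
        rcases mul_eq_zero.mp this with h | h
        · exact absurd h hpi
        · linarith
      show ((x : ℝ) : UnitAddCircle) = _
      rw [h6, AddCircle.coe_add]
      have : ((m : ℝ) : UnitAddCircle) = 0 := (coe_eq_zero_iff_int _).mpr ⟨m, rfl⟩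
      rw [this, add_zero]
      congr 1
      push_cast
      ring
  · rintro ⟨k, h1, h2, rfl⟩
    have hk1 : 1 ≤ k.natAbs := by omega
    have hk2 : k.natAbs ≤ (n - 1) / 2 := by
      have h3 : ((k.natAbs : ℕ) : ℤ) ≤ (((n - 1) / 2 : ℕ) : ℤ) := by
        rw [Int.natCast_natAbs]
        exact h2
      exact_mod_cast h3
    refine ⟨k.natAbs, hk1, hk2, ?_⟩
    rw [E_re]
    rcases le_total 0 k with h | h
    · have : ((k.natAbs : ℕ) : ℝ) = k := by
        rw [Nat.cast_natAbs, abs_of_nonneg h]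
      rw [this]
    · have : ((k.natAbs : ℕ) : ℝ) = -k := by
        rw [Nat.cast_natAbs, abs_of_nonpos h]
        push_cast
        ring
      rw [this, ← cos_neg]
      congr 1
      ring

/-- The function defining the model surface. -/
noncomputable def GG (n n' : ℕ) (t : Tor) : ℂ :=
  (E t.2 - rho n t.1) * (E t.1 - rho n' t.2)

lemma continuous_GG (n n' : ℕ) : Continuous (GG n n') := by
  unfold GG
  have h1 := continuous_E
  have h2 := continuous_rho n
  have h3 := continuous_rho n'
  fun_prop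

lemma GG_swap (n n' : ℕ) (x y : UnitAddCircle) : GG n n' (x, y) = GG n' n (y, x) := by
  unfold GG
  ring

lemma factor_eq_zero_iff {n : ℕ} (h : Adm n) (x y : UnitAddCircle) :
    E y - rho n x = 0 ↔ y = 0 ∧ rho n x = 1 := by
  constructor
  · intro h1
    have h2 : E y = rho n x := sub_eq_zero.mp h1
    exact E_eq_real (rho_pos h x) h2
  · rintro ⟨rfl, h2⟩
    rw [h2, E_zero]
    simp

lemma GG_eq_zero_iff {n n' : ℕ} (h : Adm n) (h' : Adm n') (t : Tor) :
    GG n n' t = 0 ↔ (t.2 = 0 ∧ rho n t.1 = 1) ∨ (t.1 = 0 ∧ rho n' t.2 = 1) := by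
  unfold GG
  rw [mul_eq_zero, factor_eq_zero_iff h, factor_eq_zero_iff h']

end Pool.Agent.SimpleSpectrum
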