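import Pool.Agent.SimpleSpectrum.Cover
import Pool.Agent.SimpleSpectrum.FunctionTheory

/-!
Rigidity of biholomorphic maps between the double covers of tori.
-/

set_option autoImplicit false

open Filter Topology Asymptotics

namespace Pool.Agent.SimpleSpectrum

namespace TorusCover

variable {S : Type} [TopologicalSpace S] (C : TorusCover S)

/-- A chosen preimage. -/
noncomputable def pt (θ : Tor) : S := Classical.choose (C.φ_surj θ)

lemma φ_pt (θ : Tor) : C.φ (C.pt θ) = θ := Classical.choose_spec (C.φ_surj θ)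

lemma eq_pt_or (x : S) : x = C.pt (C.φ x) ∨ x = C.τ (C.pt (C.φ x)) :=
  (C.fiber (C.pt (C.φ x)) x).mp (C.φ_pt _)

/-- Two local sections with the same value are equal. -/
lemma eventually_section_eq [T2Space S] (L : PeriodPair) {z₀ : ℂ} {σ₁ σ₂ : ℂ → S}
    (h₁ : ContinuousAt σ₁ z₀) (h₂ : ContinuousAt σ₂ z₀) (h : σ₂ z₀ = σ₁ z₀)
    (hP : C.φ (σ₁ z₀) ∉ C.P)
    (hs₁ : ∀ᶠ z in 𝓝 z₀, C.φ (σ₁ z) = cproj L z) (hs₂ : ∀ᶠ z in 𝓝 z₀, C.φ (σ₂ z) = cproj L z) :
    ∀ᶠ z in 𝓝 z₀, σ₂ z = σ₁ z := by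
  obtain ⟨U, hU, hxU, hinj, -⟩ := C.exists_injOn hP
  have hU2 : U ∈ 𝓝 (σ₂ z₀) := by
    rw [h]
    exact hU.mem_nhds hxU
  filter_upwards [h₁.eventually (hU.mem_nhds hxU), h₂.eventually hU2, hs₁, hs₂] with z a b c d
  exact hinj b a (d.trans c.symm)

section dichotomy

variable (L' : PeriodPair) (c : ℂ) (Φ : S → S)

noncomputable def gfun (x : S) : ℂ := Gc L' c (C.φ (Φ x))

noncomputable def dfun (x : S) : ℂ := C.gfun L' c Φ x - C.gfun L' c Φ (C.τ x)

noncomputable def esq (θ : Tor) : ℂ := C.dfun L' c Φ (C.pt θ) ^ 2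

lemma dfun_τ (x : S) : C.dfun L' c Φ (C.τ x) = -C.dfun L' c Φ x := by
  simp [dfun, C.τ_invol]

lemma esq_φ (x : S) : C.esq L' c Φ (C.φ x) = C.dfun L' c Φ x ^ 2 := by
  rcases C.eq_pt_or x with h | h
  · rw [esq, ← h]
  · rw [h, dfun_τ, neg_sq, C.φ_τ, C.φ_pt, esq]

def Good (y : S) : Prop := C.φ (Φ y) = 0 ∨ Pw L' (C.φ (Φ y)) ≠ c

variable {L' c Φ}

lemma continuousAt_gfun (hΦ : Continuous Φ) {x : S} (h : C.Good L' c Φ x) :
    ContinuousAt (C.gfun L' c Φ) x := by
  have h1 : ContinuousAt (fun x => C.φ (Φ x)) x := (C.φ_cont.comp hΦ).continuousAt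
  exact ContinuousAt.comp (f := fun x => C.φ (Φ x)) (continuousAt_Gc L' h) h1

lemma continuousAt_dfun (hΦ : Continuous Φ) {x : S} (h : C.Good L' c Φ x)
    (h' : C.Good L' c Φ (C.τ x)) : ContinuousAt (C.dfun L' c Φ) x := by
  have h1 := C.continuousAt_gfun hΦ h
  have h2 : ContinuousAt (fun x => C.gfun L' c Φ (C.τ x)) x :=
    ContinuousAt.comp (f := C.τ) (C.continuousAt_gfun hΦ h') C.τ_cont.continuousAt
  exact h1.sub h2

lemma continuousAt_esq (hΦ : Continuous Φ) {x : S} (h : C.Good L' c Φ x)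
    (h' : C.Good L' c Φ (C.τ x)) : ContinuousAt (C.esq L' c Φ) (C.φ x) := by
  have h1 : ContinuousAt (fun x => C.dfun L' c Φ x ^ 2) x := (C.continuousAt_dfun hΦ h h').pow 2
  have h2 : 𝓝 (C.φ x) ≤ map C.φ (𝓝 x) := C.φ_open.nhds_le x
  rw [ContinuousAt, esq_φ]
  apply Tendsto.mono_left _ h2
  rw [tendsto_map'_iff]
  have h3 : C.esq L' c Φ ∘ C.φ = fun x => C.dfun L' c Φ x ^ 2 := by
    funext y
    exact C.esq_φ L' c Φ y
  rw [h3]
  exact h1

variable {L : PeriodPair}

lemma continuousAt_esq_cproj (hΦ : Continuous Φ) {x : S} {z : ℂ} (hz : C.φ x = cproj L z)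
    (h : C.Good L' c Φ x) (h' : C.Good L' c Φ (C.τ x)) :
    ContinuousAt (fun w => C.esq L' c Φ (cproj L w)) z := by
  have h1 : ContinuousAt (C.esq L' c Φ) (cproj L z) := by
    rw [← hz]
    exact C.continuousAt_esq hΦ h h'
  exact ContinuousAt.comp (f := cproj L) h1 (continuous_cproj L).continuousAt

lemma differentiableAt_esq [T2Space S] (hG : C.GermProp L L' Φ) {x : S} {z : ℂ}
    (hz : C.φ x = cproj L z) (hP : C.φ x ∉ C.P) (hP1 : C.φ (Φ x) ∉ C.P)
    (hP2 : C.φ (Φ (C.τ x)) ∉ C.P)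
    (h : C.Good L' c Φ x) (h' : C.Good L' c Φ (C.τ x)) :
    DifferentiableAt ℂ (fun w => C.esq L' c Φ (cproj L w)) z := by
  obtain ⟨σ₁, u₁, e₁, c₁, s₁, d₁, -, g₁⟩ := hG x z hP hP1 hz
  obtain ⟨σ₂, u₂, e₂, c₂, s₂, d₂, -, g₂⟩ := hG (C.τ x) z (by rwa [C.φ_τ]) hP2 (by rwa [C.φ_τ])
  have hrel : ∀ᶠ w in 𝓝 z, σ₂ w = C.τ (σ₁ w) := by
    apply C.eventually_section_eq L (σ₁ := fun w => C.τ (σ₁ w)) (C.τ_cont.continuousAt.comp c₁) c₂
    · rw [e₂, e₁]
    · rw [C.φ_τ, e₁]; exact hP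
    · filter_upwards [s₁] with w hw
      rw [C.φ_τ, hw]
    · exact s₂
  have hd : ∀ (y : S) (σ : ℂ → S) (u : ℂ → ℂ), σ z = y → DifferentiableAt ℂ u z →
      (∀ᶠ w in 𝓝 z, C.φ (Φ (σ w)) = cproj L' (u w)) → C.Good L' c Φ y →
      DifferentiableAt ℂ (fun w => C.gfun L' c Φ (σ w)) z := by
    intro y σ u hy hu hev hgood
    have h0 : C.φ (Φ y) = cproj L' (u z) := by
      rw [← hy]
      exact hev.self_of_nhds
    have h1 : DifferentiableAt ℂ (fun w => Gc L' c (cproj L' w)) (u z) := by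
      apply differentiableAt_Gc
      rw [← h0]
      exact hgood
    apply (h1.comp z hu).congr_of_eventuallyEq
    filter_upwards [hev] with w hw
    simp only [gfun, Function.comp_apply, hw]
  have h1 := hd x σ₁ u₁ e₁ d₁ g₁ h
  have h2 := hd (C.τ x) σ₂ u₂ e₂ d₂ g₂ h'
  apply ((h1.sub h2).pow 2).congr_of_eventuallyEq
  filter_upwards [hrel, s₁] with w hw1 hw2
  rw [← hw2, esq_φ]
  simp only [Pi.pow_apply, Pi.sub_apply]
  rw [hw1, dfun]

/-- The estimate at a pole. -/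
lemma isBigO_gfun {x : S} {z : ℂ} {σ : ℂ → S} {u : ℂ → ℂ} (hσ : σ z = x)
    (hu : DifferentiableAt ℂ u z) (hu' : deriv u z ≠ 0)
    (hev : ∀ᶠ w in 𝓝 z, C.φ (Φ (σ w)) = cproj L' (u w))
    (h0 : C.φ (Φ x) ≠ 0) (hc : Pw L' (C.φ (Φ x)) = c) (h2 : C.φ (Φ x) + C.φ (Φ x) ≠ 0) :
    (fun w => C.gfun L' c Φ (σ w)) =O[𝓝[≠] z] fun w => (w - z)⁻¹ := by
  have hx : C.φ (Φ x) = cproj L' (u z) := by
    rw [← hσ]
    exact hev.self_of_nhds
  rw [hx] at h0 hc h2
  have hL : u z ∉ L'.lattice := (notMem_lattice_iff L').mpr h0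
  have hder : PeriodPair.derivWeierstrassP L' (u z) ≠ 0 := by
    intro h
    have := two_mul_mem_of_wp'_eq_zero L' hL h
    rw [two_mul, ← cproj_eq_zero_iff, cproj_add] at this
    exact h2 this
  have h3 : HasDerivAt (fun w => PeriodPair.weierstrassP L' (u w))
      (PeriodPair.derivWeierstrassP L' (u z) * deriv u z) z :=
    (hasDerivAt_wp L' hL).comp z hu.hasDerivAt
  have h4 := (isBigO_sub_of_hasDerivAt h3 (mul_ne_zero hder hu')).mono
      (nhdsWithin_le_nhds (s := {z}ᶜ))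
  have h5 := h4.inv_rev (by
    filter_upwards [self_mem_nhdsWithin] with w hw h0
    exact absurd (sub_eq_zero.mp h0) hw)
  have hcc : PeriodPair.weierstrassP L' (u z) = c := by rw [← Pw_cproj, hc]
  refine h5.congr' ?_ EventuallyEq.rfl
  have hne : ∀ᶠ w in 𝓝 z, u w ∉ L'.lattice := hu.continuousAt.eventually
    (eventually_notMem_lattice L' hL)
  filter_upwards [hev.filter_mono nhdsWithin_le_nhds, hne.filter_mono nhdsWithin_le_nhds]
    with w hw hw2
  rw [gfun, hw, Gc_of_ne L' ((notMem_lattice_iff L').mp hw2), Pw_cproj, hcc]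

/-- A function continuous at the point is `O((w - z)⁻¹)`. -/
lemma isBigO_inv_of_continuousAt {f : ℂ → ℂ} {z : ℂ} (hf : ContinuousAt f z) :
    f =O[𝓝[≠] z] fun w => (w - z)⁻¹ := by
  have h1 : f =O[𝓝[≠] z] fun _ => (1 : ℂ) :=
    (hf.tendsto.mono_left nhdsWithin_le_nhds).isBigO_one ℂ
  have h2 : (fun w : ℂ => w - z) =O[𝓝[≠] z] fun _ => (1 : ℂ) := by
    have : ContinuousAt (fun w : ℂ => w - z) z := by fun_prop
    exact (this.tendsto.mono_left nhdsWithin_le_nhds).isBigO_one ℂ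
  have h3 : (fun _ : ℂ => (1 : ℂ)) =O[𝓝[≠] z] fun w => (w - z)⁻¹ := by
    have := h2.inv_rev (by
      filter_upwards [self_mem_nhdsWithin] with w hw h0
      exact absurd (sub_eq_zero.mp h0) hw)
    simpa using this
  exact h1.trans h3

lemma isBigO_esq_pole [T2Space S] (hΦ : Continuous Φ) (hG : C.GermProp L L' Φ) {x : S} {z : ℂ}
    (hz : C.φ x = cproj L z) (hP : C.φ x ∉ C.P)
    (h1 : C.Good L' c Φ x ∨ (C.φ (Φ x) ∉ C.P ∧ C.φ (Φ x) + C.φ (Φ x) ≠ 0))
    (h2 : C.Good L' c Φ (C.τ x) ∨ (C.φ (Φ (C.τ x)) ∉ C.P ∧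
      C.φ (Φ (C.τ x)) + C.φ (Φ (C.τ x)) ≠ 0)) :
    (fun w => C.esq L' c Φ (cproj L w)) =O[𝓝[≠] z] fun w => ((w - z) ^ 2)⁻¹ := by
  -- a local section
  obtain ⟨σ, eσ, cσ, sσ⟩ := C.exists_section L hP hz
  have key : ∀ (y : S) (σ : ℂ → S), σ z = y → ContinuousAt σ z →
      (∀ᶠ w in 𝓝 z, C.φ (σ w) = cproj L w) → C.φ y ∉ C.P →
      (C.Good L' c Φ y ∨ (C.φ (Φ y) ∉ C.P ∧ C.φ (Φ y) + C.φ (Φ y) ≠ 0)) →
      (fun w => C.gfun L' c Φ (σ w)) =O[𝓝[≠] z] fun w => (w - z)⁻¹ := by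
    intro y σ hy hσc hσs hyP hcase
    by_cases hgood : C.Good L' c Φ y
    · apply isBigO_inv_of_continuousAt
      have : ContinuousAt (C.gfun L' c Φ) (σ z) := by
        rw [hy]
        exact C.continuousAt_gfun hΦ hgood
      exact this.comp hσc
    · rcases hcase with h | ⟨ha, hb⟩
      · exact absurd h hgood
      · have hzy : C.φ y = cproj L z := by
          rw [← hy]
          exact hσs.self_of_nhds
        obtain ⟨σ₁, u₁, e₁, c₁, s₁, d₁, dd₁, g₁⟩ := hG y z hyP ha hzy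
        have hrel : ∀ᶠ w in 𝓝 z, σ₁ w = σ w := by
          apply C.eventually_section_eq L hσc c₁ (by rw [e₁, hy]) (by rwa [hy]) hσs s₁
        unfold Good at hgood
        push Not at hgood
        have := C.isBigO_gfun (c := c) e₁ d₁ dd₁ g₁ hgood.1 hgood.2 hb
        refine this.congr' ?_ EventuallyEq.rfl
        filter_upwards [hrel.filter_mono nhdsWithin_le_nhds] with w hw
        rw [hw]
  have k1 := key x σ eσ cσ sσ hP h1
  have k2 := key (C.τ x) (fun w => C.τ (σ w)) (by rw [eσ]) (C.τ_cont.continuousAt.comp cσ)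
    (by
      filter_upwards [sσ] with w hw
      rw [C.φ_τ, hw]) (by rwa [C.φ_τ]) h2
  have k3 := (k1.sub k2).pow 2
  have k4 : (fun w : ℂ => ((w - z)⁻¹) ^ 2) = fun w => ((w - z) ^ 2)⁻¹ := by
    funext w
    rw [inv_pow]
  rw [k4] at k3
  refine k3.congr' ?_ EventuallyEq.rfl
  filter_upwards [sσ.filter_mono nhdsWithin_le_nhds] with w hw
  rw [← hw, esq_φ]
  rfl

end dichotomy

lemma countable_two_torsion : {θ : Tor | θ + θ = 0}.Countable := by
  obtain ⟨L⟩ : Nonempty PeriodPair := by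
    refine ⟨⟨1, Complex.I, ?_⟩⟩
    rw [LinearIndependent.pair_iff]
    intro s t h
    have h1 := congrArg Complex.re h
    have h2 := congrArg Complex.im h
    simp at h1 h2
    exact ⟨h1, h2⟩
  have h1 : {θ : Tor | θ + θ = 0} ⊆ cproj L '' ((fun z : ℂ => z + z) ⁻¹' (L.lattice : Set ℂ)) := by
    intro θ hθ
    obtain ⟨z, rfl⟩ := cproj_surjective L θ
    refine ⟨z, ?_, rfl⟩
    simp only [Set.mem_preimage, SetLike.mem_coe]
    rw [← cproj_eq_zero_iff, cproj_add]
    exact hθ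
  refine Set.Countable.mono h1 (Set.Countable.image ?_ _)
  apply Set.Countable.preimage_of_injOn (countable_lattice L)
  intro a _ b _ hab
  simp only at hab
  linear_combination hab / 2

/-- The complement of a finite set of fibres is dense. -/
lemma dense_preimage_compl (F : Finset Tor) : Dense (C.φ ⁻¹' ((F : Set Tor)ᶜ)) := by
  apply Dense.preimage _ C.φ_open
  obtain ⟨L⟩ : Nonempty PeriodPair := by
    refine ⟨⟨1, Complex.I, ?_⟩⟩
    rw [LinearIndependent.pair_iff]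
    intro s t h
    have h1 := congrArg Complex.re h
    have h2 := congrArg Complex.im h
    simp at h1 h2
    exact ⟨h1, h2⟩
  have h1 : Dense ((cproj L ⁻¹' (F : Set Tor))ᶜ) :=
    dense_compl_of_countable (countable_cproj_preimage L F.countable_toSet)
  have h2 := (cproj_surjective L).denseRange.dense_image (continuous_cproj L) h1
  apply h2.mono
  rintro _ ⟨z, hz, rfl⟩
  exact hz

/-- **Rigidity, first step**: a biholomorphic map respects the fibres up to sign. -/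
theorem dichotomy [T2Space S] (Q : Finset Tor) (hQ : 9 ≤ Q.card) (hQneg : ∀ p ∈ Q, -p ∉ Q)
    (hPQ : ∀ θ, θ ∈ C.P ↔ θ ∈ Q ∨ -θ ∈ Q) (L L' : PeriodPair) (Φ : S ≃ₜ S)
    (hG : C.GermProp L L' Φ) (x : S) :
    C.φ (Φ (C.τ x)) = C.φ (Φ x) ∨ C.φ (Φ (C.τ x)) = -C.φ (Φ x) := by
  classical
  have hQ0 : ∀ p ∈ Q, p ≠ 0 := by
    intro p hp h0
    apply hQneg p hp
    rw [h0, neg_zero]
    rwa [h0] at hp
  have hP0 : ∀ p ∈ C.P, p ≠ 0 := by
    intro p hp h0
    rcases (hPQ p).mp hp with h | h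
    · exact hQ0 p h h0
    · exact hQ0 (-p) h (by rw [h0, neg_zero])
  have hP2 : ∀ p ∈ C.P, p + p ≠ 0 := by
    intro p hp h0
    have h1 : -p = p := neg_eq_of_add_eq_zero_left h0
    rcases (hPQ p).mp hp with h | h
    · apply hQneg p h
      rwa [h1]
    · apply hQneg (-p) h
      rwa [h1, h1, ← h1]
  have hΦ : Continuous Φ := Φ.continuous
  -- choice of the constant
  set B : Set ℂ := (fun y => Pw L' (C.φ (Φ y))) '' (C.φ ⁻¹' (insert 0 (C.P : Set Tor))) ∪
    Pw L' '' (C.P : Set Tor) ∪ Pw L' '' {θ : Tor | θ + θ = 0} with hB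
  have hfib : ∀ θ : Tor, (C.φ ⁻¹' {θ}).Countable := by
    intro θ
    have : C.φ ⁻¹' {θ} ⊆ {C.pt θ, C.τ (C.pt θ)} := by
      intro y hy
      have hy' : C.φ y = θ := hy
      rcases C.eq_pt_or y with h | h
      · left; rw [← hy']; exact h
      · right; rw [← hy']; exact h
    exact (Set.toFinite {C.pt θ, C.τ (C.pt θ)}).countable.mono this
  have hBc : B.Countable := by
    refine ((Set.Countable.image ?_ _).union (C.P.countable_toSet.image _)).union
      (countable_two_torsion.image _)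
    have : C.φ ⁻¹' (insert 0 (C.P : Set Tor)) = ⋃ θ ∈ (insert 0 (C.P : Set Tor)), C.φ ⁻¹' {θ} := by
      ext y
      simp
    rw [this]
    exact (C.P.countable_toSet.insert 0).biUnion fun θ _ => hfib θ
  obtain ⟨c, hc⟩ : ∃ c : ℂ, c ∈ Bᶜ := (dense_compl_of_countable hBc).nonempty
  have hcB : c ∉ B := hc
  have hc1 : ∀ y, (C.φ y = 0 ∨ C.φ y ∈ C.P) → C.Good L' c Φ y := by
    intro y hy
    right
    intro h
    apply hcB
    left; left
    refine ⟨y, ?_, h⟩
    rcases hy with hy | hy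
    · exact Set.mem_insert_iff.mpr (Or.inl hy)
    · exact Set.mem_insert_iff.mpr (Or.inr hy)
  have hc2 : ∀ θ, Pw L' θ = c → θ ∉ C.P := by
    intro θ h1 h2
    apply hcB
    left; right
    exact ⟨θ, h2, h1⟩
  have hc3 : ∀ θ, Pw L' θ = c → θ + θ ≠ 0 := by
    intro θ h1 h2
    apply hcB
    right
    exact ⟨θ, h2, h1⟩
  -- the polar classes
  obtain ⟨θc, hθ0, hθc⟩ := Pw_surjective L' c
  have hθ0' : -θc ≠ 0 := neg_ne_zero.mpr hθ0
  have hθc' : Pw L' (-θc) = c := by
    rw [← hθc]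
    exact (Pw_eq_iff L' hθ0' hθ0).mpr (Or.inr rfl)
  have hbad : ∀ y, ¬ C.Good L' c Φ y → C.φ (Φ y) = θc ∨ C.φ (Φ y) = -θc := by
    intro y hy
    unfold Good at hy
    push Not at hy
    have := hy.2.trans hθc.symm
    exact (Pw_eq_iff L' hy.1 hθ0).mp this
  have hbad2 : ∀ y, ¬ C.Good L' c Φ y → (C.φ (Φ y) ∉ C.P ∧ C.φ (Φ y) + C.φ (Φ y) ≠ 0) := by
    intro y hy
    unfold Good at hy
    push Not at hy
    exact ⟨hc2 _ hy.2, hc3 _ hy.2⟩
  set X : Fin 4 → ℂ := ![Pw L (C.φ (Φ.symm (C.pt θc))), Pw L (C.φ (Φ.symm (C.τ (C.pt θc)))),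
    Pw L (C.φ (Φ.symm (C.pt (-θc)))), Pw L (C.φ (Φ.symm (C.τ (C.pt (-θc)))))] with hX
  have hXbad : ∀ y, ¬ C.Good L' c Φ y → ∃ j, X j = Pw L (C.φ y) := by
    intro y hy
    rcases hbad y hy with h | h
    · rcases C.eq_pt_or (Φ y) with h1 | h1
      · refine ⟨0, ?_⟩
        have : y = Φ.symm (C.pt θc) := by
          rw [← h, ← h1, Homeomorph.symm_apply_apply]
        simp [hX, this]
      · refine ⟨1, ?_⟩
        have : y = Φ.symm (C.τ (C.pt θc)) := by
          rw [← h, ← h1, Homeomorph.symm_apply_apply]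
        simp [hX, this]
    · rcases C.eq_pt_or (Φ y) with h1 | h1
      · refine ⟨2, ?_⟩
        have : y = Φ.symm (C.pt (-θc)) := by
          rw [← h, ← h1, Homeomorph.symm_apply_apply]
        simp [hX, this]
      · refine ⟨3, ?_⟩
        have : y = Φ.symm (C.τ (C.pt (-θc))) := by
          rw [← h, ← h1, Homeomorph.symm_apply_apply]
        simp [hX, this]
  -- the exceptional set
  set R : Finset Tor := insert θc (insert (-θc) C.P) with hR
  set F : Finset Tor := insert 0 (C.P ∪ (R.image (fun θ => C.φ (Φ.symm (C.pt θ))) ∪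
    R.image (fun θ => C.φ (Φ.symm (C.τ (C.pt θ)))))) with hF
  have hF0 : ∀ θ, θ ∉ F → θ ≠ 0 := by
    intro θ h h0
    apply h
    rw [hF, h0]
    exact Finset.mem_insert_self _ _
  have hFP : ∀ θ, θ ∉ F → θ ∉ C.P := by
    intro θ h h0
    apply h
    rw [hF]
    exact Finset.mem_insert_of_mem (Finset.mem_union_left _ h0)
  have hFR : ∀ y, C.φ y ∉ F → C.φ (Φ y) ∉ R := by
    intro y h h0
    apply h
    rw [hF]
    apply Finset.mem_insert_of_mem (Finset.mem_union_right _ _)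
    rcases C.eq_pt_or (Φ y) with h1 | h1
    · apply Finset.mem_union_left
      rw [Finset.mem_image]
      refine ⟨_, h0, ?_⟩
      rw [← h1, Homeomorph.symm_apply_apply]
    · apply Finset.mem_union_right
      rw [Finset.mem_image]
      refine ⟨_, h0, ?_⟩
      rw [← h1, Homeomorph.symm_apply_apply]
  have hFgood : ∀ y, C.φ y ∉ F → C.Good L' c Φ y ∧ C.φ (Φ y) ∉ C.P := by
    intro y hy
    have h1 := hFR y hy
    rw [hR, Finset.mem_insert, Finset.mem_insert] at h1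
    push Not at h1
    refine ⟨?_, h1.2.2⟩
    by_contra h2
    rcases hbad y h2 with h3 | h3
    · exact h1.1 h3
    · exact h1.2.1 h3
  -- the function
  set W : ℂ → ℂ := fun z => C.esq L' c Φ (cproj L z) * Rat4 L X Q z with hW
  have hWper : ∀ z w, w ∈ L.lattice → W (z + w) = W z := by
    intro z w hw
    simp only [hW]
    rw [cproj_add_lattice L z w hw, Rat4_periodic L X Q z w hw]
  have hnotQ : ∀ θ, θ ∉ C.P → ∀ p ∈ Q, θ ≠ p ∧ θ ≠ -p := by
    intro θ h1 p hp
    refine ⟨fun h => h1 ((hPQ θ).mpr (Or.inl (h ▸ hp))), fun h => h1 ((hPQ θ).mpr (Or.inr ?_))⟩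
    rw [h, neg_neg]
    exact hp
  have hEdiff : ∀ z, cproj L z ∉ F → DifferentiableAt ℂ (fun w => C.esq L' c Φ (cproj L w)) z := by
    intro z hz
    have hpt := C.φ_pt (cproj L z)
    have h1 := hFgood (C.pt (cproj L z)) (by rwa [hpt])
    have h2 := hFgood (C.τ (C.pt (cproj L z))) (by rwa [C.φ_τ, hpt])
    exact C.differentiableAt_esq hG hpt (by rw [hpt]; exact hFP _ hz) h1.2 h2.2 h1.1 h2.1
  have hWdiff : ∀ z, cproj L z ∉ F → DifferentiableAt ℂ W z := by
    intro z hz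
    exact (hEdiff z hz).mul (differentiableAt_Rat4 L X Q hQ0 (hF0 _ hz) (hnotQ _ (hFP _ hz)))
  have hbound : ∀ z, W =O[𝓝[≠] z] (fun _ => (1 : ℂ)) ∧ (cproj L z = 0 → Tendsto W (𝓝[≠] z) (𝓝 0)) := by
    intro z
    have hpt := C.φ_pt (cproj L z)
    set x₀ := C.pt (cproj L z) with hx₀
    by_cases hz0 : cproj L z = 0
    · have g1 : C.Good L' c Φ x₀ := hc1 _ (Or.inl (by rw [hpt, hz0]))
      have g2 : C.Good L' c Φ (C.τ x₀) := hc1 _ (Or.inl (by rw [C.φ_τ, hpt, hz0]))
      have h1 := C.continuousAt_esq_cproj (L := L) hΦ hpt g1 g2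
      have h2 := (h1.tendsto.mono_left nhdsWithin_le_nhds).mul (tendsto_Rat4 L X Q hQ hz0)
      rw [mul_zero] at h2
      exact ⟨h2.isBigO_one ℂ, fun _ => h2⟩
    refine ⟨?_, fun h => absurd h hz0⟩
    by_cases hzP : cproj L z ∈ C.P
    · have g1 : C.Good L' c Φ x₀ := hc1 _ (Or.inr (by rwa [hpt]))
      have g2 : C.Good L' c Φ (C.τ x₀) := hc1 _ (Or.inr (by rwa [C.φ_τ, hpt]))
      have hcont := C.continuousAt_esq_cproj (L := L) hΦ hpt g1 g2
      -- differentiable at the point by the removable singularity theorem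
      have hev := eventually_cproj_notMem L F z
      rw [eventually_nhdsWithin_iff] at hev
      obtain ⟨s, hs, hsd⟩ : ∃ s ∈ 𝓝 z, ∀ w ∈ s, w ≠ z →
          DifferentiableAt ℂ (fun w => C.esq L' c Φ (cproj L w)) w :=
        ⟨_, hev, fun w hw hne => hEdiff w (hw hne)⟩
      have hd := (Complex.differentiableOn_compl_singleton_and_continuousAt_iff hs).mp
        ⟨fun w hw => (hsd w hw.1 hw.2).differentiableWithinAt, hcont⟩
      have hd2 := (hd z (mem_of_mem_nhds hs)).differentiableAt hs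
      have h0 : C.esq L' c Φ (cproj L z) = 0 := by
        have hfix : C.τ x₀ = x₀ := (C.fixed x₀).mpr (by rwa [hpt])
        rw [← hpt, esq_φ, dfun, hfix, sub_self]
        simp
      have h1 : (fun w => C.esq L' c Φ (cproj L w)) =O[𝓝[≠] z] fun w => w - z := by
        have := hd2.hasDerivAt.isBigO_sub.mono (nhdsWithin_le_nhds (s := {z}ᶜ))
        simpa [h0] using this
      have h2 := isBigO_Rat4_branch L X Q hQ0 hQneg hz0 (hP2 _ hzP) (by
        rcases (hPQ _).mp hzP with h | h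
        · exact ⟨_, h, Or.inl rfl⟩
        · exact ⟨_, h, Or.inr (by rw [neg_neg])⟩)
      have h3 := h1.mul h2
      refine h3.trans ?_
      apply IsBigO.of_bound 1
      filter_upwards [self_mem_nhdsWithin] with w hw
      have : w - z ≠ 0 := sub_ne_zero.mpr hw
      rw [mul_inv_cancel₀ this]
      simp
    · by_cases hboth : C.Good L' c Φ x₀ ∧ C.Good L' c Φ (C.τ x₀)
      · have hcont := C.continuousAt_esq_cproj (L := L) hΦ hpt hboth.1 hboth.2
        have h2 := (differentiableAt_Rat4 L X Q hQ0 hz0 (hnotQ _ hzP)).continuousAt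
        have h3 : ContinuousAt W z := hcont.mul h2
        exact (h3.tendsto.mono_left nhdsWithin_le_nhds).isBigO_one ℂ
      · have h1 : ∀ y, C.Good L' c Φ y ∨ (C.φ (Φ y) ∉ C.P ∧ C.φ (Φ y) + C.φ (Φ y) ≠ 0) := by
          intro y
          by_cases h : C.Good L' c Φ y
          · exact Or.inl h
          · exact Or.inr (hbad2 y h)
        have h2 := C.isBigO_esq_pole (c := c) (L := L) hΦ hG hpt (by rwa [hpt]) (h1 _) (h1 _)
        have hXj : ∃ j, X j = PeriodPair.weierstrassP L z := by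
          rw [← Pw_cproj, ← hpt]
          by_cases hg : C.Good L' c Φ x₀
          · have : ¬ C.Good L' c Φ (C.τ x₀) := fun h => hboth ⟨hg, h⟩
            obtain ⟨j, hj⟩ := hXbad _ this
            exact ⟨j, by rw [hj, C.φ_τ]⟩
          · exact hXbad _ hg
        have h3 := (isBigO_Rat4_zero L X Q hQ0 hz0 (hnotQ _ hzP) hXj).mono
          (nhdsWithin_le_nhds (s := {z}ᶜ))
        have h4 := h2.mul h3
        refine h4.trans ?_
        apply IsBigO.of_bound 1
        filter_upwards [self_mem_nhdsWithin] with w hw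
        have : (w - z) ^ 2 ≠ 0 := pow_ne_zero _ (sub_ne_zero.mpr hw)
        rw [inv_mul_cancel₀ this]
        simp
  obtain ⟨κ, hκ⟩ := periodic_liouville L F W hWper hWdiff (by
    intro z _
    obtain ⟨C', hC'⟩ := (hbound z).1.bound
    refine ⟨C', ?_⟩
    filter_upwards [hC'] with w hw
    simpa using hw)
  have hκ0 : κ = 0 := by
    have h1 : Tendsto W (𝓝[≠] 0) (𝓝 0) := (hbound 0).2 (cproj_zero L)
    have h2 : Tendsto W (𝓝[≠] 0) (𝓝 κ) := by
      apply tendsto_const_nhds.congr'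
      filter_upwards [eventually_cproj_notMem L F 0] with w hw
      exact (hκ w hw).symm
    exact tendsto_nhds_unique h2 h1
  -- the larger exceptional set where the rational expression vanishes
  set F' : Finset Tor := F ∪ (R.image (fun θ => -C.φ (Φ.symm (C.pt θ))) ∪
    R.image (fun θ => -C.φ (Φ.symm (C.τ (C.pt θ))))) with hF'
  have hmain : ∀ y, C.φ y ∉ F' → C.φ (Φ (C.τ y)) = C.φ (Φ y) ∨ C.φ (Φ (C.τ y)) = -C.φ (Φ y) := by
    intro y hy
    have hyF : C.φ y ∉ F := fun h => hy (Finset.mem_union_left _ h)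
    obtain ⟨z, hz⟩ := cproj_surjective L (C.φ y)
    have hzF : cproj L z ∉ F := by rwa [hz]
    have hWz : W z = 0 := by rw [hκ z hzF, hκ0]
    have hRat : Rat4 L X Q z ≠ 0 := by
      have hzL : cproj L z ≠ 0 := hF0 _ hzF
      rw [Rat4]
      apply div_ne_zero
      · rw [Finset.prod_ne_zero_iff]
        intro j _
        apply pow_ne_zero
        rw [sub_ne_zero, ← Pw_cproj]
        intro hj
        -- the values X j
        have hval : ∃ θ ∈ R, (X j = Pw L (C.φ (Φ.symm (C.pt θ))) ∧ C.φ (Φ.symm (C.pt θ)) ≠ 0) ∨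
            (X j = Pw L (C.φ (Φ.symm (C.τ (C.pt θ)))) ∧ C.φ (Φ.symm (C.τ (C.pt θ))) ≠ 0) := by
          have hnz : ∀ y, ¬ C.Good L' c Φ y → C.φ y ≠ 0 := fun y h1 h2 => h1 (hc1 y (Or.inl h2))
          have hb : ∀ θ, θ ≠ 0 → Pw L' θ = c → ∀ y, C.φ y = θ → ¬ C.Good L' c Φ (Φ.symm y) := by
            intro θ h1 h2 y h3 h4
            unfold Good at h4
            rw [Homeomorph.apply_symm_apply, h3] at h4
            rcases h4 with h4 | h4
            · exact h1 h4
            · exact h4 h2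
          have r1 : θc ∈ R := by rw [hR]; exact Finset.mem_insert_self _ _
          have r2 : -θc ∈ R := by
            rw [hR]; exact Finset.mem_insert_of_mem (Finset.mem_insert_self _ _)
          fin_cases j
          · exact ⟨θc, r1, Or.inl ⟨rfl, hnz _ (hb θc hθ0 hθc _ (C.φ_pt _))⟩⟩
          · exact ⟨θc, r1, Or.inr ⟨rfl, hnz _ (hb θc hθ0 hθc _ (by rw [C.φ_τ, C.φ_pt]))⟩⟩
          · exact ⟨-θc, r2, Or.inl ⟨rfl, hnz _ (hb (-θc) hθ0' hθc' _ (C.φ_pt _))⟩⟩
          · exact ⟨-θc, r2, Or.inr ⟨rfl, hnz _ (hb (-θc) hθ0' hθc' _ (by rw [C.φ_τ, C.φ_pt]))⟩⟩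
        obtain ⟨θ, hθR, h | h⟩ := hval
        · rw [h.1] at hj
          rcases (Pw_eq_iff L hzL h.2).mp hj with h3 | h3
          · apply hzF
            rw [hF, h3]
            apply Finset.mem_insert_of_mem (Finset.mem_union_right _ (Finset.mem_union_left _ _))
            exact Finset.mem_image.mpr ⟨θ, hθR, rfl⟩
          · apply hy
            rw [← hz, hF', h3]
            apply Finset.mem_union_right _ (Finset.mem_union_left _ _)
            exact Finset.mem_image.mpr ⟨θ, hθR, rfl⟩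
        · rw [h.1] at hj
          rcases (Pw_eq_iff L hzL h.2).mp hj with h3 | h3
          · apply hzF
            rw [hF, h3]
            apply Finset.mem_insert_of_mem (Finset.mem_union_right _ (Finset.mem_union_right _ _))
            exact Finset.mem_image.mpr ⟨θ, hθR, rfl⟩
          · apply hy
            rw [← hz, hF', h3]
            apply Finset.mem_union_right _ (Finset.mem_union_right _ _)
            exact Finset.mem_image.mpr ⟨θ, hθR, rfl⟩
      · rw [Finset.prod_ne_zero_iff]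
        intro p hp
        rw [sub_ne_zero, ← Pw_cproj]
        intro h
        have := hnotQ _ (hFP _ hzF) p hp
        rcases (Pw_eq_iff L hzL (hQ0 p hp)).mp h with h | h
        · exact this.1 h
        · exact this.2 h
    have hesq : C.esq L' c Φ (C.φ y) = 0 := by
      rw [← hz]
      exact (mul_eq_zero.mp hWz).resolve_right hRat
    rw [esq_φ] at hesq
    have hd0 : C.dfun L' c Φ y = 0 := pow_eq_zero_iff (two_ne_zero) |>.mp hesq
    have hgg : Gc L' c (C.φ (Φ y)) = Gc L' c (C.φ (Φ (C.τ y))) := sub_eq_zero.mp hd0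
    have hg1 := (hFgood y hyF).1
    have hg2 := (hFgood (C.τ y) (by rwa [C.φ_τ])).1
    unfold Good at hg1 hg2
    by_cases ha : C.φ (Φ y) = 0
    · by_cases hb : C.φ (Φ (C.τ y)) = 0
      · left; rw [ha, hb]
      · exfalso
        rw [ha, Gc_zero, Gc_of_ne L' hb, eq_comm, inv_eq_zero, sub_eq_zero] at hgg
        exact (hg2.resolve_left hb) hgg
    · by_cases hb : C.φ (Φ (C.τ y)) = 0
      · exfalso
        rw [hb, Gc_zero, Gc_of_ne L' ha, inv_eq_zero, sub_eq_zero] at hgg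
        exact (hg1.resolve_left ha) hgg
      · rw [Gc_of_ne L' ha, Gc_of_ne L' hb, inv_inj, sub_left_inj] at hgg
        rcases (Pw_eq_iff L' ha hb).mp hgg with h | h
        · left; exact h.symm
        · right; rw [h, neg_neg]
  -- conclude by density
  have hclosed : IsClosed {y : S | C.φ (Φ (C.τ y)) = C.φ (Φ y) ∨ C.φ (Φ (C.τ y)) = -C.φ (Φ y)} := by
    have c1 : Continuous fun y => C.φ (Φ (C.τ y)) := C.φ_cont.comp (hΦ.comp C.τ_cont)
    have c2 : Continuous fun y => C.φ (Φ y) := C.φ_cont.comp hΦ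
    exact (isClosed_eq c1 c2).union (isClosed_eq c1 c2.neg)
  have hdense := C.dense_preimage_compl F'
  have : closure (C.φ ⁻¹' ((F' : Set Tor)ᶜ)) ⊆
      {y : S | C.φ (Φ (C.τ y)) = C.φ (Φ y) ∨ C.φ (Φ (C.τ y)) = -C.φ (Φ y)} := by
    apply closure_minimal _ hclosed
    intro y hy
    exact hmain y hy
  exact this (hdense x)

end TorusCover

end Pool.Agent.SimpleSpectrum
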