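import Pool.Agent.SimpleSpectrum.Surface

/-!
The double cover `Y^2 = G` of the torus.
-/

set_option autoImplicit false

open Filter Topology

namespace Pool.Agent.SimpleSpectrum

/-- The double cover of the torus defined by `Y^2 = G`. -/
abbrev SG (G : Tor → ℂ) : Type := {q : Tor × ℂ // q.2 ^ 2 = G q.1}

namespace SG

variable {G : Tor → ℂ}

/-- The projection. -/
def pr (x : SG G) : Tor := x.1.1

/-- The second coordinate. -/
def Y (x : SG G) : ℂ := x.1.2

lemma Y_sq (x : SG G) : x.Y ^ 2 = G x.pr := x.2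

@[ext] lemma ext {x y : SG G} (h1 : x.pr = y.pr) (h2 : x.Y = y.Y) : x = y :=
  Subtype.ext (Prod.ext h1 h2)

lemma continuous_pr : Continuous (pr : SG G → Tor) := continuous_fst.comp continuous_subtype_val

lemma continuous_Y : Continuous (Y : SG G → ℂ) := continuous_snd.comp continuous_subtype_val

/-- The deck transformation. -/
def tau (x : SG G) : SG G := ⟨(x.pr, -x.Y), by
  show (-x.Y) ^ 2 = G x.pr
  rw [neg_sq, x.Y_sq]⟩

lemma tau_pr (x : SG G) : x.tau.pr = x.pr := rfl
lemma tau_Y (x : SG G) : x.tau.Y = -x.Y := rfl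

lemma continuous_tau : Continuous (tau : SG G → SG G) :=
  Continuous.subtype_mk (continuous_pr.prodMk continuous_Y.neg) _

lemma pr_surjective : Function.Surjective (pr : SG G → Tor) := by
  intro t
  obtain ⟨z, hz⟩ := IsAlgClosed.exists_pow_nat_eq (G t) (n := 2) (by norm_num)
  exact ⟨⟨(t, z), hz⟩, rfl⟩

lemma isOpenMap_sq : IsOpenMap (fun z : ℂ => z ^ 2) := by
  have h : AnalyticOnNhd ℂ (fun z : ℂ => z ^ 2) Set.univ := by
    intro z _
    fun_prop
  rcases h.is_constant_or_isOpen isPreconnected_univ with ⟨w, hw⟩ | h2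
  · exfalso
    have h0 := hw 0 trivial
    have h1 := hw 1 trivial
    norm_num at h0 h1
    rw [← h0] at h1
    norm_num at h1
  · intro s hs
    exact h2 s (Set.subset_univ _) hs

lemma isOpenMap_pr (hG : Continuous G) : IsOpenMap (pr : SG G → Tor) := by
  rw [isOpenMap_iff_nhds_le]
  intro x
  rw [Filter.le_map_iff]
  intro N hN
  rw [nhds_subtype_eq_comap, Filter.mem_comap] at hN
  obtain ⟨N', hN', hsub⟩ := hN
  rw [nhds_prod_eq] at hN'
  obtain ⟨U, hU, V, hV, hUV⟩ := Filter.mem_prod_iff.mp hN'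
  have h1 : (fun z : ℂ => z ^ 2) '' V ∈ 𝓝 (x.1.2 ^ 2) := isOpenMap_sq.image_mem_nhds hV
  rw [x.2] at h1
  have h2 : G ⁻¹' ((fun z : ℂ => z ^ 2) '' V) ∈ 𝓝 x.pr := hG.continuousAt h1
  filter_upwards [hU, h2] with t ht1 ht2
  obtain ⟨z, hz, hz2⟩ := ht2
  exact ⟨⟨(t, z), hz2⟩, hsub (hUV ⟨ht1, hz⟩), rfl⟩

lemma pr_eq_iff (x y : SG G) : x.pr = y.pr ↔ (y = x ∨ y = x.tau) := by
  constructor
  · intro h
    have h1 : y.Y ^ 2 = x.Y ^ 2 := by rw [y.Y_sq, x.Y_sq, h]
    rcases sq_eq_sq_iff_eq_or_eq_neg.mp h1 with h2 | h2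
    · left
      exact ext h.symm h2
    · right
      exact ext h.symm h2
  · rintro (rfl | rfl) <;> rfl

lemma tau_eq_iff (x : SG G) : x.tau = x ↔ G x.pr = 0 := by
  constructor
  · intro h
    have h1 := congrArg Y h
    rw [tau_Y] at h1
    have h2 : x.Y = 0 := by
      have : x.Y + x.Y = 0 := by
        nth_rewrite 1 [← h1]
        ring
      linear_combination this / 2
    rw [← x.Y_sq, h2]
    ring
  · intro h
    have h1 : x.Y = 0 := by
      have := x.Y_sq
      rw [h] at this
      exact pow_eq_zero_iff (two_ne_zero) |>.mp this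
    refine ext (y := x) rfl ?_
    rw [tau_Y, h1, neg_zero]

lemma compactSpace (hG : Continuous G) : CompactSpace (SG G) := by
  apply isCompact_iff_compactSpace (s := {q : Tor × ℂ | q.2 ^ 2 = G q.1}) |>.mp
  obtain ⟨M, hM⟩ : ∃ M : ℝ, ∀ t, ‖G t‖ ≤ M := by
    obtain ⟨M, hM⟩ := (isCompact_range hG).isBounded.exists_norm_le
    exact ⟨M, fun t => hM _ ⟨t, rfl⟩⟩
  have hclosed : IsClosed {q : Tor × ℂ | q.2 ^ 2 = G q.1} :=
    isClosed_eq (by fun_prop) (hG.comp continuous_fst)
  have hsub : {q : Tor × ℂ | q.2 ^ 2 = G q.1} ⊆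
      (Set.univ : Set Tor) ×ˢ Metric.closedBall (0 : ℂ) (M + 1) := by
    rintro ⟨t, z⟩ h
    refine ⟨trivial, ?_⟩
    simp only [Metric.mem_closedBall, dist_zero_right]
    have h1 : z ^ 2 = G t := h
    have h2 : ‖z‖ ^ 2 ≤ M := by
      rw [← norm_pow, h1]
      exact hM t
    nlinarith [norm_nonneg z]
  exact (isCompact_univ.prod (isCompact_closedBall (0 : ℂ) (M + 1))).of_isClosed_subset hclosed hsub

instance : T2Space (SG G) := inferInstance

/-- The torus cover. -/
def cover (hG : Continuous G) (Γ : Tor ≃ₜ Tor) (P : Finset Tor) (hP : ∀ t, Γ t ∈ P ↔ G t = 0) :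
    TorusCover (SG G) where
  φ := fun x => Γ x.pr
  τ := tau
  P := P
  φ_cont := Γ.continuous.comp continuous_pr
  φ_open := Γ.isOpenMap.comp (isOpenMap_pr hG)
  φ_surj := Γ.surjective.comp pr_surjective
  τ_cont := continuous_tau
  τ_invol := by
    intro x
    refine ext (y := x) rfl ?_
    rw [tau_Y, tau_Y, neg_neg]
  fiber := by
    intro x y
    rw [Γ.injective.eq_iff, pr_eq_iff]
  fixed := by
    intro x
    rw [tau_eq_iff, hP]

/-- **Lift lemma**: a homeomorphism `h` of the torus for which `(G ∘ h) / G` has a square root. -/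
lemma exists_lift (hG : Continuous G) (h : Tor ≃ₜ Tor) (k : Tor → ℂ)
    (hk : ∀ t, G t ≠ 0 → ContinuousAt k t) (hkG : ∀ t, G t ≠ 0 → k t ^ 2 * G t = G (h t))
    (hz : ∀ t, G t = 0 → G (h t) = 0) (hz' : ∀ t, G t = 0 → G (h.symm t) = 0) :
    ∃ f : SG G ≃ₜ SG G, ∀ x, (f x).pr = h x.pr := by
  have hkG' : ∀ t, k t ^ 2 * G t = G (h t) := by
    intro t
    by_cases ht : G t = 0
    · rw [ht, mul_zero, hz t ht]
    · exact hkG t ht
  -- the map
  set F : SG G → SG G := fun x => ⟨(h x.pr, k x.pr * x.Y), by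
    show (k x.pr * x.Y) ^ 2 = G (h x.pr)
    rw [mul_pow, x.Y_sq, hkG']⟩ with hF
  have hYcont : Continuous fun x : SG G => k x.pr * x.Y := by
    rw [continuous_iff_continuousAt]
    intro x
    by_cases hx : G x.pr = 0
    · have h0 : k x.pr * x.Y = 0 := by
        have : (k x.pr * x.Y) ^ 2 = 0 := by rw [mul_pow, x.Y_sq, hkG', hz _ hx]
        exact pow_eq_zero_iff two_ne_zero |>.mp this
      rw [ContinuousAt, h0, tendsto_zero_iff_norm_tendsto_zero]
      have h1 : ∀ x : SG G, ‖k x.pr * x.Y‖ = √‖G (h x.pr)‖ := by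
        intro x
        rw [← hkG', ← x.Y_sq, ← mul_pow, norm_pow, Real.sqrt_sq (norm_nonneg _)]
      have h2 : (fun x : SG G => ‖k x.pr * x.Y‖) = fun x => √‖G (h x.pr)‖ := funext h1
      rw [h2]
      have h3 : Continuous fun x : SG G => √‖G (h x.pr)‖ :=
        (hG.comp (h.continuous.comp continuous_pr)).norm.sqrt
      have h4 := h3.continuousAt (x := x)
      rw [ContinuousAt, hz _ hx] at h4
      simpa using h4
    · have h1 : ContinuousAt (fun x : SG G => k x.pr) x :=
        ContinuousAt.comp (f := pr) (hk _ hx) continuous_pr.continuousAt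
      exact h1.mul continuous_Y.continuousAt
  have hFcont : Continuous F := Continuous.subtype_mk
    ((h.continuous.comp continuous_pr).prodMk hYcont) _
  have hinj : Function.Injective F := by
    intro x y hxy
    have h1 : h x.pr = h y.pr := congrArg pr hxy
    have h2 : k x.pr * x.Y = k y.pr * y.Y := congrArg Y hxy
    have h3 : x.pr = y.pr := h.injective h1
    apply ext h3
    by_cases hx : G x.pr = 0
    · have e1 : x.Y = 0 := pow_eq_zero_iff two_ne_zero |>.mp (by rw [x.Y_sq, hx])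
      have e2 : y.Y = 0 := pow_eq_zero_iff two_ne_zero |>.mp (by rw [y.Y_sq, ← h3, hx])
      rw [e1, e2]
    · have hk0 : k x.pr ≠ 0 := by
        intro hk0
        have h4 := hkG' x.pr
        rw [hk0] at h4
        have h5 : G (h x.pr) = 0 := by rw [← h4]; ring
        have h6 := hz' _ h5
        rw [Homeomorph.symm_apply_apply] at h6
        exact hx h6
      rw [← h3] at h2
      exact mul_left_cancel₀ hk0 h2
  have hsurj : Function.Surjective F := by
    intro y
    set t := h.symm y.pr with ht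
    have hht : h t = y.pr := by rw [ht, Homeomorph.apply_symm_apply]
    by_cases h0 : G t = 0
    · refine ⟨⟨(t, 0), by rw [h0]; ring⟩, ?_⟩
      apply ext
      · exact hht
      · have e2 : y.Y = 0 := pow_eq_zero_iff two_ne_zero |>.mp (by
          rw [y.Y_sq, ← hht, hz _ h0])
        rw [e2]
        show k t * 0 = 0
        ring
    · have hk0 : k t ≠ 0 := by
        intro hk0
        have h4 := hkG' t
        rw [hk0, hht] at h4
        have h5 : G y.pr = 0 := by rw [← h4]; ring
        exact h0 (hz' _ h5)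
      refine ⟨⟨(t, y.Y / k t), ?_⟩, ?_⟩
      · show (y.Y / k t) ^ 2 = G t
        rw [div_pow, y.Y_sq, ← hht, ← hkG']
        field_simp
      · apply ext
        · exact hht
        · show k t * (y.Y / k t) = y.Y
          field_simp
  have : CompactSpace (SG G) := compactSpace hG
  exact ⟨hFcont.homeoOfEquivCompactToT2 (f := Equiv.ofBijective F ⟨hinj, hsurj⟩), fun x => rfl⟩

end SG

end Pool.Agent.SimpleSpectrum
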