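import Pool.Agent.SimpleSpectrum.Rho

/-!
Explicit square roots showing that the shears lift to the model surface.
-/

set_option autoImplicit false

open Filter Topology Real ComplexConjugate

namespace Pool.Agent.SimpleSpectrum

lemma re_pos_of_norm_le {z : ℂ} (h : ‖z‖ ≤ 1) (h1 : z ≠ 1) : 0 < (1 - z).re := by
  have h2 : z.re ≤ 1 := (Complex.re_le_norm z).trans h
  rcases h2.lt_or_eq with h3 | h3
  · simp only [Complex.sub_re, Complex.one_re]
    linarith
  · exfalso
    apply h1
    have h4 : z.re ^ 2 + z.im ^ 2 ≤ 1 := by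
      have h5 : ‖z‖ ^ 2 ≤ 1 := by
        have := norm_nonneg z
        nlinarith
      rw [← Complex.normSq_eq_norm_sq, Complex.normSq_apply] at h5
      nlinarith
    rw [h3] at h4
    have h5 : z.im = 0 := by
      have : z.im ^ 2 ≤ 0 := by linarith
      exact pow_eq_zero_iff two_ne_zero |>.mp (le_antisymm this (sq_nonneg _))
    exact Complex.ext h3 h5

lemma slit_of_norm_le {z : ℂ} (h : ‖z‖ ≤ 1) (h1 : z ≠ 1) : 1 - z ∈ Complex.slitPlane :=
  Or.inl (re_pos_of_norm_le h h1)

lemma slit_quot {e : ℂ} {a b : ℝ} (ha : 0 < a) (hb : 0 < b) (he : ‖e‖ = 1)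
    (hne : e - b ≠ 0) (h : e = 1 → a = b) : (e - a) / (e - b) ∈ Complex.slitPlane := by
  by_cases hab : a = b
  · rw [hab, div_self hne]
    exact Complex.one_mem_slitPlane
  · have he1 : e ≠ 1 := fun h2 => hab (h h2)
    have hnsq : 0 < Complex.normSq (e - b) := Complex.normSq_pos.mpr hne
    have hesq : e.re ^ 2 + e.im ^ 2 = 1 := by
      have h5 : ‖e‖ ^ 2 = 1 := by rw [he]; norm_num
      rw [← Complex.normSq_eq_norm_sq, Complex.normSq_apply] at h5
      nlinarith
    by_cases him : e.im = 0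
    · left
      have hre : e.re = -1 := by
        rw [him] at hesq
        have h6 : (e.re - 1) * (e.re + 1) = 0 := by linarith
        rcases mul_eq_zero.mp h6 with h7 | h7
        · exfalso
          apply he1
          apply Complex.ext
          · simp; linarith
          · simpa using him
        · linarith
      have h1 : (e - a) / (e - b) = (((1 + a) / (1 + b) : ℝ) : ℂ) := by
        have h2 : e = -1 := by
          apply Complex.ext
          · simpa using hre
          · simpa using him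
        have h3 : (1 + b : ℂ) ≠ 0 := by
          have : ((1 + b : ℝ) : ℂ) ≠ 0 := by
            exact_mod_cast (by linarith : (1 + b : ℝ) ≠ 0)
          simpa using this
        rw [h2] at hne ⊢
        push_cast
        rw [div_eq_div_iff hne h3]
        ring
      rw [h1, Complex.ofReal_re]
      positivity
    · right
      rw [Complex.div_im]
      have h1 : (e - a).im = e.im := by simp
      have h2 : (e - b).im = e.im := by simp
      have h3 : (e - a).re = e.re - a := by simp
      have h4 : (e - b).re = e.re - b := by simp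
      rw [h1, h2, h3, h4, ← sub_div]
      apply div_ne_zero _ hnsq.ne'
      have : e.im * (e.re - b) - (e.re - a) * e.im = e.im * (a - b) := by ring
      rw [this]
      exact mul_ne_zero him (sub_ne_zero.mpr hab)

section

variable {n n' : ℕ} (h : Adm n) (h' : Adm n') (X : Tor → UnitAddCircle) (Δ : Tor → ℝ)

noncomputable def k₁ (n : ℕ) (X : Tor → UnitAddCircle) (t : Tor) : ℂ :=
  csqrt ((E t.2 - rho n (X t)) / (E t.2 - rho n t.1))

noncomputable def fA (n' : ℕ) (X : Tor → UnitAddCircle) (Δ : Tor → ℝ) (t : Tor) : ℂ :=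
  Complex.exp (π * Δ t * Complex.I) *
    (csqrt (1 - rho n' t.2 * E (-X t)) / csqrt (1 - rho n' t.2 * E (-t.1)))

noncomputable def fB (n' : ℕ) (X : Tor → UnitAddCircle) (t : Tor) : ℂ :=
  csqrt (1 - E (X t) / rho n' t.2) / csqrt (1 - E t.1 / rho n' t.2)

noncomputable def k₂ (n' : ℕ) (X : Tor → UnitAddCircle) (Δ : Tor → ℝ) (t : Tor) : ℂ :=
  open Classical in if rho n' t.2 ≤ 1 then fA n' X Δ t else fB n' X t

include h h' in
/-- The square root of `(G ∘ h) / G` for shears `h (x, y) = (X (x, y), y)`. -/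
lemma shear_sqrt (hX : Continuous X) (hX0 : ∀ x, X (x, 0) = x)
    (hΔc : ∀ t : Tor, rho n' t.2 ≤ 1 → ContinuousAt Δ t)
    (hΔX : ∀ t, X t = t.1 + ((Δ t : ℝ) : UnitAddCircle))
    (hΔ2 : ∀ t : Tor, rho n' t.2 = 1 → ∃ m : ℤ, Δ t = 2 * m) :
    ∃ k : Tor → ℂ, (∀ t, GG n n' t ≠ 0 → ContinuousAt k t) ∧
      ∀ t, GG n n' t ≠ 0 → k t ^ 2 * GG n n' t = GG n n' (X t, t.2) := by
  classical
  -- basic facts at a nonzero point
  have hX1 : ∀ t : Tor, rho n' t.2 = 1 → X t = t.1 := by
    intro t ht
    obtain ⟨m, hm⟩ := hΔ2 t ht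
    rw [hΔX, hm]
    have : ((2 * m : ℝ) : UnitAddCircle) = 0 := by
      rw [coe_eq_zero_iff_int]
      exact ⟨2 * m, by push_cast; ring⟩
    rw [this, add_zero]
  have hne2 : ∀ t : Tor, E t.1 - rho n' t.2 ≠ 0 → E (X t) - rho n' t.2 ≠ 0 := by
    intro t ht h0
    rw [factor_eq_zero_iff h'] at h0
    apply ht
    rw [factor_eq_zero_iff h']
    refine ⟨?_, h0.2⟩
    rw [← hX1 t h0.2]
    exact h0.1
  have hslit1 : ∀ t : Tor, E t.2 - rho n t.1 ≠ 0 →
      (E t.2 - rho n (X t)) / (E t.2 - rho n t.1) ∈ Complex.slitPlane := by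
    intro t ht
    apply slit_quot (rho_pos h _) (rho_pos h _) (norm_E _) ht
    intro h1
    have h2 : t.2 = 0 := by
      apply E_injective
      rw [h1, E_zero]
    have h3 : t = (t.1, 0) := Prod.ext rfl h2
    rw [h3, hX0]
  have hslitA : ∀ (x y : UnitAddCircle), rho n' y ≤ 1 → E x - rho n' y ≠ 0 →
      1 - (rho n' y : ℂ) * E (-x) ∈ Complex.slitPlane := by
    intro x y h1 h2
    apply slit_of_norm_le
    · rw [norm_mul, norm_E, mul_one, Complex.norm_real, Real.norm_of_nonneg (rho_pos h' y).le]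
      exact h1
    · intro h3
      apply h2
      have h4 := E_neg x
      have h5 : E x = rho n' y := by
        calc E x = ((rho n' y : ℂ) * E (-x)) * E x := by rw [h3, one_mul]
          _ = rho n' y * (E (-x) * E x) := by ring
          _ = rho n' y := by rw [h4, mul_one]
      rw [h5, sub_self]
  have hslitB : ∀ (x y : UnitAddCircle), 1 ≤ rho n' y → E x - rho n' y ≠ 0 →
      1 - E x / (rho n' y : ℂ) ∈ Complex.slitPlane := by
    intro x y h1 h2
    have hpos := rho_pos h' y
    apply slit_of_norm_le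
    · rw [norm_div, norm_E, Complex.norm_real, Real.norm_of_nonneg hpos.le]
      rw [div_le_one hpos]
      exact h1
    · intro h3
      apply h2
      have h4 : (rho n' y : ℂ) ≠ 0 := by exact_mod_cast hpos.ne'
      rw [div_eq_one_iff_eq h4] at h3
      rw [h3, sub_self]
  have hcE := continuous_E
  have hcr := continuous_rho n
  have hcr' := continuous_rho n'
  -- continuity of the pieces
  have hcA : ∀ t : Tor, rho n' t.2 ≤ 1 → E t.1 - rho n' t.2 ≠ 0 → ContinuousAt (fA n' X Δ) t := by
    intro t h1 h2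
    have c0 := hΔc t h1
    have c1 : ContinuousAt (fun t : Tor => 1 - (rho n' t.2 : ℂ) * E (-X t)) t := by fun_prop
    have c2 : ContinuousAt (fun t : Tor => 1 - (rho n' t.2 : ℂ) * E (-t.1)) t := by fun_prop
    have c3 : ContinuousAt (fun t : Tor => csqrt (1 - (rho n' t.2 : ℂ) * E (-X t))) t :=
      ContinuousAt.comp (f := fun t : Tor => 1 - (rho n' t.2 : ℂ) * E (-X t))
        (continuousAt_csqrt (hslitA _ _ h1 (hne2 t h2))) c1
    have c4 : ContinuousAt (fun t : Tor => csqrt (1 - (rho n' t.2 : ℂ) * E (-t.1))) t :=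
      ContinuousAt.comp (f := fun t : Tor => 1 - (rho n' t.2 : ℂ) * E (-t.1))
        (continuousAt_csqrt (hslitA _ _ h1 h2)) c2
    have c5 : ContinuousAt (fun t : Tor => Complex.exp (π * Δ t * Complex.I)) t := by
      have : ContinuousAt (fun t : Tor => ((Δ t : ℝ) : ℂ)) t :=
        Complex.continuous_ofReal.continuousAt.comp c0
      exact ((continuousAt_const.mul this).mul continuousAt_const).cexp
    exact c5.mul (c3.div c4 (csqrt_ne _))
  have hcB : ∀ t : Tor, 1 ≤ rho n' t.2 → E t.1 - rho n' t.2 ≠ 0 → ContinuousAt (fB n' X) t := by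
    intro t h1 h2
    have hpos : (rho n' t.2 : ℂ) ≠ 0 := by exact_mod_cast (rho_pos h' t.2).ne'
    have c0 : ContinuousAt (fun t : Tor => (rho n' t.2 : ℂ)) t := by fun_prop
    have c1 : ContinuousAt (fun t : Tor => 1 - E (X t) / (rho n' t.2 : ℂ)) t := by
      apply ContinuousAt.sub continuousAt_const
      exact ContinuousAt.div (by fun_prop) c0 hpos
    have c2 : ContinuousAt (fun t : Tor => 1 - E t.1 / (rho n' t.2 : ℂ)) t := by
      apply ContinuousAt.sub continuousAt_const
      exact ContinuousAt.div (by fun_prop) c0 hpos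
    have c3 : ContinuousAt (fun t : Tor => csqrt (1 - E (X t) / (rho n' t.2 : ℂ))) t :=
      ContinuousAt.comp (f := fun t : Tor => 1 - E (X t) / (rho n' t.2 : ℂ))
        (continuousAt_csqrt (hslitB _ _ h1 (hne2 t h2))) c1
    have c4 : ContinuousAt (fun t : Tor => csqrt (1 - E t.1 / (rho n' t.2 : ℂ))) t :=
      ContinuousAt.comp (f := fun t : Tor => 1 - E t.1 / (rho n' t.2 : ℂ))
        (continuousAt_csqrt (hslitB _ _ h1 h2)) c2
    exact c3.div c4 (csqrt_ne _)
  have hone : ∀ t : Tor, rho n' t.2 = 1 → fA n' X Δ t = fB n' X t := by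
    intro t h1
    obtain ⟨m, hm⟩ := hΔ2 t h1
    unfold fA fB
    rw [hX1 t h1, div_self (csqrt_ne _), div_self (csqrt_ne _), mul_one, hm]
    rw [Complex.exp_eq_one_iff]
    exact ⟨m, by push_cast; ring⟩
  have hck2 : ∀ t : Tor, E t.1 - rho n' t.2 ≠ 0 → ContinuousAt (k₂ n' X Δ) t := by
    intro t h2
    have hcr2 : Continuous fun t : Tor => rho n' t.2 := hcr'.comp continuous_snd
    rcases lt_trichotomy (rho n' t.2) 1 with h1 | h1 | h1
    · apply (hcA t h1.le h2).congr
      filter_upwards [hcr2.continuousAt.eventually_lt continuousAt_const h1] with s hs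
      simp only [k₂, if_pos hs.le]
    · have e1 : k₂ n' X Δ t = fA n' X Δ t := by simp only [k₂, if_pos h1.le]
      have c1 := (hcA t h1.le h2).tendsto
      have c2 := (hcB t h1.ge h2).tendsto
      rw [← hone t h1] at c2
      rw [ContinuousAt, e1]
      exact Tendsto.if' c1 c2
    · apply (hcB t h1.le h2).congr
      filter_upwards [continuousAt_const.eventually_lt hcr2.continuousAt h1] with s hs
      simp only [k₂, if_neg (not_le.mpr hs)]
  have hck1 : ∀ t : Tor, E t.2 - rho n t.1 ≠ 0 → ContinuousAt (k₁ n X) t := by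
    intro t h1
    have c1 : ContinuousAt (fun t : Tor => (E t.2 - rho n (X t)) / (E t.2 - rho n t.1)) t := by
      have d1 : ContinuousAt (fun t : Tor => E t.2 - (rho n (X t) : ℂ)) t := by fun_prop
      have d2 : ContinuousAt (fun t : Tor => E t.2 - (rho n t.1 : ℂ)) t := by fun_prop
      exact d1.div d2 h1
    exact ContinuousAt.comp (f := fun t : Tor => (E t.2 - rho n (X t)) / (E t.2 - rho n t.1))
      (continuousAt_csqrt (hslit1 t h1)) c1
  have hne : ∀ t : Tor, GG n n' t ≠ 0 → E t.2 - rho n t.1 ≠ 0 ∧ E t.1 - rho n' t.2 ≠ 0 := by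
    intro t ht
    exact mul_ne_zero_iff.mp ht
  -- squares
  have hsq1 : ∀ t : Tor, E t.2 - rho n t.1 ≠ 0 →
      k₁ n X t ^ 2 * (E t.2 - rho n t.1) = E t.2 - rho n (X t) := by
    intro t h1
    rw [k₁, csqrt_sq (Complex.slitPlane_ne_zero (hslit1 t h1))]
    field_simp
  have hsq2 : ∀ t : Tor, E t.1 - rho n' t.2 ≠ 0 →
      k₂ n' X Δ t ^ 2 * (E t.1 - rho n' t.2) = E (X t) - rho n' t.2 := by
    intro t h2
    have h3 := hne2 t h2
    have hpos : (rho n' t.2 : ℂ) ≠ 0 := by exact_mod_cast (rho_pos h' t.2).ne'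
    by_cases h1 : rho n' t.2 ≤ 1
    · have d1 := Complex.slitPlane_ne_zero (hslitA _ _ h1 h3)
      have d2 := Complex.slitPlane_ne_zero (hslitA _ _ h1 h2)
      simp only [k₂, if_pos h1]
      rw [fA, mul_pow, div_pow, csqrt_sq d1, csqrt_sq d2, ← Complex.exp_nat_mul]
      have e1 : Complex.exp (((2 : ℕ) : ℂ) * (π * Δ t * Complex.I)) =
          E ((Δ t : ℝ) : UnitAddCircle) := by
        rw [E_coe]
        congr 1
        push_cast
        ring
      have e2 : E (X t) = E t.1 * E ((Δ t : ℝ) : UnitAddCircle) := by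
        rw [hΔX t, E_add]
      have e3 : E t.1 - (rho n' t.2 : ℂ) = E t.1 * (1 - (rho n' t.2 : ℂ) * E (-t.1)) := by
        have := E_neg t.1
        linear_combination (rho n' t.2 : ℂ) * this
      have e4 : E (X t) - (rho n' t.2 : ℂ) = E (X t) * (1 - (rho n' t.2 : ℂ) * E (-X t)) := by
        have := E_neg (X t)
        linear_combination (rho n' t.2 : ℂ) * this
      rw [e1, e3, e4, e2]
      field_simp
    · have h1' : 1 ≤ rho n' t.2 := (not_le.mp h1).le
      have d1 := Complex.slitPlane_ne_zero (hslitB _ _ h1' h3)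
      have d2 := Complex.slitPlane_ne_zero (hslitB _ _ h1' h2)
      simp only [k₂, if_neg h1]
      rw [fB, div_pow, csqrt_sq d1, csqrt_sq d2]
      have e1 : 1 - E (X t) / (rho n' t.2 : ℂ) = -(E (X t) - rho n' t.2) / rho n' t.2 := by
        field_simp
        ring
      have e2 : 1 - E t.1 / (rho n' t.2 : ℂ) = -(E t.1 - rho n' t.2) / rho n' t.2 := by
        field_simp
        ring
      rw [e1, e2]
      field_simp
  refine ⟨fun t => k₁ n X t * k₂ n' X Δ t, ?_, ?_⟩
  · intro t ht
    exact (hck1 t (hne t ht).1).mul (hck2 t (hne t ht).2)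
  · intro t ht
    have h1 := hsq1 t (hne t ht).1
    have h2 := hsq2 t (hne t ht).2
    simp only [GG]
    rw [← h1, ← h2]
    ring

end

end Pool.Agent.SimpleSpectrum
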