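import Pool.Agent.SimpleSpectrum.Branch

/-!
The closed Teichmueller geodesics of the examples are simple.
-/

set_option autoImplicit false

open Filter Topology

namespace Pool.Agent.SimpleSpectrum

namespace Par

variable (p : Par)

lemma det_of_rel {s t : ℝ} {α : ℂ} {x y z w : ℤ} (h : p.Rel s t α x y z w) :
    (x : ℝ) * w - y * z = α.re ^ 2 + α.im ^ 2 := by
  have hcpos := p.c_pos
  have hll := p.inv_lt_lam
  have e1 := h (1, 0)
  have e2 := h (0, 1)
  simp only [Par.per_L, lin, stretch, mul_one, mul_zero, add_zero, zero_add] at e1 e2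
  have e1r := congrArg Complex.re e1
  have e1i := congrArg Complex.im e1
  have e2r := congrArg Complex.re e2
  have e2i := congrArg Complex.im e2
  simp only [Complex.mul_re, Complex.mul_im] at e1r e1i e2r e2i
  have hEs : Real.exp s * Real.exp (-s) = 1 := by rw [← Real.exp_add]; simp
  have hEt : Real.exp t * Real.exp (-t) = 1 := by rw [← Real.exp_add]; simp
  have hne : (p.c : ℝ) * (p.lam - p.lam⁻¹) ≠ 0 := by
    apply mul_ne_zero hcpos.ne'
    linarith
  apply mul_left_cancel₀ hne
  linear_combination (Real.exp (-t) * -(p.c * y + (1 + p.lam⁻¹) * w)) * e1r +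
    (α.re * (Real.exp s * p.c) - α.im * (Real.exp (-s) * -p.c)) * e2i -
    (Real.exp (-t) * -(p.c * x + (1 + p.lam⁻¹) * z)) * e2r -
    (α.re * (Real.exp s * (1 + p.lam)) - α.im * (Real.exp (-s) * -(1 + p.lam⁻¹))) * e1i -
    (p.c * (p.lam - p.lam⁻¹) * (x * w - y * z)) * hEt +
    (p.c * (p.lam - p.lam⁻¹) * (α.re ^ 2 + α.im ^ 2)) * hEs

lemma exists_rel {s t : ℝ} {α : ℂ}
    (h : ∀ w ∈ (stretchPair s p.L).lattice, α * w ∈ (stretchPair t p.L).lattice) :
    ∃ x y z w : ℤ, p.Rel s t α x y z w := by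
  have h1 := h _ (stretchPair s p.L).ω₁_mem_lattice
  have h2 := h _ (stretchPair s p.L).ω₂_mem_lattice
  rw [PeriodPair.mem_lattice] at h1 h2
  obtain ⟨x, z, h1⟩ := h1
  obtain ⟨y, w, h2⟩ := h2
  refine ⟨x, y, z, w, fun v => ?_⟩
  have e1 : (stretchPair s p.L).ω₁ = stretch s p.L.ω₁ := rfl
  have e2 : (stretchPair s p.L).ω₂ = stretch s p.L.ω₂ := rfl
  have e3 : (stretchPair t p.L).ω₁ = stretch t p.L.ω₁ := rfl
  have e4 : (stretchPair t p.L).ω₂ = stretch t p.L.ω₂ := rfl
  rw [e1, e3, e4] at h1
  rw [e2, e3, e4] at h2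
  rw [per_apply, per_apply, stretch_add, stretch_add, stretch_real_mul, stretch_real_mul,
    stretch_real_mul, stretch_real_mul]
  simp only [lin]
  push_cast
  linear_combination (v.1 : ℂ) * h1 + (v.2 : ℂ) * h2

end Par

/-- **Simplicity** of the closed geodesics. -/
theorem simple_geodesic {S : Type} [TopologicalSpace S] [CompactSpace S] [T2Space S]
    (C : TorusCover S) (p : Par) (hP : C.P = p.P) (H : HalfTranslation S)
    (hH : H.charts = C.charts p.L) (s t : ℝ) (hst : H.SameModuli s t) :
    ∃ n : ℤ, t - s = n * p.r := by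
  obtain ⟨Φ, h1, h2⟩ := hst
  have hG := C.germProp_of_conformal H p.L hH s t Φ h1 h2
  have hG' := C.germProp_of_conformal H p.L hH t s Φ.symm h2 h1
  have hcard : 8 < C.P.card := by
    rw [hP, p.card_P]
    norm_num
  have hd := C.dichotomy p.Q (by rw [p.card_Q]; norm_num) p.neg_notMem_Q
    (by intro θ; rw [hP]; exact p.mem_P_iff_Q θ) _ _ Φ hG
  have hd' := C.dichotomy p.Q (by rw [p.card_Q]; norm_num) p.neg_notMem_Q
    (by intro θ; rw [hP]; exact p.mem_P_iff_Q θ) _ _ Φ.symm hG'
  have hτ := C.φ_comp_τ hcard Φ hd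
  have hτ' := C.φ_comp_τ hcard Φ.symm hd'
  obtain ⟨α, β, ha⟩ := C.exists_affine _ _ Φ hG hτ
  obtain ⟨α', β', ha'⟩ := C.exists_affine _ _ Φ.symm hG' hτ'
  have key : ∀ z, cproj (stretchPair s p.L) (α' * (α * z + β) + β') =
      cproj (stretchPair s p.L) z := by
    intro z
    have hx : C.φ (C.pt (cproj (stretchPair s p.L) z)) = cproj (stretchPair s p.L) z := C.φ_pt _
    have h3 := ha _ z hx
    have h4 := ha' _ _ h3
    rw [Φ.symm_apply_apply, hx] at h4
    exact h4.symm
  have hαα : α' * α = 1 := by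
    have hmem : ∀ᶠ z in 𝓝 (0 : ℂ), (fun z => (α' * α - 1) * z + (α' * β + β')) z ∈
        (stretchPair s p.L).lattice := by
      apply Eventually.of_forall
      intro z
      have := key z
      rw [cproj_eq_iff] at this
      simp only
      have e : (α' * α - 1) * z + (α' * β + β') = α' * (α * z + β) + β' - z := by ring
      rw [e]
      exact this
    have h3 := eventually_const_of_lattice (stretchPair s p.L) (x := (0 : ℂ))
      (u := fun z => (α' * α - 1) * z + (α' * β + β')) (by fun_prop) hmem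
    have h4 := (h3.filter_mono (nhdsWithin_le_nhds (s := {(0 : ℂ)}ᶜ)))
    obtain ⟨z, hz, hz0⟩ := (h4.and self_mem_nhdsWithin).exists
    simp only [mul_zero, zero_add, add_eq_right, mul_eq_zero] at hz
    rcases hz with h | h
    · linear_combination h
    · exact absurd h hz0
  have hlat : ∀ w ∈ (stretchPair s p.L).lattice, α * w ∈ (stretchPair t p.L).lattice := by
    intro w hw
    have hx : C.φ (C.pt (cproj (stretchPair s p.L) 0)) = cproj (stretchPair s p.L) 0 := C.φ_pt _
    have hx' : C.φ (C.pt (cproj (stretchPair s p.L) 0)) = cproj (stretchPair s p.L) (0 + w) := by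
      rw [cproj_add_lattice _ _ _ hw]
      exact hx
    have h3 := (ha _ _ hx').symm.trans (ha _ _ hx)
    rw [cproj_eq_iff] at h3
    have e : α * (0 + w) + β - (α * 0 + β) = α * w := by ring
    rwa [e] at h3
  have hlat' : ∀ w ∈ (stretchPair t p.L).lattice, α' * w ∈ (stretchPair s p.L).lattice := by
    intro w hw
    have hx : C.φ (C.pt (cproj (stretchPair t p.L) 0)) = cproj (stretchPair t p.L) 0 := C.φ_pt _
    have hx' : C.φ (C.pt (cproj (stretchPair t p.L) 0)) = cproj (stretchPair t p.L) (0 + w) := by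
      rw [cproj_add_lattice _ _ _ hw]
      exact hx
    have h3 := (ha' _ _ hx').symm.trans (ha' _ _ hx)
    rw [cproj_eq_iff] at h3
    have e : α' * (0 + w) + β' - (α' * 0 + β') = α' * w := by ring
    rwa [e] at h3
  obtain ⟨x, y, z, w, hrel⟩ := p.exists_rel hlat
  obtain ⟨x', y', z', w', hrel'⟩ := p.exists_rel hlat'
  have d1 := p.det_of_rel hrel
  have d2 := p.det_of_rel hrel'
  have hprod : ((x * w - y * z) * (x' * w' - y' * z') : ℤ) = 1 := by
    have h3 : (α'.re ^ 2 + α'.im ^ 2) * (α.re ^ 2 + α.im ^ 2) = 1 := by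
      have hr := congrArg Complex.re hαα
      have hi := congrArg Complex.im hαα
      simp only [Complex.mul_re, Complex.mul_im, Complex.one_re, Complex.one_im] at hr hi
      linear_combination (α'.re * α.re - α'.im * α.im + 1) * hr +
        (α'.re * α.im + α'.im * α.re) * hi
    rw [← d1, ← d2] at h3
    have h4 : (((x * w - y * z) * (x' * w' - y' * z') : ℤ) : ℝ) = 1 := by
      push_cast
      linear_combination h3
    exact_mod_cast h4
  have hdet : x * w - y * z = 1 := by
    rcases Int.eq_one_or_neg_one_of_mul_eq_one hprod with h | h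
    · exact h
    · exfalso
      have h3 : ((x * w - y * z : ℤ) : ℝ) = α.re ^ 2 + α.im ^ 2 := by
        push_cast
        exact d1
      rw [h] at h3
      have := sq_nonneg α.re
      have := sq_nonneg α.im
      push_cast at h3
      linarith
  have hαnorm : α.re ^ 2 + α.im ^ 2 = 1 := by
    rw [← d1]
    exact_mod_cast hdet
  have hpres : ∀ θ ∈ p.P, act x y z w θ + cproj (stretchPair t p.L) β ∈ p.P := by
    intro θ hθ
    obtain ⟨v, rfl⟩ := proj_surjective θ
    have hx : C.φ (C.pt (proj v)) = cproj (stretchPair s p.L) (per (stretchPair s p.L) v) := by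
      rw [cproj_per]
      exact C.φ_pt _
    have h3 := ha _ _ hx
    have h4 : C.φ (Φ (C.pt (proj v))) ∈ C.P := by
      rw [C.mem_P_iff Φ hτ, C.φ_pt, hP]
      exact hθ
    rw [h3, hP, per_stretchPair, cproj_add, ← hrel v, ← per_stretchPair, cproj_per, proj_lin] at h4
    exact h4
  obtain ⟨ε, hε, hcong⟩ := p.cong_of_preserves hdet hpres
  set k : ℤ := round ((t - s) / p.r) with hk
  obtain ⟨x'', y'', z'', w'', ε'', hε'', hrel'', hcong''⟩ := p.steps hε hrel hcong k
  have hr := p.r_pos
  have hst : |s - (t - k * p.r)| ≤ p.r / 2 := by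
    have h3 := abs_sub_round ((t - s) / p.r)
    rw [← hk] at h3
    have e : s - (t - k * p.r) = -(((t - s) / p.r - k) * p.r) := by
      field_simp
      ring
    rw [e, abs_neg, abs_mul, abs_of_pos hr]
    nlinarith
  have h3 := p.trace_arg hε'' hrel'' hcong'' hαnorm hst
  exact ⟨k, by linarith⟩

end Pool.Agent.SimpleSpectrum
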