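import Pool.Agent.SimpleSpectrum.Simple

/-!
The half-translation surface defined by a double cover of the torus.
-/

set_option autoImplicit false

open Filter Topology

namespace Pool.Agent.SimpleSpectrum

namespace TorusCover

variable {S : Type} [TopologicalSpace S] (C : TorusCover S)

/-- Coordinates at the branch points whose square is a flat coordinate. -/
def ConeData (L : PeriodPair) : Prop :=
  ∀ x, C.φ x ∈ C.P → ∃ w : OpenPartialHomeomorph S ℂ, x ∈ w.source ∧ w x = 0 ∧
    ∃ z₀ : ℂ, ∀ y ∈ w.source, cproj L (w y ^ 2 + z₀) = C.φ y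

/-- the cone points -/
noncomputable def sing : Finset S := open Classical in C.P.image C.pt

lemma mem_sing (x : S) : x ∈ C.sing ↔ C.φ x ∈ C.P := by
  classical
  rw [sing, Finset.mem_image]
  constructor
  · rintro ⟨θ, hθ, rfl⟩
    rwa [C.φ_pt]
  · intro h
    refine ⟨C.φ x, h, ?_⟩
    rcases C.eq_pt_or x with h1 | h1
    · exact h1.symm
    · have hfix : C.τ (C.pt (C.φ x)) = C.pt (C.φ x) := (C.fixed _).mpr (by rwa [C.φ_pt])
      rw [hfix] at h1
      exact h1.symm

lemma card_sing : C.sing.card = C.P.card := by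
  classical
  rw [sing, Finset.card_image_of_injective]
  intro a b hab
  have := congrArg C.φ hab
  rwa [C.φ_pt, C.φ_pt] at this

/-- The surface. -/
noncomputable def surface [T2Space S] (L : PeriodPair) (hc : C.ConeData L) : HalfTranslation S where
  sing := C.sing
  prongs := fun _ => 4
  charts := C.charts L
  regular := by
    intro ζ hζ x hx
    rw [mem_sing]
    exact (hζ x hx).1
  cover := by
    intro x hx
    rw [mem_sing] at hx
    exact C.exists_chart L hx
  compat := by
    intro ζ hζ ξ hξ x hx hx'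
    refine ⟨1, ξ x - ζ x, Or.inl rfl, ?_⟩
    have h1 : ∀ᶠ y in 𝓝 x, cproj L (ξ y) = cproj L (ζ y) := by
      filter_upwards [ζ.open_source.mem_nhds hx, ξ.open_source.mem_nhds hx'] with y hy hy'
      rw [(hζ y hy).2, (hξ y hy').2]
    have h2 := eventually_sub_const L (ξ.continuousAt hx') (ζ.continuousAt hx) h1
    filter_upwards [h2] with y hy
    rw [hy, one_mul]
  cone := by
    intro x hx
    rw [mem_sing] at hx
    refine ⟨by norm_num, ?_⟩
    obtain ⟨w, hxw, hw0, z₀, hw⟩ := hc x hx
    refine ⟨w, hxw, hw0, ?_⟩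
    intro ζ hζ y hy hyw
    refine ⟨z₀ + (ζ y - (w y ^ 2 + z₀)), ?_⟩
    have h1 : ∀ᶠ v in 𝓝 y, cproj L (ζ v) = cproj L (w v ^ 2 + z₀) := by
      filter_upwards [ζ.open_source.mem_nhds hy, w.open_source.mem_nhds hyw] with v hv hv'
      rw [(hζ v hv).2, hw v hv']
    have hcont : ContinuousAt (fun v => w v ^ 2 + z₀) y :=
      ((w.continuousAt hyw).pow 2).add continuousAt_const
    have h2 := eventually_sub_const L (ζ.continuousAt hy) hcont h1
    filter_upwards [h2] with v hv
    rw [hv]
    ring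

variable {C}

lemma surface_hasGenus [T2Space S] {L : PeriodPair} (hc : C.ConeData L) (hcard : C.P.card = 20) :
    (C.surface L hc).HasGenus 11 := by
  unfold HalfTranslation.HasGenus
  simp only [surface]
  rw [Finset.sum_const, C.card_sing, hcard]
  norm_num

end TorusCover

namespace Par

variable (p : Par)

/-- The torus automorphism `- A`. -/
lemma per_negA (v : ℝ × ℝ) :
    per p.L (lin 1 p.b (-p.c) (1 - p.b * p.c) v) = -stretch p.r (per p.L v) := by
  rw [← p.per_A, ← map_neg]
  congr 1
  apply Prod.ext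
  · simp only [lin, Prod.fst_neg]
    push_cast
    ring
  · simp only [lin, Prod.snd_neg]
    push_cast
    ring

lemma act_negA_cproj (z : ℂ) :
    act 1 p.b (-p.c) (1 - p.b * p.c) (cproj p.L z) = cproj p.L (-stretch p.r z) := by
  obtain ⟨v, rfl⟩ := (per p.L).surjective z
  rw [cproj_per, ← proj_lin, ← per_negA, cproj_per]

lemma act_negA_fix {θ : Tor} (h : θ ∈ p.P) : act 1 p.b (-p.c) (1 - p.b * p.c) θ = θ := by
  rw [mem_P] at h
  rcases h with ⟨k, -, -, rfl⟩ | ⟨k, -, -, rfl⟩
  · apply Prod.ext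
    · simp [act, e₁_snd]
    · simp only [act, e₁_snd, smul_zero, add_zero]
      have := congrArg Prod.fst (p.zsmul_e₁ (-p.c) k)
      simp only [Prod.smul_fst] at this
      rw [this, e₁_fst]
      rw [coe_div_eq_zero p.c_pos']
      exact ⟨-(2 * k), by ring⟩
  · apply Prod.ext
    · simp only [act, e₂_fst, smul_zero, zero_add]
      have := congrArg Prod.snd (p.zsmul_e₂ p.b k)
      simp only [Prod.smul_snd] at this
      rw [this, e₂_snd]
      rw [coe_div_eq_zero p.b_pos']
      exact ⟨2 * k, by ring⟩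
    · simp only [act, e₂_fst, smul_zero, zero_add]
      have := congrArg Prod.snd (p.zsmul_e₂ (1 - p.b * p.c) k)
      simp only [Prod.smul_snd] at this
      rw [this, e₂_snd, e₂_snd, coe_div_eq_iff p.b_pos']
      exact ⟨-(2 * p.c * k), by ring⟩

lemma act_negA_mem_iff {θ : Tor} : act 1 p.b (-p.c) (1 - p.b * p.c) θ ∈ p.P ↔ θ ∈ p.P := by
  constructor
  · intro h
    have h1 := p.act_negA_fix h
    have hinj : Function.Injective (act 1 p.b (-p.c) (1 - p.b * p.c)) :=
      act_injective (by ring)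
    have h2 := hinj h1
    rwa [h2] at h
  · intro h
    rw [p.act_negA_fix h]
    exact h

/-- A homeomorphism covering the hyperbolic automorphism is pseudo-Anosov. -/
theorem isPseudoAnosov {S : Type} [TopologicalSpace S] [T2Space S] (C : TorusCover S)
    (hP : C.P = p.P) (hc : C.ConeData p.L) (f : S ≃ₜ S)
    (hf : ∀ x, C.φ (f x) = act 1 p.b (-p.c) (1 - p.b * p.c) (C.φ x)) :
    (C.surface p.L hc).IsPseudoAnosov f p.r where
  pos := p.r_pos
  sing_iff := by
    intro x
    show f x ∈ C.sing ↔ x ∈ C.sing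
    rw [C.mem_sing, C.mem_sing, hf, hP, p.act_negA_mem_iff]
  affine := by
    intro ζ hζ ξ hξ x hx hfx
    have hζ' : ∀ y ∈ ζ.source, C.φ y ∉ C.P ∧ cproj p.L (ζ y) = C.φ y := hζ
    have hξ' : ∀ y ∈ ξ.source, C.φ y ∉ C.P ∧ cproj p.L (ξ y) = C.φ y := hξ
    refine ⟨-1, ξ (f x) - (-stretch p.r (ζ x)), Or.inr rfl, ?_⟩
    have hnear : ∀ᶠ y in 𝓝 x, f y ∈ ξ.source :=
      f.continuous.continuousAt.eventually (ξ.open_source.mem_nhds hfx)
    have h1 : ∀ᶠ y in 𝓝 x, cproj p.L (ξ (f y)) = cproj p.L (-stretch p.r (ζ y)) := by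
      filter_upwards [ζ.open_source.mem_nhds hx, hnear] with y hy hy'
      rw [(hξ' _ hy').2, hf, ← (hζ' y hy).2, p.act_negA_cproj]
    have c1 : ContinuousAt (fun y => ξ (f y)) x :=
      ContinuousAt.comp (f := f) (ξ.continuousAt hfx) f.continuous.continuousAt
    have c2 : ContinuousAt (fun y => -stretch p.r (ζ y)) x :=
      ((continuous_stretch p.r).continuousAt.comp (ζ.continuousAt hx)).neg
    have h2 := eventually_sub_const p.L c1 c2 h1
    filter_upwards [h2] with y hy
    rw [hy]
    ring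

end Par

end Pool.Agent.SimpleSpectrum
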