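import Pool.Agent.SimpleSpectrum.Weierstrass

/-!
The torus `R^2/Z^2`, its projection from the plane, and period coordinates.
-/

set_option autoImplicit false

open Filter Topology

namespace Pool.Agent.SimpleSpectrum

/-- The two-torus. -/
abbrev Tor : Type := UnitAddCircle × UnitAddCircle

/-- The projection of the plane onto the torus. -/
def proj (v : ℝ × ℝ) : Tor := ((v.1 : UnitAddCircle), (v.2 : UnitAddCircle))

lemma proj_add (v w : ℝ × ℝ) : proj (v + w) = proj v + proj w := by
  simp [proj]

lemma proj_sub (v w : ℝ × ℝ) : proj (v - w) = proj v - proj w := by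
  simp [proj]

lemma proj_neg (v : ℝ × ℝ) : proj (-v) = -proj v := by
  simp [proj]

@[simp] lemma proj_zero : proj 0 = 0 := by
  simp [proj]

lemma continuous_proj : Continuous proj := by
  unfold proj
  exact ((AddCircle.continuous_mk' _).comp continuous_fst).prodMk
    ((AddCircle.continuous_mk' _).comp continuous_snd)

lemma proj_surjective : Function.Surjective proj := by
  rintro ⟨a, b⟩
  obtain ⟨x, rfl⟩ := QuotientAddGroup.mk_surjective a
  obtain ⟨y, rfl⟩ := QuotientAddGroup.mk_surjective b
  exact ⟨(x, y), rfl⟩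

lemma coe_eq_zero_iff_int (x : ℝ) : (x : UnitAddCircle) = 0 ↔ ∃ n : ℤ, (n : ℝ) = x := by
  rw [AddCircle.coe_eq_zero_iff]
  simp

lemma proj_eq_zero_iff (v : ℝ × ℝ) : proj v = 0 ↔ ∃ m n : ℤ, v = ((m : ℝ), (n : ℝ)) := by
  rw [proj, Prod.mk_eq_zero, coe_eq_zero_iff_int, coe_eq_zero_iff_int]
  constructor
  · rintro ⟨⟨m, hm⟩, ⟨n, hn⟩⟩
    exact ⟨m, n, by ext <;> simp [hm, hn]⟩
  · rintro ⟨m, n, rfl⟩
    exact ⟨⟨m, rfl⟩, ⟨n, rfl⟩⟩

lemma isLocalHomeomorph_proj : IsLocalHomeomorph proj := by
  intro v
  obtain ⟨e₁, h₁, g₁⟩ := AddCircle.isLocalHomeomorph_coe (1 : ℝ) v.1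
  obtain ⟨e₂, h₂, g₂⟩ := AddCircle.isLocalHomeomorph_coe (1 : ℝ) v.2
  refine ⟨e₁.prod e₂, ⟨h₁, h₂⟩, ?_⟩
  funext w
  simp only [OpenPartialHomeomorph.prod_apply, proj, ← g₁, ← g₂]

lemma isOpenMap_proj : IsOpenMap proj := isLocalHomeomorph_proj.isOpenMap

/-- Period coordinates: the linear isomorphism from the plane sending the standard basis to the
two periods. -/
noncomputable def per (L : PeriodPair) : (ℝ × ℝ) ≃L[ℝ] ℂ :=
  ((LinearEquiv.finTwoArrow ℝ ℝ).symm.trans L.basis.equivFun.symm).toContinuousLinearEquiv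

lemma per_apply (L : PeriodPair) (v : ℝ × ℝ) : per L v = v.1 * L.ω₁ + v.2 * L.ω₂ := by
  simp [per, Fin.sum_univ_two, Module.Basis.equivFun_symm_apply]

lemma per_int_mem (L : PeriodPair) (m n : ℤ) : per L ((m : ℝ), (n : ℝ)) ∈ L.lattice := by
  rw [per_apply, PeriodPair.mem_lattice]
  exact ⟨m, n, by simp⟩

lemma per_mem_iff (L : PeriodPair) (v : ℝ × ℝ) : per L v ∈ L.lattice ↔ proj v = 0 := by
  rw [proj_eq_zero_iff]
  constructor
  · intro h
    rw [PeriodPair.mem_lattice] at h
    obtain ⟨m, n, h⟩ := h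
    refine ⟨m, n, ?_⟩
    apply (per L).injective
    rw [← h, per_apply]
    simp
  · rintro ⟨m, n, rfl⟩
    exact per_int_mem L m n

/-- The projection of the complex plane onto the torus through period coordinates. -/
noncomputable def cproj (L : PeriodPair) (z : ℂ) : Tor := proj ((per L).symm z)

lemma cproj_per (L : PeriodPair) (v : ℝ × ℝ) : cproj L (per L v) = proj v := by
  simp [cproj]

lemma continuous_cproj (L : PeriodPair) : Continuous (cproj L) :=
  continuous_proj.comp (per L).symm.continuous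

lemma cproj_surjective (L : PeriodPair) : Function.Surjective (cproj L) :=
  proj_surjective.comp (per L).symm.surjective

lemma isLocalHomeomorph_cproj (L : PeriodPair) : IsLocalHomeomorph (cproj L) :=
  isLocalHomeomorph_proj.comp (per L).symm.toHomeomorph.isLocalHomeomorph

lemma isOpenMap_cproj (L : PeriodPair) : IsOpenMap (cproj L) :=
  (isLocalHomeomorph_cproj L).isOpenMap

lemma cproj_add (L : PeriodPair) (z w : ℂ) : cproj L (z + w) = cproj L z + cproj L w := by
  simp [cproj, proj_add]

lemma cproj_sub (L : PeriodPair) (z w : ℂ) : cproj L (z - w) = cproj L z - cproj L w := by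
  simp [cproj, proj_sub]

lemma cproj_neg (L : PeriodPair) (z : ℂ) : cproj L (-z) = -cproj L z := by
  simp [cproj, proj_neg]

lemma cproj_zero (L : PeriodPair) : cproj L 0 = 0 := by
  simp [cproj]

lemma cproj_eq_zero_iff (L : PeriodPair) (z : ℂ) : cproj L z = 0 ↔ z ∈ L.lattice := by
  rw [cproj, ← per_mem_iff L]
  simp

lemma cproj_eq_iff (L : PeriodPair) (z w : ℂ) : cproj L z = cproj L w ↔ z - w ∈ L.lattice := by
  rw [← cproj_eq_zero_iff, cproj_sub, sub_eq_zero]

lemma cproj_add_lattice (L : PeriodPair) (z w : ℂ) (hw : w ∈ L.lattice) :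
    cproj L (z + w) = cproj L z := by
  rw [cproj_add, (cproj_eq_zero_iff L w).mpr hw, add_zero]

/-- Points close to a lattice point that lie in the lattice coincide with it. -/
lemma eventually_lattice_eq (L : PeriodPair) {l : ℂ} :
    ∀ᶠ z in 𝓝 l, z ∈ L.lattice → z = l := by
  filter_upwards [L.compl_lattice_sdiff_singleton_mem_nhds l] with z hz hmem
  by_contra hne
  exact hz ⟨hmem, hne⟩

/-- A function that takes lattice values near a point and is continuous there is locally
constant at this point. -/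
lemma eventually_const_of_lattice {X : Type*} [TopologicalSpace X] (L : PeriodPair) {u : X → ℂ}
    {x : X} (hu : ContinuousAt u x) (hmem : ∀ᶠ y in 𝓝 x, u y ∈ L.lattice) :
    ∀ᶠ y in 𝓝 x, u y = u x := by
  have hx := hmem.self_of_nhds
  filter_upwards [hmem, hu.eventually (eventually_lattice_eq L (l := u x))] with y hy1 hy2
  exact hy2 hy1

/-- Two lifts that are continuous at a point differ by a constant near this point. -/
lemma eventually_sub_const {X : Type*} [TopologicalSpace X] (L : PeriodPair) {u v : X → ℂ}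
    {x : X} (hu : ContinuousAt u x) (hv : ContinuousAt v x)
    (h : ∀ᶠ y in 𝓝 x, cproj L (u y) = cproj L (v y)) :
    ∀ᶠ y in 𝓝 x, u y = v y + (u x - v x) := by
  have h1 : ∀ᶠ y in 𝓝 x, u y - v y ∈ L.lattice := by
    filter_upwards [h] with y hy
    exact (cproj_eq_iff L _ _).mp hy
  have h2 := eventually_const_of_lattice L (hu.sub hv) h1
  filter_upwards [h2] with y hy
  simp only [Pi.sub_apply] at hy
  rw [← hy]
  ring

lemma countable_cproj_preimage (L : PeriodPair) {F : Set Tor} (hF : F.Countable) :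
    (cproj L ⁻¹' F).Countable := by
  have h : cproj L ⁻¹' F = ⋃ θ ∈ F, cproj L ⁻¹' {θ} := by
    ext z
    simp
  rw [h]
  refine hF.biUnion fun θ _ => ?_
  obtain ⟨w, hw⟩ := cproj_surjective L θ
  have h2 : cproj L ⁻¹' {θ} = (fun x => w + x) '' (L.lattice : Set ℂ) := by
    ext z
    simp only [Set.mem_preimage, Set.mem_singleton_iff, Set.mem_image, SetLike.mem_coe]
    rw [← hw, cproj_eq_iff]
    constructor
    · intro h
      exact ⟨z - w, h, by ring⟩
    · rintro ⟨x, hx, rfl⟩
      simpa using hx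
  rw [h2]
  exact (countable_lattice L).image _

/-- Near a point, the projection avoids a finite set except possibly at the point. -/
lemma eventually_cproj_notMem (L : PeriodPair) (F : Finset Tor) (z₀ : ℂ) :
    ∀ᶠ z in 𝓝[≠] z₀, cproj L z ∉ F := by
  have h : ∀ θ ∈ F, ∀ᶠ z in 𝓝[≠] z₀, cproj L z ≠ θ := by
    intro θ _
    by_cases hθ : cproj L z₀ = θ
    · -- local injectivity
      have h1 : ∀ᶠ z in 𝓝 z₀, z - z₀ ∈ L.lattice → z - z₀ = 0 := by
        have hc : ContinuousAt (fun z : ℂ => z - z₀) z₀ := by fun_prop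
        have h2 := eventually_lattice_eq L (l := 0)
        have h3 : ∀ᶠ z in 𝓝 ((fun z : ℂ => z - z₀) z₀), z ∈ L.lattice → z = 0 := by
          simpa using h2
        exact hc.eventually h3
      filter_upwards [h1.filter_mono nhdsWithin_le_nhds, self_mem_nhdsWithin] with z hz hne heq
      rw [← hθ, cproj_eq_iff] at heq
      exact hne (sub_eq_zero.mp (hz heq))
    · have : ∀ᶠ z in 𝓝 z₀, cproj L z ≠ θ :=
        (continuous_cproj L).continuousAt.eventually (isOpen_ne.mem_nhds hθ)
      exact this.filter_mono nhdsWithin_le_nhds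
  have h2 : ∀ᶠ z in 𝓝[≠] z₀, ∀ θ ∈ F, cproj L z ≠ θ := by
    rw [Filter.eventually_all_finset]
    exact h
  filter_upwards [h2] with z hz hmem
  exact hz _ hmem rfl

/-- Bounded periodic functions, holomorphic off finitely many classes and bounded near them,
are constant off these classes. -/
theorem periodic_liouville (L : PeriodPair) (F : Finset Tor) (W : ℂ → ℂ)
    (hper : ∀ z w, w ∈ L.lattice → W (z + w) = W z)
    (hdiff : ∀ z, cproj L z ∉ F → DifferentiableAt ℂ W z)
    (hbdd : ∀ z, cproj L z ∈ F → ∃ C : ℝ, ∀ᶠ w in 𝓝[≠] z, ‖W w‖ ≤ C) :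
    ∃ κ : ℂ, ∀ z, cproj L z ∉ F → W z = κ := by
  classical
  set V : ℂ → ℂ := fun z => limUnder (𝓝[≠] z) W with hV
  have hVeq : ∀ z, cproj L z ∉ F → V z = W z := by
    intro z hz
    have : Tendsto W (𝓝[≠] z) (𝓝 (W z)) :=
      (hdiff z hz).continuousAt.tendsto.mono_left nhdsWithin_le_nhds
    exact this.limUnder_eq
  have hVdiff : Differentiable ℂ V := by
    intro z
    -- a neighbourhood on which all other points are good
    obtain ⟨s, hs, hgood⟩ : ∃ s ∈ 𝓝 z, ∀ w ∈ s, w ≠ z → cproj L w ∉ F := by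
      have h := eventually_cproj_notMem L F z
      rw [eventually_nhdsWithin_iff] at h
      exact ⟨_, h, fun w hw hne => hw hne⟩
    by_cases hz : cproj L z ∈ F
    · obtain ⟨C, hC⟩ := hbdd z hz
      rw [eventually_nhdsWithin_iff] at hC
      obtain ⟨t, ht, hts⟩ : ∃ t ∈ 𝓝 z, ∀ w ∈ t, (w ≠ z → ‖W w‖ ≤ C) ∧ w ∈ s := by
        exact ⟨_, hC.and hs, fun w hw => hw⟩
      obtain ⟨o, hot, ho, hzo⟩ := mem_nhds_iff.mp ht
      have h1 : DifferentiableOn ℂ W (o \ {z}) := by
        intro w hw
        exact (hdiff w (hgood w (hts w (hot hw.1)).2 hw.2)).differentiableWithinAt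
      have h2 : BddAbove (norm ∘ W '' (o \ {z})) := by
        refine ⟨C, ?_⟩
        rintro _ ⟨w, hw, rfl⟩
        exact (hts w (hot hw.1)).1 hw.2
      have h3 := Complex.differentiableOn_update_limUnder_of_bddAbove (ho.mem_nhds hzo) h1 h2
      have h4 := (h3 z hzo).differentiableAt (ho.mem_nhds hzo)
      apply h4.congr_of_eventuallyEq
      filter_upwards [ho.mem_nhds hzo] with w hw
      by_cases hwz : w = z
      · subst hwz
        simp [hV]
      · rw [Function.update_of_ne hwz]
        exact hVeq w (hgood w (hts w (hot hw)).2 hwz)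
    · have h1 : V =ᶠ[𝓝 z] W := by
        filter_upwards [hs] with w hw
        by_cases hwz : w = z
        · subst hwz
          exact hVeq w hz
        · exact hVeq w (hgood w hw hwz)
      exact (hdiff z hz).congr_of_eventuallyEq h1
  have hVper : ∀ z w, w ∈ L.lattice → V (z + w) = V z := by
    intro z w hw
    -- compare on the dense set of good points
    have hcont1 : Continuous fun z => V (z + w) := hVdiff.continuous.comp (by fun_prop)
    have hdense : Dense ((cproj L ⁻¹' (F : Set Tor))ᶜ) :=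
      dense_compl_of_countable (countable_cproj_preimage L F.countable_toSet)
    have heq : Set.EqOn (fun z => V (z + w)) V ((cproj L ⁻¹' (F : Set Tor))ᶜ) := by
      intro x hx
      have hx1 : cproj L x ∉ F := by simpa using hx
      have hx2 : cproj L (x + w) ∉ F := by rwa [cproj_add_lattice L x w hw]
      simp only
      rw [hVeq _ hx2, hVeq _ hx1, hper x w hw]
    exact congrFun (Continuous.ext_on hdense hcont1 hVdiff.continuous heq) z
  have hbd : Bornology.IsBounded (Set.range V) :=
    (IsZLattice.isCompact_range_of_periodic L.lattice V hVdiff.continuous hVper).isBounded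
  refine ⟨V 0, fun z hz => ?_⟩
  rw [← hVeq z hz]
  exact hVdiff.apply_eq_apply_of_bounded hbd z 0

end Pool.Agent.SimpleSpectrum
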