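import Mathlib

/-!
Facts on the Weierstrass function used in the rigidity argument: it separates points modulo
sign and lattice, its derivative only vanishes at half periods, and it is surjective.
-/

set_option autoImplicit false

open Filter Topology

namespace Pool.Agent.SimpleSpectrum

/-- A solution of `d'' = h d` with zero initial data vanishes near the base point. -/
lemma eventually_zero_of_ode {d h : ℂ → ℂ} {z₀ : ℂ} (hd : AnalyticAt ℂ d z₀)
    (hh : AnalyticAt ℂ h z₀) (hode : ∀ᶠ z in 𝓝 z₀, deriv (deriv d) z = h z * d z)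
    (h0 : d z₀ = 0) (h1 : deriv d z₀ = 0) : ∀ᶠ z in 𝓝 z₀, d z = 0 := by
  rw [← analyticOrderAt_eq_top]
  by_contra hne
  obtain ⟨n, hn⟩ : ∃ n : ℕ, analyticOrderAt d z₀ = n := by
    exact (ENat.ne_top_iff_exists.mp hne).imp fun _ h => h.symm
  have hn0 : n ≠ 0 := by
    rintro rfl
    rw [Nat.cast_zero, hd.analyticOrderAt_eq_zero] at hn
    exact hn h0
  obtain ⟨m, rfl⟩ := Nat.exists_eq_succ_of_ne_zero hn0
  have h2 : analyticOrderAt (deriv d) z₀ = m := by
    rw [← analyticOrderAt_deriv_eq_iff hd h0]
    simpa using hn
  have hm0 : m ≠ 0 := by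
    rintro rfl
    rw [Nat.cast_zero, hd.deriv.analyticOrderAt_eq_zero] at h2
    exact h2 h1
  obtain ⟨k, rfl⟩ := Nat.exists_eq_succ_of_ne_zero hm0
  have h3 : analyticOrderAt (deriv (deriv d)) z₀ = k := by
    rw [← analyticOrderAt_deriv_eq_iff hd.deriv h1]
    simpa using h2
  have h4 : analyticOrderAt (deriv (deriv d)) z₀ = analyticOrderAt (h * d) z₀ :=
    analyticOrderAt_congr hode
  rw [analyticOrderAt_mul hh hd, h3, hn] at h4
  have h5 : ((k + 2 : ℕ) : ℕ∞) ≤ (k : ℕ∞) := by
    rw [h4]
    exact le_add_self
  exact absurd (Nat.cast_le.mp h5) (by omega)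

variable (L : PeriodPair)

lemma countable_lattice : (L.lattice : Set ℂ).Countable := by
  have h : (L.lattice : Set ℂ) = Set.range (fun p : ℤ × ℤ => (p.1 : ℂ) * L.ω₁ + p.2 * L.ω₂) := by
    ext x
    simp only [SetLike.mem_coe, PeriodPair.mem_lattice, Set.mem_range, Prod.exists]
  rw [h]
  exact Set.countable_range _

lemma isPreconnected_compl_of_countable {s : Set ℂ} (hs : s.Countable) : IsPreconnected sᶜ := by
  have : 1 < Module.rank ℝ ℂ := by
    rw [Complex.rank_real_complex]
    norm_num
  exact (hs.isPathConnected_compl_of_one_lt_rank this).isConnected.isPreconnected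

lemma dense_compl_of_countable {s : Set ℂ} (hs : s.Countable) : Dense sᶜ :=
  Set.Countable.dense_compl ℝ hs

open PeriodPair in
lemma tendsto_weierstrassP_cobounded {l : ℂ} (hl : l ∈ L.lattice) :
    Tendsto (PeriodPair.weierstrassP L) (𝓝[≠] l) (Bornology.cobounded ℂ) := by
  apply tendsto_cobounded_of_meromorphicOrderAt_neg
  rw [L.order_weierstrassP l hl]
  decide

lemma analyticAt_wp {z : ℂ} (hz : z ∉ L.lattice) : AnalyticAt ℂ (PeriodPair.weierstrassP L) z :=
  L.analyticOnNhd_weierstrassP z hz

lemma analyticAt_wp' {z : ℂ} (hz : z ∉ L.lattice) :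
    AnalyticAt ℂ (PeriodPair.derivWeierstrassP L) z :=
  L.analyticOnNhd_derivWeierstrassP z hz

lemma eventually_notMem_lattice {z : ℂ} (hz : z ∉ L.lattice) :
    ∀ᶠ w in 𝓝 z, w ∉ L.lattice :=
  L.isClosed_lattice.isOpen_compl.mem_nhds hz

/-- The derivative of `wp` is not locally zero. -/
lemma not_eventually_wp'_zero {z : ℂ} (hz : z ∉ L.lattice) :
    ¬ ∀ᶠ w in 𝓝 z, PeriodPair.derivWeierstrassP L w = 0 := by
  intro h
  have hpre : IsPreconnected ((L.lattice : Set ℂ)ᶜ) :=
    isPreconnected_compl_of_countable (countable_lattice L)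
  have hzero : Set.EqOn (PeriodPair.derivWeierstrassP L) 0 ((L.lattice : Set ℂ)ᶜ) :=
    L.analyticOnNhd_derivWeierstrassP.eqOn_zero_of_preconnected_of_eventuallyEq_zero hpre hz h
  -- hence `wp` is constant off the lattice
  have hconst : ∃ c, ∀ w ∈ ((L.lattice : Set ℂ)ᶜ), PeriodPair.weierstrassP L w = c := by
    apply L.isClosed_lattice.isOpen_compl.exists_is_const_of_deriv_eq_zero (𝕜 := ℂ) hpre
      L.differentiableOn_weierstrassP
    intro w hw
    rw [L.deriv_weierstrassP]
    exact hzero hw
  obtain ⟨c, hc⟩ := hconst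
  have ht := tendsto_weierstrassP_cobounded L (zero_mem L.lattice)
  have ht2 : Tendsto (PeriodPair.weierstrassP L) (𝓝[≠] 0) (𝓝 c) := by
    apply Tendsto.congr' _ tendsto_const_nhds
    filter_upwards [self_mem_nhdsWithin,
      mem_nhdsWithin_of_mem_nhds (L.compl_lattice_sdiff_singleton_mem_nhds 0)] with w hw hw'
    rw [hc]
    intro hmem
    apply hw'
    exact ⟨hmem, hw⟩
  exact ht.not_tendsto (Metric.disjoint_nhds_cobounded c).symm ht2

/-- Second order equation for `wp`. -/
lemma deriv_wp' {z : ℂ} (hz : z ∉ L.lattice) :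
    deriv (PeriodPair.derivWeierstrassP L) z
      = 6 * PeriodPair.weierstrassP L z ^ 2 - L.g₂ / 2 := by
  set P := PeriodPair.weierstrassP L with hP
  set P' := PeriodPair.derivWeierstrassP L with hP'
  set b : ℂ → ℂ := fun w => deriv P' w - (6 * P w ^ 2 - L.g₂ / 2) with hb
  have hPa := analyticAt_wp L hz
  have hPa' := analyticAt_wp' L hz
  have hba : AnalyticAt ℂ b z := by
    have := hPa'.deriv
    have h2 : AnalyticAt ℂ (fun w => 6 * P w ^ 2 - L.g₂ / 2) z := by fun_prop
    exact this.sub h2
  have hmul : ∀ᶠ w in 𝓝 z, P' w * b w = 0 := by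
    filter_upwards [eventually_notMem_lattice L hz] with w hw
    have hid : (fun v => P' v ^ 2) =ᶠ[𝓝 w] fun v => 4 * P v ^ 3 - L.g₂ * P v - L.g₃ := by
      filter_upwards [eventually_notMem_lattice L hw] with v hv
      exact L.derivWeierstrassP_sq v hv
    have hd1 : HasDerivAt P (P' w) w := by
      have := (analyticAt_wp L hw).differentiableAt.hasDerivAt
      rwa [L.deriv_weierstrassP] at this
    have hd2 : HasDerivAt P' (deriv P' w) w := (analyticAt_wp' L hw).differentiableAt.hasDerivAt
    have e1 : HasDerivAt (fun v => P' v ^ 2) (2 * P' w * deriv P' w) w := by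
      have := hd2.fun_pow 2
      simpa [pow_one] using this
    have e2 : HasDerivAt (fun v => 4 * P v ^ 3 - L.g₂ * P v - L.g₃)
        (4 * (3 * P w ^ 2 * P' w) - L.g₂ * P' w) w := by
      have h3 := (hd1.fun_pow 3).const_mul 4
      have h4 := hd1.const_mul L.g₂
      have := (h3.sub h4).sub_const L.g₃
      simpa using this
    have e3 := (e1.congr_of_eventuallyEq hid.symm).unique e2
    have : 2 * (P' w * b w) = 0 := by
      simp only [hb]
      linear_combination e3
    simpa using this
  have horder : analyticOrderAt (P' * b) z = ⊤ := by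
    rw [analyticOrderAt_eq_top]
    exact hmul
  rw [analyticOrderAt_mul hPa' hba] at horder
  rcases ENat.add_eq_top.mp horder with h | h
  · rw [analyticOrderAt_eq_top] at h
    exact absurd h (not_eventually_wp'_zero L hz)
  · rw [analyticOrderAt_eq_top] at h
    have := h.self_of_nhds
    simp only [hb] at this
    linear_combination this

/-- Local uniqueness: equal values and derivatives up to a sign `e` of the parameter. -/
lemma wp_unique_aux {z w e : ℂ} (he : e = 1 ∨ e = -1) (hz : z ∉ L.lattice) (hw : w ∉ L.lattice)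
    (h0 : PeriodPair.weierstrassP L z = PeriodPair.weierstrassP L w)
    (h1 : PeriodPair.derivWeierstrassP L z = e * PeriodPair.derivWeierstrassP L w) :
    z - e * w ∈ L.lattice := by
  set P := PeriodPair.weierstrassP L with hP
  set P' := PeriodPair.derivWeierstrassP L with hP'
  have he2 : e * e = 1 := by rcases he with rfl | rfl <;> norm_num
  have he0 : e ≠ 0 := by rcases he with rfl | rfl <;> norm_num
  have heL : ∀ x : ℂ, e * x ∈ L.lattice ↔ x ∈ L.lattice := by
    intro x
    rcases he with rfl | rfl
    · simp
    · simp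
  -- the two functions u(t) = P (z + t), v(t) = P (w + e t)
  set u : ℂ → ℂ := fun t => P (z + t) with hu
  set v : ℂ → ℂ := fun t => P (w + e * t) with hv
  have ha1 : ∀ t, z + t ∉ L.lattice → HasDerivAt u (P' (z + t)) t := by
    intro t ht
    have h := (analyticAt_wp L ht).differentiableAt.hasDerivAt
    rw [L.deriv_weierstrassP] at h
    have h2 : HasDerivAt (fun t : ℂ => z + t) 1 t := (hasDerivAt_id t).const_add z
    have h3 := h.comp t h2
    rw [mul_one] at h3
    exact h3
  have ha2 : ∀ t, w + e * t ∉ L.lattice → HasDerivAt v (e * P' (w + e * t)) t := by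
    intro t ht
    have h := (analyticAt_wp L ht).differentiableAt.hasDerivAt
    rw [L.deriv_weierstrassP] at h
    have h2 : HasDerivAt (fun t : ℂ => w + e * t) e t := by
      simpa using ((hasDerivAt_id t).const_mul e).const_add w
    have := h.comp t h2
    rw [mul_comm] at this
    exact this
  have hau : ∀ t, z + t ∉ L.lattice → AnalyticAt ℂ u t := by
    intro t ht
    exact (analyticAt_wp L ht).comp_of_eq (by fun_prop) rfl
  have hav : ∀ t, w + e * t ∉ L.lattice → AnalyticAt ℂ v t := by
    intro t ht
    exact (analyticAt_wp L ht).comp_of_eq (by fun_prop) rfl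
  have hz0 : z + 0 ∉ L.lattice := by simpa using hz
  have hw0 : w + e * 0 ∉ L.lattice := by simpa using hw
  have hopen1 : ∀ t, z + t ∉ L.lattice → ∀ᶠ s in 𝓝 t, z + s ∉ L.lattice := by
    intro t ht
    have : ContinuousAt (fun s : ℂ => z + s) t := by fun_prop
    exact this.eventually (eventually_notMem_lattice L ht)
  have hopen2 : ∀ t, w + e * t ∉ L.lattice → ∀ᶠ s in 𝓝 t, w + e * s ∉ L.lattice := by
    intro t ht
    have : ContinuousAt (fun s : ℂ => w + e * s) t := by fun_prop
    exact this.eventually (eventually_notMem_lattice L ht)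
  have hdu : ∀ t, z + t ∉ L.lattice → deriv (deriv u) t = 6 * u t ^ 2 - L.g₂ / 2 := by
    intro t ht
    have h2 : deriv u =ᶠ[𝓝 t] fun s => P' (z + s) := by
      filter_upwards [hopen1 t ht] with s hs
      exact (ha1 s hs).deriv
    rw [h2.deriv_eq]
    have h3 : HasDerivAt (fun s => P' (z + s)) (deriv P' (z + t)) t := by
      have h := (analyticAt_wp' L ht).differentiableAt.hasDerivAt
      have h2 : HasDerivAt (fun t : ℂ => z + t) 1 t := (hasDerivAt_id t).const_add z
      have h3 := h.comp t h2
      rw [mul_one] at h3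
      exact h3
    rw [h3.deriv, deriv_wp' L ht]
  have hdv : ∀ t, w + e * t ∉ L.lattice → deriv (deriv v) t = 6 * v t ^ 2 - L.g₂ / 2 := by
    intro t ht
    have h2 : deriv v =ᶠ[𝓝 t] fun s => e * P' (w + e * s) := by
      filter_upwards [hopen2 t ht] with s hs
      exact (ha2 s hs).deriv
    rw [h2.deriv_eq]
    have h3 : HasDerivAt (fun s => e * P' (w + e * s)) (e * (deriv P' (w + e * t) * e)) t := by
      have h := (analyticAt_wp' L ht).differentiableAt.hasDerivAt
      have h2 : HasDerivAt (fun t : ℂ => w + e * t) e t := by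
        simpa using ((hasDerivAt_id t).const_mul e).const_add w
      exact (h.comp t h2).const_mul e
    rw [h3.deriv, deriv_wp' L ht]
    simp only [hv]
    linear_combination (6 * P (w + e * t) ^ 2 - L.g₂ / 2) * he2
  -- near zero they agree
  have hnear : ∀ᶠ t in 𝓝 (0 : ℂ), u t - v t = 0 := by
    apply eventually_zero_of_ode (h := fun t => 6 * (u t + v t))
    · exact (hau 0 hz0).sub (hav 0 hw0)
    · have := (hau 0 hz0).add (hav 0 hw0)
      exact analyticAt_const.mul this
    · filter_upwards [(hopen1 0 hz0).eventually_nhds, (hopen2 0 hw0).eventually_nhds] with t ht1 ht2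
      have e1 : deriv (fun t => u t - v t) =ᶠ[𝓝 t] fun s => deriv u s - deriv v s := by
        filter_upwards [ht1, ht2] with s hs1 hs2
        exact ((ha1 s hs1).differentiableAt.hasDerivAt.sub
          (ha2 s hs2).differentiableAt.hasDerivAt).deriv
      rw [e1.deriv_eq]
      have hd1 : DifferentiableAt ℂ (deriv u) t := (hau t ht1.self_of_nhds).deriv.differentiableAt
      have hd2 : DifferentiableAt ℂ (deriv v) t := (hav t ht2.self_of_nhds).deriv.differentiableAt
      have e2 : deriv (fun s => deriv u s - deriv v s) t = deriv (deriv u) t - deriv (deriv v) t :=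
        (hd1.hasDerivAt.sub hd2.hasDerivAt).deriv
      rw [e2, hdu t ht1.self_of_nhds, hdv t ht2.self_of_nhds]
      ring
    · simp only [hu, hv]
      simp [h0]
    · have e1 : HasDerivAt (fun t => u t - v t) (P' (z + 0) - e * P' (w + e * 0)) 0 :=
        (ha1 0 hz0).sub (ha2 0 hw0)
      rw [e1.deriv]
      simp [h1]
  -- global agreement on the complement of a countable set
  set A : Set ℂ := {t | z + t ∈ L.lattice} ∪ {t | w + e * t ∈ L.lattice} with hA
  have hAc : A.Countable := by
    apply Set.Countable.union
    · have : {t | z + t ∈ L.lattice} = (fun x => x - z) '' (L.lattice : Set ℂ) := by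
        ext t
        simp only [Set.mem_ofPred_eq, Set.mem_image, SetLike.mem_coe]
        constructor
        · intro h
          exact ⟨z + t, h, by ring⟩
        · rintro ⟨x, hx, rfl⟩
          simpa using hx
      rw [this]
      exact (countable_lattice L).image _
    · have : {t | w + e * t ∈ L.lattice} = (fun x => e * (x - w)) '' (L.lattice : Set ℂ) := by
        ext t
        simp only [Set.mem_ofPred_eq, Set.mem_image, SetLike.mem_coe]
        constructor
        · intro h
          refine ⟨w + e * t, h, ?_⟩
          linear_combination t * he2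
        · rintro ⟨x, hx, rfl⟩
          have : w + e * (e * (x - w)) = x := by linear_combination (x - w) * he2
          rwa [this]
      rw [this]
      exact (countable_lattice L).image _
  have hpre : IsPreconnected Aᶜ := isPreconnected_compl_of_countable hAc
  have hmemA : ∀ t, t ∈ Aᶜ → z + t ∉ L.lattice ∧ w + e * t ∉ L.lattice := by
    intro t ht
    simp only [hA, Set.mem_compl_iff, Set.mem_union, Set.mem_ofPred_eq, not_or] at ht
    exact ht
  have h0A : (0 : ℂ) ∈ Aᶜ := by
    simp only [hA, Set.mem_compl_iff, Set.mem_union, Set.mem_ofPred_eq, not_or]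
    exact ⟨hz0, hw0⟩
  have hglob : Set.EqOn (fun t => u t - v t) 0 Aᶜ := by
    have han : AnalyticOnNhd ℂ (fun t => u t - v t) Aᶜ := by
      intro t ht
      exact (hau t (hmemA t ht).1).sub (hav t (hmemA t ht).2)
    exact han.eqOn_zero_of_preconnected_of_eventuallyEq_zero hpre h0A hnear
  -- let t tend to -z
  by_contra hcon
  have hlim1 : Tendsto u (𝓝[≠] (-z)) (Bornology.cobounded ℂ) := by
    have h := tendsto_weierstrassP_cobounded L (zero_mem L.lattice)
    have h2 : Tendsto (fun t : ℂ => z + t) (𝓝[≠] (-z)) (𝓝[≠] 0) := by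
      apply tendsto_nhdsWithin_of_tendsto_nhds_of_eventually_within
      · have : Tendsto (fun t : ℂ => z + t) (𝓝 (-z)) (𝓝 (z + -z)) := by
          apply Continuous.tendsto
          fun_prop
        rw [add_neg_cancel] at this
        exact this.mono_left nhdsWithin_le_nhds
      · filter_upwards [self_mem_nhdsWithin] with t ht
        intro h0
        apply ht
        simp only [Set.mem_singleton_iff] at h0 ⊢
        linear_combination h0
    exact h.comp h2
  have hnm : w + e * (-z) ∉ L.lattice := by
    intro h
    apply hcon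
    have h2 : z - e * w = -(e * (w + e * -z)) := by linear_combination (-z) * he2
    rw [h2]
    exact neg_mem ((heL _).mpr h)
  have hlim2 : Tendsto v (𝓝[≠] (-z)) (𝓝 (v (-z))) :=
    (hav _ hnm).continuousAt.tendsto.mono_left nhdsWithin_le_nhds
  have hev : u =ᶠ[𝓝[≠] (-z)] v := by
    have e1 : ∀ᶠ t in 𝓝[≠] (-z), w + e * t ∉ L.lattice :=
      (hopen2 _ hnm).filter_mono nhdsWithin_le_nhds
    have e2 : ∀ᶠ t in 𝓝[≠] (-z), z + t ∉ L.lattice := by
      have hcont : ContinuousAt (fun t : ℂ => z + t) (-z) := by fun_prop
      have h3 : ∀ᶠ t in 𝓝 (-z), z + t ∈ ((L.lattice : Set ℂ) \ {0})ᶜ := by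
        apply hcont.eventually (p := fun x => x ∈ ((L.lattice : Set ℂ) \ {0})ᶜ)
        have := L.compl_lattice_sdiff_singleton_mem_nhds 0
        have h0 : (fun t : ℂ => z + t) (-z) = 0 := by simp
        rw [h0]
        exact this
      filter_upwards [self_mem_nhdsWithin, h3.filter_mono nhdsWithin_le_nhds] with t ht ht2 hmem
      apply ht2
      refine ⟨hmem, ?_⟩
      simp only [Set.mem_singleton_iff]
      intro h0
      apply ht
      simp only [Set.mem_singleton_iff]
      linear_combination h0
    filter_upwards [e1, e2] with t ht1 ht2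
    have : t ∈ Aᶜ := by
      simp only [hA, Set.mem_compl_iff, Set.mem_union, Set.mem_ofPred_eq, not_or]
      exact ⟨ht2, ht1⟩
    have := hglob this
    simp only [Pi.zero_apply] at this
    exact sub_eq_zero.mp this
  have hlim3 : Tendsto u (𝓝[≠] (-z)) (𝓝 (v (-z))) := hlim2.congr' hev.symm
  exact hlim1.not_tendsto (Metric.disjoint_nhds_cobounded _).symm hlim3

/-- `wp` separates points modulo sign and the lattice. -/
lemma wp_eq_iff {z w : ℂ} (hz : z ∉ L.lattice) (hw : w ∉ L.lattice) :
    PeriodPair.weierstrassP L z = PeriodPair.weierstrassP L w ↔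
      z - w ∈ L.lattice ∨ z + w ∈ L.lattice := by
  constructor
  · intro h
    have h1 := L.derivWeierstrassP_sq z hz
    have h2 := L.derivWeierstrassP_sq w hw
    have h3 : PeriodPair.derivWeierstrassP L z ^ 2 = PeriodPair.derivWeierstrassP L w ^ 2 := by
      rw [h1, h2, h]
    rcases sq_eq_sq_iff_eq_or_eq_neg.mp h3 with h4 | h4
    · left
      have := wp_unique_aux L (Or.inl rfl) hz hw h (by rw [h4]; ring)
      simpa using this
    · right
      have := wp_unique_aux L (Or.inr rfl) hz hw h (by rw [h4]; ring)
      simpa using this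
  · rintro (h | h)
    · have := L.weierstrassP_add_coe w ⟨z - w, h⟩
      simpa using this
    · have := L.weierstrassP_add_coe (-w) ⟨z + w, h⟩
      have h2 : -w + (z + w) = z := by ring
      simp only [h2, L.weierstrassP_neg] at this
      exact this

/-- The derivative of `wp` vanishes off the lattice only at half periods. -/
lemma two_mul_mem_of_wp'_eq_zero {z : ℂ} (hz : z ∉ L.lattice)
    (h : PeriodPair.derivWeierstrassP L z = 0) : 2 * z ∈ L.lattice := by
  have := wp_unique_aux L (Or.inr rfl) hz hz rfl (by rw [h]; ring)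
  simpa [two_mul] using this

/-- `wp` takes every finite value. -/
lemma wp_surjective (c : ℂ) : ∃ z, z ∉ L.lattice ∧ PeriodPair.weierstrassP L z = c := by
  classical
  by_contra hcon
  push Not at hcon
  set P := PeriodPair.weierstrassP L with hP
  -- the reciprocal extends to an entire periodic function
  set f : ℂ → ℂ := fun z => if z ∈ L.lattice then 0 else (P z - c)⁻¹ with hf
  have hdiff : Differentiable ℂ f := by
    have hoff : ∀ z, z ∉ L.lattice → DifferentiableAt ℂ f z := by
      intro z hz
      have h1 : DifferentiableAt ℂ (fun w => (P w - c)⁻¹) z := by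
        apply DifferentiableAt.inv
        · exact (analyticAt_wp L hz).differentiableAt.sub_const c
        · exact sub_ne_zero.mpr (hcon z hz)
      apply h1.congr_of_eventuallyEq
      filter_upwards [eventually_notMem_lattice L hz] with w hw
      simp [hf, hw]
    intro z
    by_cases hz : z ∈ L.lattice
    · -- removable singularity
      have hcont : ContinuousAt f z := by
        have hfz : f z = 0 := by simp [hf, hz]
        rw [continuousAt_iff_punctured_nhds, hfz]
        have h1 := tendsto_weierstrassP_cobounded L hz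
        have h2 : Tendsto (fun w => (P w - c)⁻¹) (𝓝[≠] z) (𝓝 0) := by
          have h3 : Tendsto (fun w => P w - c) (𝓝[≠] z) (Bornology.cobounded ℂ) := by
            have := h1
            rw [← tendsto_norm_atTop_iff_cobounded] at this ⊢
            apply tendsto_atTop_mono (f := fun w => ‖P w‖ - ‖c‖)
            · intro w
              exact norm_sub_norm_le _ _
            · exact tendsto_atTop_add_const_right _ _ this
          exact tendsto_inv₀_cobounded.comp h3
        apply h2.congr'
        filter_upwards [self_mem_nhdsWithin,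
          mem_nhdsWithin_of_mem_nhds (L.compl_lattice_sdiff_singleton_mem_nhds z)] with w hw hw'
        have : w ∉ L.lattice := fun hmem => hw' ⟨hmem, hw⟩
        simp [hf, this]
      have hs : ((L.lattice : Set ℂ) \ {z})ᶜ ∈ 𝓝 z := L.compl_lattice_sdiff_singleton_mem_nhds z
      have := (Complex.differentiableOn_compl_singleton_and_continuousAt_iff hs).mp ⟨by
        intro w hw
        apply (hoff w ?_).differentiableWithinAt
        intro hmem
        exact hw.1 ⟨hmem, hw.2⟩, hcont⟩
      exact (this z (by simp)).differentiableAt hs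
    · exact hoff z hz
  have hper : ∀ z w, w ∈ L.lattice → f (z + w) = f z := by
    intro z w hw
    have h1 : z + w ∈ L.lattice ↔ z ∈ L.lattice := by
      constructor
      · intro h
        have := sub_mem h hw
        simpa using this
      · intro h
        exact add_mem h hw
    simp only [hf, h1]
    have h2 := L.weierstrassP_add_coe z ⟨w, hw⟩
    simp only [← hP] at h2
    rw [h2]
  have hbdd : Bornology.IsBounded (Set.range f) :=
    (IsZLattice.isCompact_range_of_periodic L.lattice f hdiff.continuous hper).isBounded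
  have hconst : ∀ z, f z = f 0 := fun z => hdiff.apply_eq_apply_of_bounded hbdd z 0
  have h0 : f 0 = 0 := by simp [hf]
  have h1 := hconst (L.ω₁ / 2)
  rw [h0] at h1
  have hn := L.ω₁_div_two_notMem_lattice
  simp only [hf, hn, if_false] at h1
  exact (inv_ne_zero (sub_ne_zero.mpr (hcon _ hn))) h1

end Pool.Agent.SimpleSpectrum
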