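import Pool.Agent.SimpleSpectrum.Model
import Pool.Agent.SimpleSpectrum.Invariant
import Pool.Agent.SimpleSpectrum.FiniteClasses

/-!
Winding numbers on the torus and the computation of the invariant.
-/

set_option autoImplicit false

open Filter Topology

namespace Pool.Agent.SimpleSpectrum

/-- `u` has winding numbers `a`, `b`. -/
def Wind (u : Tor → UnitAddCircle) (a b : ℤ) : Prop :=
  ∃ F : ℝ × ℝ → ℝ, Continuous F ∧ (∀ v, ((F v : ℝ) : UnitAddCircle) = u (proj v)) ∧
    ∀ (v : ℝ × ℝ) (m n : ℤ), F (v + ((m : ℝ), (n : ℝ))) = F v + a * m + b * n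

lemma proj_int (m n : ℤ) : proj ((m : ℝ), (n : ℝ)) = 0 := (proj_eq_zero_iff _).mpr ⟨m, n, rfl⟩

lemma exists_wind {u : Tor → UnitAddCircle} (hu : Continuous u) : ∃ a b : ℤ, Wind u a b := by
  obtain ⟨F, hF, hFe⟩ := exists_lift_circle (fun v : ℝ × ℝ => u (proj v))
    (hu.comp continuous_proj)
  -- the difference under integer translations is a constant integer
  have key : ∀ m n : ℤ, ∀ v : ℝ × ℝ, F (v + ((m : ℝ), (n : ℝ))) - F v =
      F ((m : ℝ), (n : ℝ)) - F 0 := by
    intro m n v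
    have hpre : IsPreconnected (Set.univ : Set (ℝ × ℝ)) := isPreconnected_univ
    have h1 := int_valued_const hpre (g := fun v => F (v + ((m : ℝ), (n : ℝ))) - F v)
      (by
        apply Continuous.continuousOn
        exact (hF.comp (by fun_prop)).sub hF)
      (by
        intro x _
        rw [AddCircle.coe_sub, hFe, hFe, proj_add, proj_int, add_zero, sub_self])
      (Set.mem_univ v) (Set.mem_univ (0 : ℝ × ℝ))
    simpa using h1
  have hint : ∀ m n : ℤ, ∃ k : ℤ, (k : ℝ) = F ((m : ℝ), (n : ℝ)) - F 0 := by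
    intro m n
    rw [← coe_eq_zero_iff_int, AddCircle.coe_sub, hFe, hFe, proj_int, proj_zero, sub_self]
  obtain ⟨a, ha⟩ := hint 1 0
  obtain ⟨b, hb⟩ := hint 0 1
  have hx : ∀ (m : ℤ) (v : ℝ × ℝ), F (v + ((m : ℝ), 0)) = F v + a * m := by
    intro m
    induction m using Int.induction_on with
    | zero =>
      intro v
      have h1 : v + (((0 : ℤ) : ℝ), (0 : ℝ)) = v := by apply Prod.ext <;> simp
      rw [h1]
      simp
    | succ i ih =>
      intro v
      have h1 := key 1 0 (v + (((i : ℤ) : ℝ), 0))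
      have h2 : v + ((((i : ℤ) + 1 : ℤ) : ℝ), 0) = v + (((i : ℤ) : ℝ), 0) + (((1 : ℤ) : ℝ), ((0 : ℤ) : ℝ)) := by
        apply Prod.ext <;> simp <;> ring
      rw [h2]
      have h3 := ih v
      push_cast at *
      linarith
    | pred i ih =>
      intro v
      have h1 := key 1 0 (v + (((-(i : ℤ) - 1 : ℤ) : ℝ), 0))
      have h2 : v + (((-(i : ℤ) : ℤ) : ℝ), 0) =
          v + (((-(i : ℤ) - 1 : ℤ) : ℝ), 0) + (((1 : ℤ) : ℝ), ((0 : ℤ) : ℝ)) := by
        apply Prod.ext <;> simp <;> ring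
      have h3 := ih v
      rw [h2] at h3
      push_cast at *
      linarith
  have hy : ∀ (m : ℤ) (v : ℝ × ℝ), F (v + (0, (m : ℝ))) = F v + b * m := by
    intro m
    induction m using Int.induction_on with
    | zero =>
      intro v
      have h1 : v + ((0 : ℝ), ((0 : ℤ) : ℝ)) = v := by apply Prod.ext <;> simp
      rw [h1]
      simp
    | succ i ih =>
      intro v
      have h1 := key 0 1 (v + (0, ((i : ℤ) : ℝ)))
      have h2 : v + (0, (((i : ℤ) + 1 : ℤ) : ℝ)) = v + (0, ((i : ℤ) : ℝ)) + (((0 : ℤ) : ℝ), ((1 : ℤ) : ℝ)) := by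
        apply Prod.ext <;> simp <;> ring
      rw [h2]
      have h3 := ih v
      push_cast at *
      linarith
    | pred i ih =>
      intro v
      have h1 := key 0 1 (v + (0, ((-(i : ℤ) - 1 : ℤ) : ℝ)))
      have h2 : v + (0, ((-(i : ℤ) : ℤ) : ℝ)) =
          v + (0, ((-(i : ℤ) - 1 : ℤ) : ℝ)) + (((0 : ℤ) : ℝ), ((1 : ℤ) : ℝ)) := by
        apply Prod.ext <;> simp <;> ring
      have h3 := ih v
      rw [h2] at h3
      push_cast at *
      linarith
  refine ⟨a, b, F, hF, hFe, ?_⟩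
  intro v m n
  have h1 : v + ((m : ℝ), (n : ℝ)) = v + ((m : ℝ), 0) + (0, (n : ℝ)) := by
    apply Prod.ext <;> simp
  rw [h1, hy, hx]

lemma Wind.add {u u' : Tor → UnitAddCircle} {a b a' b' : ℤ} (h : Wind u a b)
    (h' : Wind u' a' b') : Wind (fun t => u t + u' t) (a + a') (b + b') := by
  obtain ⟨F, hF, h1, h2⟩ := h
  obtain ⟨F', hF', h1', h2'⟩ := h'
  refine ⟨fun v => F v + F' v, hF.add hF', ?_, ?_⟩
  · intro v
    rw [AddCircle.coe_add, h1, h1']
  · intro v m n
    simp only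
    rw [h2, h2']
    push_cast
    ring

lemma Wind.sub {u u' : Tor → UnitAddCircle} {a b a' b' : ℤ} (h : Wind u a b)
    (h' : Wind u' a' b') : Wind (fun t => u t - u' t) (a - a') (b - b') := by
  obtain ⟨F, hF, h1, h2⟩ := h
  obtain ⟨F', hF', h1', h2'⟩ := h'
  refine ⟨fun v => F v - F' v, hF.sub hF', ?_, ?_⟩
  · intro v
    rw [AddCircle.coe_sub, h1, h1']
  · intro v m n
    simp only
    rw [h2, h2']
    push_cast
    ring

lemma Wind.nsmul {u : Tor → UnitAddCircle} {a b : ℤ} (h : Wind u a b) (k : ℕ) :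
    Wind (fun t => k • u t) (k * a) (k * b) := by
  obtain ⟨F, hF, h1, h2⟩ := h
  refine ⟨fun v => k * F v, continuous_const.mul hF, ?_, ?_⟩
  · intro v
    simp only
    rw [← nsmul_eq_mul, AddCircle.coe_nsmul, h1]
  · intro v m n
    simp only
    rw [h2]
    push_cast
    ring

lemma Wind.comp_act {u : Tor → UnitAddCircle} {a b : ℤ} (h : Wind u a b) (x y z w : ℤ) :
    Wind (fun t => u (act x y z w t)) (a * x + b * z) (a * y + b * w) := by
  obtain ⟨F, hF, h1, h2⟩ := h
  have hlin : Continuous (lin x y z w) := by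
    unfold lin
    fun_prop
  refine ⟨fun v => F (lin x y z w v), hF.comp hlin, ?_, ?_⟩
  · intro v
    rw [h1, proj_lin]
  · intro v m n
    have h3 : lin x y z w (v + ((m : ℝ), (n : ℝ))) =
        lin x y z w v + (((x * m + y * n : ℤ) : ℝ), ((z * m + w * n : ℤ) : ℝ)) := by
      apply Prod.ext
      · simp only [lin, Prod.fst_add, Prod.snd_add]; push_cast; ring
      · simp only [lin, Prod.fst_add, Prod.snd_add]; push_cast; ring
    simp only
    rw [h3, h2]
    push_cast
    ring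

/-- Null homotopic functions have winding numbers zero. -/
lemma wind_zero {G : Tor → ℝ} (hG : Continuous G) :
    Wind (fun t => ((G t : ℝ) : UnitAddCircle)) 0 0 := by
  refine ⟨fun v => G (proj v), hG.comp continuous_proj, fun v => rfl, ?_⟩
  intro v m n
  simp only
  rw [proj_add, proj_int]
  simp

lemma wind_snd : Wind (fun t => t.2) 0 1 := by
  refine ⟨fun v => v.2, continuous_snd, fun v => rfl, ?_⟩
  intro v m n
  simp

lemma Wind.unique {u : Tor → UnitAddCircle} {a b a' b' : ℤ} (h : Wind u a b)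
    (h' : Wind u a' b') : a = a' ∧ b = b' := by
  obtain ⟨F, hF, h1, h2⟩ := h
  obtain ⟨F', hF', h1', h2'⟩ := h'
  have key : ∀ v v' : ℝ × ℝ, F v - F' v = F v' - F' v' := by
    intro v v'
    exact int_valued_const (isPreconnected_univ : IsPreconnected (Set.univ : Set (ℝ × ℝ)))
      (g := fun v => F v - F' v) (hF.sub hF').continuousOn
      (by
        intro x _
        rw [AddCircle.coe_sub, h1, h1', sub_self]) (Set.mem_univ v) (Set.mem_univ v')
  have e1 := h2 0 1 0
  have e2 := h2' 0 1 0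
  have e3 := key (0 + (((1 : ℤ) : ℝ), ((0 : ℤ) : ℝ))) 0
  have f1 := h2 0 0 1
  have f2 := h2' 0 0 1
  have f3 := key (0 + (((0 : ℤ) : ℝ), ((1 : ℤ) : ℝ))) 0
  rw [e1, e2] at e3
  rw [f1, f2] at f3
  push_cast at e3 f3
  constructor
  · have : (a : ℝ) = a' := by linarith
    exact_mod_cast this
  · have : (b : ℝ) = b' := by linarith
    exact_mod_cast this

namespace TorusCover

variable {S : Type} [TopologicalSpace S] (C : TorusCover S)

/-- The transfer of a function. -/
lemma exists_transfer {Z : Type} [TopologicalSpace Z] [AddCommMonoid Z] [ContinuousAdd Z]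
    {c : S → Z} (hc : Continuous c) :
    ∃ c' : Tor → Z, Continuous c' ∧ ∀ x, c x + c (C.τ x) = c' (C.φ x) := by
  have h : ∀ x, c x + c (C.τ x) = c (C.pt (C.φ x)) + c (C.τ (C.pt (C.φ x))) := by
    intro x
    rcases C.eq_pt_or x with h | h
    · rw [← h]
    · have h5 := congrArg C.τ h
      rw [C.τ_invol] at h5
      rw [h5, ← h, add_comm]
  refine ⟨fun θ => c (C.pt θ) + c (C.τ (C.pt θ)), ?_, h⟩
  rw [C.isQuotientMap_φ.continuous_iff]
  have h2 : (fun θ => c (C.pt θ) + c (C.τ (C.pt θ))) ∘ C.φ = fun x => c x + c (C.τ x) := by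
    funext x
    exact (h x).symm
  rw [h2]
  exact hc.add (hc.comp C.τ_cont)

end TorusCover

namespace Par

variable (p : Par)

/-- The invariant contains the exponent of `b`. -/
theorem mem_J {S : Type} [TopologicalSpace S] [T2Space S] (C : TorusCover S) (f : S ≃ₜ S)
    (hf : ∀ x, C.φ (f x) = act 1 p.b (-p.c) (1 - p.b * p.c) (C.φ x)) {l e : ℕ} (hl : 3 ≤ l)
    (he : 1 ≤ e) (hbe : p.b = l ^ e) : e ∈ J l f := by
  have hτ : ∀ x, f (C.τ x) = C.τ (f x) := by
    apply C.comm_τ
    intro x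
    rw [hf, hf, C.φ_τ]
  refine ⟨he, fun x => (C.φ x).2, continuous_snd.comp C.φ_cont, ?_, ?_⟩
  · refine ⟨fun _ => 0, fun x => (C.φ x).1, continuous_const, continuous_fst.comp C.φ_cont, ?_⟩
    intro x
    simp only
    rw [hf, ← hbe]
    simp only [act]
    simp
  · rintro z hz ⟨F, u, hF, hu, h⟩
    obtain ⟨F', hF', hFe⟩ := C.exists_transfer hF
    obtain ⟨u', hu', hue⟩ := C.exists_transfer hu
    obtain ⟨z', hz', hze⟩ := C.exists_transfer hz
    obtain ⟨a, b, hab⟩ := exists_wind hu'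
    obtain ⟨a', b', hab'⟩ := exists_wind hz'
    -- the equation on the torus
    have heq : ∀ θ : Tor, (2 * l ^ (e - 1)) • θ.2 - l ^ e • z' θ =
        ((F' θ : ℝ) : UnitAddCircle) + (u' (act 1 p.b (-p.c) (1 - p.b * p.c) θ) - u' θ) := by
      intro θ
      obtain ⟨x, rfl⟩ := C.φ_surj θ
      have h1 := h x
      have h2 := h (C.τ x)
      simp only [C.φ_τ] at h2
      rw [← hf, ← hze, ← hue, ← hue, ← hFe, AddCircle.coe_add]
      rw [hτ] at h2
      have h3 := congrArg₂ (· + ·) h1 h2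
      simp only at h3
      have e1 : (2 * l ^ (e - 1)) • (C.φ x).2 - l ^ e • (z x + z (C.τ x)) =
          l ^ (e - 1) • (C.φ x).2 - l ^ e • z x + (l ^ (e - 1) • (C.φ x).2 - l ^ e • z (C.τ x)) := by
        rw [smul_add, two_mul, add_smul]
        abel
      rw [e1, h3]
      abel
    have hw1 : Wind (fun θ : Tor => (2 * l ^ (e - 1)) • θ.2 - l ^ e • z' θ)
        (((2 * l ^ (e - 1) : ℕ) : ℤ) * 0 - ((l ^ e : ℕ) : ℤ) * a')
        (((2 * l ^ (e - 1) : ℕ) : ℤ) * 1 - ((l ^ e : ℕ) : ℤ) * b') :=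
      (wind_snd.nsmul _).sub (hab'.nsmul _)
    have hw2 := (wind_zero hF').add ((hab.comp_act 1 p.b (-p.c) (1 - p.b * p.c)).sub hab)
    have hfun : (fun θ : Tor => (2 * l ^ (e - 1)) • θ.2 - l ^ e • z' θ) =
        fun θ => ((F' θ : ℝ) : UnitAddCircle) +
          (u' (act 1 p.b (-p.c) (1 - p.b * p.c) θ) - u' θ) := funext heq
    rw [hfun] at hw1
    have h5 := (hw1.unique hw2).2
    -- divisibility
    have h6 : ((l ^ e : ℕ) : ℤ) ∣ ((2 * l ^ (e - 1) : ℕ) : ℤ) := by
      refine ⟨b' + (a - b * p.c), ?_⟩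
      have hb : (p.b : ℤ) = ((l ^ e : ℕ) : ℤ) := by rw [hbe]
      rw [hb] at h5
      linear_combination h5
    have h7 : l ^ e ∣ 2 * l ^ (e - 1) := by exact_mod_cast h6
    have h8 : l ^ e = l * l ^ (e - 1) := by
      rw [← pow_succ']
      congr 1
      omega
    rw [h8] at h7
    have h9 : 0 < l ^ (e - 1) := pow_pos (by omega) _
    have h10 : l ∣ 2 := Nat.dvd_of_mul_dvd_mul_right h9 h7
    have := Nat.le_of_dvd (by norm_num) h10
    omega

end Par

end Pool.Agent.SimpleSpectrum
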